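import Pool.Agent.U365.TAU.F
import Pool.Agent.H510R2.Div

set_option autoImplicit false

/-! The values `α m + β f(m)` keep away from sets with a power saving, if `m` has a large divisor which is a prime or the
product of two different primes. -/

namespace Pool.Agent.U365.POW

open Finset Filter Pool.Agent.U365.AQG

/-- `m` has a divisor `≥ m ^ τ` which is a prime (`v = 1`) or the product of two different primes. -/
def LargePair (τ : ℝ) (m : ℕ) : Prop :=
  ∃ p v : ℕ, p.Prime ∧ (v = 1 ∨ (v.Prime ∧ v ≠ p)) ∧ p * v ∣ m ∧ (m : ℝ) ^ τ ≤ (p : ℝ) * v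

lemma bil (A B C n : ℤ) (hA : A ≠ 0) (hM : A * (n - C) + B ^ 2 ≠ 0) (T : Finset (ℕ × ℕ))
    (hT : ∀ w ∈ T, A * (w.1 * w.2) + B * (w.1 + w.2) + C = n) :
    T.card ≤ 2 * (A * (n - C) + B ^ 2).natAbs.divisors.card := by
  classical
  have hfac : ∀ w ∈ T, (A * w.1 + B) * (A * w.2 + B) = A * (n - C) + B ^ 2 := by
    intro w hw
    have := hT w hw
    linear_combination A * this
  have hcard : T.card ≤ ((A * (n - C) + B ^ 2).natAbs.divisors ×ˢ (univ : Finset Bool)).card := by
    apply card_le_card_of_injOn (fun w => ((A * w.1 + B).natAbs, decide (0 ≤ A * (w.1 : ℤ) + B)))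
    · intro w hw
      rw [mem_coe] at hw ⊢
      rw [mem_product]
      refine ⟨?_, mem_univ _⟩
      rw [Nat.mem_divisors]
      refine ⟨?_, by simpa using hM⟩
      rw [Int.natAbs_dvd_natAbs]
      exact ⟨_, (hfac w hw).symm⟩
    · intro w hw w' hw' h
      rw [mem_coe] at hw hw'
      simp only [Prod.mk.injEq, decide_eq_decide] at h
      obtain ⟨h1, h2⟩ := h
      have h3 : A * (w.1 : ℤ) + B = A * w'.1 + B := by
        rcases Int.natAbs_eq_natAbs_iff.1 h1 with h3 | h3
        · exact h3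
        · obtain ⟨s, hs⟩ : ∃ s, s = A * (w.1 : ℤ) + B := ⟨_, rfl⟩
          obtain ⟨t, ht⟩ : ∃ t, t = A * (w'.1 : ℤ) + B := ⟨_, rfl⟩
          rw [← hs, ← ht] at h2 h3 ⊢
          omega
      have h4 : (w.1 : ℤ) = w'.1 := by
        have : A * (w.1 : ℤ) = A * w'.1 := by linarith
        exact mul_left_cancel₀ hA this
      have h5 : w.1 = w'.1 := by exact_mod_cast h4
      have h6 := hfac w hw
      have h7 := hfac w' hw'
      have h8 : A * (w.1 : ℤ) + B ≠ 0 := by
        intro h9
        rw [h9, zero_mul] at h6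
        exact hM h6.symm
      have h9 : A * (w.2 : ℤ) + B = A * w'.2 + B := by
        apply mul_left_cancel₀ h8
        rw [h6, h3, h7]
      have h10 : (w.2 : ℤ) = w'.2 := by
        have : A * (w.2 : ℤ) = A * w'.2 := by linarith
        exact mul_left_cancel₀ hA this
      have h11 : w.2 = w'.2 := by exact_mod_cast h10
      exact Prod.ext h5 h11
  rw [card_product, card_univ, Fintype.card_bool] at hcard
  omega

lemma split {m p : ℕ} (hp : p.Prime) (hd : p ∣ m) (h2 : ¬ p ^ 2 ∣ m) : m = m / p * p ∧ Nat.Coprime (m / p) p := by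
  have h1 : m = m / p * p := (Nat.div_mul_cancel hd).symm
  refine ⟨h1, ?_⟩
  rw [Nat.coprime_comm, hp.coprime_iff_not_dvd]
  rintro ⟨t, ht⟩
  apply h2
  refine ⟨t, ?_⟩
  rw [h1, ht]
  ring

lemma one_prime (A B : ℤ) (hA : A ≠ 0) (S : Set ℕ) [DecidablePred (· ∈ S)] (N X : ℕ) :
    ((Icc 1 N).filter (fun p : ℕ => 0 < A * p + B ∧ (A * p + B).toNat ≤ X ∧ (A * p + B).toNat ∈ S)).card ≤
      ((Icc 1 X).filter (fun t => t ∈ S)).card := by
  apply card_le_card_of_injOn (fun p : ℕ => (A * p + B).toNat)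
  · intro p hp
    rw [mem_coe, mem_filter] at hp
    rw [mem_coe, mem_filter, mem_Icc]
    refine ⟨⟨?_, hp.2.2.1⟩, hp.2.2.2⟩
    have h1 := hp.2.1
    show 1 ≤ (A * (p : ℤ) + B).toNat
    omega
  · intro p hp p' hp' h
    rw [mem_coe, mem_filter] at hp hp'
    simp only at h
    have h1 := hp.2.1
    have h2 := hp'.2.1
    have h3 : A * (p : ℤ) + B = A * p' + B := by omega
    have h4 : (p : ℤ) = p' := by
      have : A * (p : ℤ) = A * p' := by linarith
      exact mul_left_cancel₀ hA this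
    exact_mod_cast h4

end Pool.Agent.U365.POW
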