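import Pool.Agent.U365.POW.A

set_option autoImplicit false

/-! The values `α m + β f(m)` keep away from sets with a power saving, if `m` has a large divisor which is a prime or the
product of two different primes. -/

namespace Pool.Agent.U365.POW

open Finset Filter Pool.Agent.U365.AQG

open Classical in
theorem avoid {f : ℕ → ℕ} {c : ℤ} (hf : Moderate f c) {θ ρ : ℝ} (hθ0 : 0 ≤ θ) (hθ1 : θ ≤ 1) (hρ0 : 0 < ρ)
    (hρ1 : ρ ≤ 1) (K : ℝ) : ∃ N₀ : ℕ, ∀ N : ℕ, N₀ ≤ N → ∀ S : Set ℕ,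
      (∀ X : ℕ, 1 ≤ X → (((Icc 1 X).filter (fun t => t ∈ S)).card : ℝ) ≤ K * (X : ℝ) ^ θ) →
      (((Icc 1 N).filter (fun m => LargePair (θ + ρ) m ∧ ∃ α β : ℤ, |(α : ℝ)| ≤ (N : ℝ) ^ (ρ / 200) ∧
        |(β : ℝ)| ≤ (N : ℝ) ^ (ρ / 200) ∧ (N : ℝ) ^ (1 - ρ / 200) ≤ ((α * m + β * f m : ℤ) : ℝ) ∧
        (α * m + β * f m).toNat ∈ S)).card : ℝ) ≤ (N : ℝ) ^ (1 - ρ / 200) := by
  obtain ⟨P, hP⟩ := hf.prime
  obtain ⟨C, hC⟩ := hf.growth
  obtain ⟨D, hD0, hD⟩ := Pool.Agent.H510R2.divisor_bound (ρ / 600) (by positivity)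
  obtain ⟨x1, hx1⟩ := eventually_atTop.1 (Pool.Agent.R460.GS.real_log (2 * C + 1) (s := ρ / 200) (by positivity)
    (|K| + |(c : ℝ)| + P + D + 4))
  obtain ⟨n1, hn1⟩ := exists_nat_ge x1
  refine ⟨n1 + 3, fun N hN S hS => ?_⟩
  obtain ⟨hLb, hLp⟩ := hx1 N (hn1.trans (by exact_mod_cast (by omega : n1 ≤ N)))
  obtain ⟨x, hx⟩ : ∃ x : ℝ, x = N := ⟨_, rfl⟩
  obtain ⟨L, hL⟩ : ∃ L, L = Real.log N := ⟨_, rfl⟩
  rw [← hL] at hLb hLp
  rw [← hx] at hLp ⊢
  obtain ⟨u, hu⟩ : ∃ u : ℝ, u = x ^ (ρ / 200) := ⟨_, rfl⟩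
  rw [← hu] at hLp ⊢
  have hx3 : (3 : ℝ) ≤ x := by rw [hx]; exact_mod_cast (by omega : 3 ≤ N)
  have hx0 : 0 < x := by linarith
  have hx1' : 1 ≤ x := by linarith
  have q1 := abs_nonneg K
  have q2 := abs_nonneg (c : ℝ)
  have q3 : (0 : ℝ) ≤ P := Nat.cast_nonneg _
  have hL4 : 4 ≤ L := by linarith
  have hL1 : 1 ≤ L := by linarith
  have hLu : L ≤ u := by
    refine le_trans ?_ hLp
    calc L = L ^ 1 := (pow_one L).symm
      _ ≤ L ^ (2 * C + 1) := pow_le_pow_right₀ hL1 (by omega)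
  have hu4 : 4 ≤ u := hL4.trans hLu
  have hu1 : 1 ≤ u := by linarith
  have hu0 : 0 < u := by linarith
  have hKu : |K| ≤ u := by linarith
  have hcu : |(c : ℝ)| ≤ u := by linarith
  have hPu : (P : ℝ) ≤ u := by linarith
  have hDu : D ≤ u := by linarith
  have hgr : (1 + L) ^ C ≤ u := by
    calc (1 + L) ^ C ≤ (L ^ 2) ^ C := pow_le_pow_left₀ (by linarith) (by nlinarith) C
      _ = L ^ (2 * C) := by rw [pow_mul]
      _ ≤ L ^ (2 * C + 1) := pow_le_pow_right₀ hL1 (by omega)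
      _ ≤ u := hLp
  obtain ⟨y, hy⟩ : ∃ y : ℝ, y = u ^ 2 := ⟨_, rfl⟩
  have huy : u ≤ y := by rw [hy]; nlinarith
  have hy16 : 16 ≤ y := by rw [hy]; nlinarith
  have hy1 : 1 ≤ y := by linarith
  have hy0 : 0 < y := by linarith
  have hxu : x ^ (1 - ρ / 200) = x / u := by
    rw [Real.rpow_sub hx0, Real.rpow_one, ← hu]
  have hy100 : y ^ 100 = x ^ ρ := by
    rw [hy, hu, ← pow_mul, ← Real.rpow_natCast, ← Real.rpow_mul hx0.le]
    congr 1
    push_cast
    ring
  have hyx : y ^ 100 ≤ x := by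
    rw [hy100]
    calc x ^ ρ ≤ x ^ (1 : ℝ) := Real.rpow_le_rpow_of_exponent_le hx1' hρ1
      _ = x := Real.rpow_one x
  obtain ⟨a, ha⟩ : ∃ a : ℝ, a = x ^ θ := ⟨_, rfl⟩
  obtain ⟨b, hb⟩ : ∃ b : ℝ, b = x ^ (1 - θ) := ⟨_, rfl⟩
  have hab : a * b = x := by
    rw [ha, hb, ← Real.rpow_add hx0]
    rw [show θ + (1 - θ) = 1 by ring, Real.rpow_one]
  have ha1 : 1 ≤ a := by rw [ha]; exact Real.one_le_rpow hx1' hθ0
  have hb1 : 1 ≤ b := by rw [hb]; exact Real.one_le_rpow hx1' (by linarith)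
  have ha0 : 0 < a := by linarith
  have hb0 : 0 < b := by linarith
  have hbx : b ≤ x := by rw [← hab]; nlinarith
  -- powers of `y`
  have hyp : ∀ n : ℕ, 0 < y ^ n := fun n => pow_pos hy0 n
  have hyp1 : ∀ n : ℕ, 1 ≤ y ^ n := fun n => one_le_pow₀ hy1
  have hypm : ∀ m n : ℕ, m ≤ n → y ^ m ≤ y ^ n := fun m n h => pow_le_pow_right₀ hy1 h
  obtain ⟨z, hz⟩ : ∃ z : ℕ, z = ⌊y ^ 20⌋₊ := ⟨_, rfl⟩
  have hzy : (z : ℝ) ≤ y ^ 20 := by rw [hz]; exact Nat.floor_le (by positivity)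
  have hzy' : y ^ 20 < z + 1 := by rw [hz]; exact Nat.lt_floor_add_one _
  have hyz : y ≤ z := by
    have h1 : y ^ 2 ≤ y ^ 20 := hypm 2 20 (by norm_num)
    nlinarith
  have hz1 : 1 ≤ z := by
    have : (1 : ℝ) ≤ z := by linarith
    exact_mod_cast this
  obtain ⟨X, hX⟩ : ∃ X : ℕ, X = ⌊x * y ^ 2⌋₊ := ⟨_, rfl⟩
  have hXle : (X : ℝ) ≤ x * y ^ 2 := by rw [hX]; exact Nat.floor_le (by positivity)
  have hX1 : 1 ≤ X := by
    rw [hX]
    apply Nat.le_floor
    rw [Nat.cast_one]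
    exact one_le_mul_of_one_le_of_one_le hx1' (hyp1 2)
  -- the functions
  obtain ⟨A, hA⟩ : ∃ A : ℤ → ℤ → ℕ → ℤ, A = fun (α β : ℤ) (k : ℕ) => α * (k : ℤ) + β * (f k : ℤ) := ⟨_, rfl⟩
  obtain ⟨B, hB⟩ : ∃ B : ℤ → ℕ → ℤ, B = fun (β : ℤ) (k : ℕ) => β * c * (f k : ℤ) := ⟨_, rfl⟩
  have hfk : ∀ k : ℕ, 1 ≤ k → k ≤ N → (f k : ℝ) ≤ k * u := by
    intro k hk hkN
    have hk0 : (0 : ℝ) < k := by exact_mod_cast hk
    have hlk : Real.log k ≤ L := by
      rw [hL]
      exact Real.log_le_log hk0 (by exact_mod_cast hkN)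
    have hlk0 : 0 ≤ Real.log k := Real.log_nonneg (by exact_mod_cast hk)
    refine (hC k hk).trans ?_
    apply mul_le_mul_of_nonneg_left _ hk0.le
    exact (pow_le_pow_left₀ (by linarith) (by linarith) C).trans hgr
  have hAb : ∀ (α β : ℤ) (k : ℕ), |(α : ℝ)| ≤ u → |(β : ℝ)| ≤ u → 1 ≤ k → k ≤ N →
      |((A α β k : ℤ) : ℝ)| ≤ 2 * (k * y) := by
    intro α β k hα hβ hk hkN
    have h1 := hfk k hk hkN
    have hk0 : (0 : ℝ) ≤ k := Nat.cast_nonneg _
    have hf0 : (0 : ℝ) ≤ f k := Nat.cast_nonneg _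
    rw [hA]
    push_cast
    calc |(α : ℝ) * k + β * f k| ≤ |(α : ℝ) * k| + |(β : ℝ) * f k| := abs_add_le _ _
      _ = |(α : ℝ)| * k + |(β : ℝ)| * f k := by rw [abs_mul, abs_mul, abs_of_nonneg hk0, abs_of_nonneg hf0]
      _ ≤ u * k + u * (k * u) := add_le_add (mul_le_mul_of_nonneg_right hα hk0) (mul_le_mul hβ h1 hf0 hu0.le)
      _ ≤ 2 * (k * y) := by rw [hy]; nlinarith [mul_nonneg hk0 hu0.le]
  have hBb : ∀ (β : ℤ) (k : ℕ), |(β : ℝ)| ≤ u → 1 ≤ k → k ≤ N →
      |((B β k : ℤ) : ℝ)| ≤ k * y ^ 2 ∧ |((B β k : ℤ) : ℝ)| * |(c : ℝ)| ≤ k * y ^ 2 := by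
    intro β k hβ hk hkN
    have h1 := hfk k hk hkN
    have hk0 : (0 : ℝ) ≤ k := Nat.cast_nonneg _
    have hf0 : (0 : ℝ) ≤ f k := Nat.cast_nonneg _
    have h2 : |((B β k : ℤ) : ℝ)| ≤ k * u ^ 3 := by
      rw [hB]
      push_cast
      rw [abs_mul, abs_mul, abs_of_nonneg hf0]
      calc |(β : ℝ)| * |(c : ℝ)| * f k ≤ u * u * (k * u) :=
            mul_le_mul (mul_le_mul hβ hcu q2 hu0.le) h1 hf0 (by positivity)
        _ = k * u ^ 3 := by ring
    have h3 : k * u ^ 3 * u = k * y ^ 2 := by rw [hy]; ring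
    have h4 : 0 ≤ (k : ℝ) * u ^ 3 := by positivity
    constructor
    · rw [← h3]
      nlinarith
    · rw [← h3]
      exact mul_le_mul h2 hcu q2 h4
  -- the exceptional sets
  obtain ⟨U, hU⟩ : ∃ U : ℤ, U = ⌊u⌋ := ⟨_, rfl⟩
  have hUu : (U : ℝ) ≤ u := by rw [hU]; exact Int.floor_le u
  have hU0 : 0 ≤ U := by rw [hU]; exact Int.floor_nonneg.2 hu0.le
  obtain ⟨W, hW⟩ : ∃ W : Finset (ℤ × ℤ), W = Icc (-U) U ×ˢ Icc (-U) U := ⟨_, rfl⟩
  have hWmem : ∀ α β : ℤ, (α, β) ∈ W ↔ |(α : ℝ)| ≤ u ∧ |(β : ℝ)| ≤ u := by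
    have h1 : ∀ α : ℤ, α ∈ Icc (-U) U ↔ |(α : ℝ)| ≤ u := by
      intro α
      rw [mem_Icc, abs_le]
      constructor
      · rintro ⟨h1, h2⟩
        have h1' : (-(U : ℝ)) ≤ α := by exact_mod_cast h1
        have h2' : (α : ℝ) ≤ U := by exact_mod_cast h2
        constructor <;> linarith
      · rintro ⟨h1, h2⟩
        have h3 : α ≤ U := by rw [hU]; exact Int.le_floor.2 h2
        have h4 : -α ≤ U := by
          rw [hU]
          apply Int.le_floor.2
          push_cast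
          linarith
        constructor <;> omega
    intro α β
    rw [hW, mem_product, h1, h1]
  have hWc : (W.card : ℝ) ≤ 9 * y := by
    rw [hW, card_product]
    have h1 : ((Icc (-U) U).card : ℝ) ≤ 3 * u := by
      rw [Int.card_Icc]
      have h2 : ((((U + 1 - -U).toNat : ℕ) : ℤ) : ℝ) = 2 * U + 1 := by
        rw [Int.toNat_of_nonneg (by omega)]
        push_cast
        ring
      rw [Int.cast_natCast] at h2
      rw [h2]
      linarith
    push_cast
    calc ((Icc (-U) U).card : ℝ) * ((Icc (-U) U).card : ℝ) ≤ (3 * u) * (3 * u) :=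
          mul_le_mul h1 h1 (Nat.cast_nonneg _) (by positivity)
      _ = 9 * y := by rw [hy]; ring
  obtain ⟨SX, hSX⟩ : ∃ SX : Finset ℕ, SX = (Icc 1 X).filter (fun t => t ∈ S) := ⟨_, rfl⟩
  have hSXc : (SX.card : ℝ) ≤ a * y ^ 3 := by
    rw [hSX]
    refine (hS X hX1).trans ?_
    have h1 : (X : ℝ) ^ θ ≤ a * y ^ 2 := by
      calc (X : ℝ) ^ θ ≤ (x * y ^ 2) ^ θ := Real.rpow_le_rpow (Nat.cast_nonneg _) hXle hθ0
        _ = a * (y ^ 2) ^ θ := by rw [Real.mul_rpow hx0.le (hyp 2).le, ha]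
        _ ≤ a * (y ^ 2) ^ (1 : ℝ) := by
            apply mul_le_mul_of_nonneg_left _ ha0.le
            exact Real.rpow_le_rpow_of_exponent_le (hyp1 2) hθ1
        _ = a * y ^ 2 := by rw [Real.rpow_one]
    have h2 : 0 ≤ (X : ℝ) ^ θ := by positivity
    calc K * (X : ℝ) ^ θ ≤ |K| * (X : ℝ) ^ θ := mul_le_mul_of_nonneg_right (le_abs_self K) h2
      _ ≤ y * (a * y ^ 2) := mul_le_mul (hKu.trans huy) h1 h2 hy0.le
      _ = a * y ^ 3 := by ring
  obtain ⟨V2, hV2⟩ : ∃ V2 : ℕ × (ℤ × ℤ) → Finset ℕ, V2 = fun t =>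
      if A t.2.1 t.2.2 t.1 = 0 then ∅ else (Icc 1 N).filter (fun p : ℕ => 0 < A t.2.1 t.2.2 t.1 * p + B t.2.2 t.1 ∧
        (A t.2.1 t.2.2 t.1 * p + B t.2.2 t.1).toNat ≤ X ∧ (A t.2.1 t.2.2 t.1 * p + B t.2.2 t.1).toNat ∈ S) := ⟨_, rfl⟩
  obtain ⟨V3, hV3⟩ : ∃ V3 : (ℕ × (ℤ × ℤ)) × ℕ → Finset (ℕ × ℕ), V3 = fun t =>
      if A t.1.2.1 t.1.2.2 t.1.1 = 0 ∨ A t.1.2.1 t.1.2.2 t.1.1 * (t.2 - B t.1.2.2 t.1.1 * c) + B t.1.2.2 t.1.1 ^ 2 = 0
      then ∅ else (Icc 1 N ×ˢ Icc 1 N).filter (fun w : ℕ × ℕ =>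
        A t.1.2.1 t.1.2.2 t.1.1 * (w.1 * w.2) + B t.1.2.2 t.1.1 * (w.1 + w.2) + B t.1.2.2 t.1.1 * c = t.2) := ⟨_, rfl⟩
  obtain ⟨T0, hT0⟩ : ∃ T0 : Finset ℕ, T0 = (Icc 1 N).filter (fun m : ℕ => (m : ℝ) < x / y) := ⟨_, rfl⟩
  obtain ⟨T1, hT1⟩ : ∃ T1 : Finset ℕ, T1 = (Icc 1 N).filter (fun m => ∃ t : ℕ, z < t ∧ t ^ 2 ∣ m) := ⟨_, rfl⟩
  obtain ⟨T2, hT2⟩ : ∃ T2 : Finset ℕ, T2 = (Icc 1 ⌊b / y ^ 78⌋₊ ×ˢ W).biUnion (fun t => (V2 t).image
    (fun p => t.1 * p)) := ⟨_, rfl⟩
  obtain ⟨T3, hT3⟩ : ∃ T3 : Finset ℕ, T3 = ((Icc 1 ⌊b / y ^ 98⌋₊ ×ˢ W) ×ˢ SX).biUnion (fun t => (V3 t).image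
    (fun w => t.1.1 * w.1 * w.2)) := ⟨_, rfl⟩
  have hc0 : (T0.card : ℝ) ≤ x / y := by
    have h1 : T0 ⊆ Icc 1 ⌊x / y⌋₊ := by
      intro m hm
      rw [hT0, mem_filter, mem_Icc] at hm
      rw [mem_Icc]
      exact ⟨hm.1.1, Nat.le_floor hm.2.le⟩
    have h2 := card_le_card h1
    rw [Nat.card_Icc, Nat.add_sub_cancel] at h2
    calc (T0.card : ℝ) ≤ (⌊x / y⌋₊ : ℝ) := by exact_mod_cast h2
      _ ≤ x / y := Nat.floor_le (by positivity)
  have hc1 : (T1.card : ℝ) ≤ x / y := by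
    rw [hT1]
    refine (Pool.Agent.N733.AQ.few_sq N z hz1).trans ?_
    rw [← hx]
    exact div_le_div_of_nonneg_left hx0.le hy0 hyz
  have hc2 : (T2.card : ℝ) ≤ x / y := by
    have h1 : ∀ t ∈ (Icc 1 ⌊b / y ^ 78⌋₊ ×ˢ W), ((V2 t).card : ℝ) ≤ a * y ^ 3 := by
      intro t _
      rw [hV2]
      simp only
      split_ifs with h0
      · rw [card_empty, Nat.cast_zero]
        positivity
      · refine le_trans ?_ hSXc
        rw [hSX]
        exact_mod_cast one_prime _ _ h0 S N X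
    have h2 : (T2.card : ℝ) ≤ ∑ t ∈ (Icc 1 ⌊b / y ^ 78⌋₊ ×ˢ W), ((V2 t).card : ℝ) := by
      rw [hT2]
      exact_mod_cast card_biUnion_le.trans (sum_le_sum fun _ _ => card_image_le)
    refine (h2.trans (sum_le_sum h1)).trans ?_
    rw [sum_const, nsmul_eq_mul, card_product, Nat.card_Icc, Nat.add_sub_cancel]
    push_cast
    have h3 : (⌊b / y ^ 78⌋₊ : ℝ) ≤ b / y ^ 78 := Nat.floor_le (by positivity)
    calc (⌊b / y ^ 78⌋₊ : ℝ) * (W.card : ℝ) * (a * y ^ 3) ≤ (b / y ^ 78) * (9 * y) * (a * y ^ 3) := by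
          apply mul_le_mul_of_nonneg_right _ (by positivity)
          exact mul_le_mul h3 hWc (Nat.cast_nonneg _) (by positivity)
      _ = (a * b) * (9 * y ^ 4) / y ^ 78 := by ring
      _ ≤ x / y := by
          rw [hab, div_le_div_iff₀ (hyp 78) hy0]
          have h4 : 9 * y ^ 4 * y ≤ y ^ 78 := by
            calc 9 * y ^ 4 * y ≤ y * y ^ 4 * y := by gcongr; linarith
              _ = y ^ 6 := by ring
              _ ≤ y ^ 78 := hypm 6 78 (by norm_num)
          calc x * (9 * y ^ 4) * y = x * (9 * y ^ 4 * y) := by ring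
            _ ≤ x * y ^ 78 := mul_le_mul_of_nonneg_left h4 hx0.le
  have hc3 : (T3.card : ℝ) ≤ x / y := by
    have h1 : ∀ t ∈ ((Icc 1 ⌊b / y ^ 98⌋₊ ×ˢ W) ×ˢ SX), ((V3 t).card : ℝ) ≤ 2 * y := by
      rintro ⟨⟨k, α, β⟩, n⟩ ht
      rw [mem_product, mem_product, mem_Icc] at ht
      obtain ⟨⟨⟨hk1, hk2⟩, hαβ⟩, hn⟩ := ht
      simp only at hk1 hk2 hαβ hn
      rw [hWmem] at hαβ
      obtain ⟨hα, hβ⟩ := hαβ
      rw [hSX, mem_filter, mem_Icc] at hn
      obtain ⟨⟨hn1, hnX⟩, -⟩ := hn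
      have hk0 : (0 : ℝ) ≤ k := Nat.cast_nonneg _
      have hkb : (k : ℝ) ≤ x := by
        calc (k : ℝ) ≤ (⌊b / y ^ 98⌋₊ : ℝ) := by exact_mod_cast hk2
          _ ≤ b / y ^ 98 := Nat.floor_le (by positivity)
          _ ≤ b := div_le_self hb0.le (hyp1 98)
          _ ≤ x := hbx
      have hkN : k ≤ N := by rw [hx] at hkb; exact_mod_cast hkb
      rw [hV3]
      simp only
      split_ifs with h0
      · rw [card_empty, Nat.cast_zero]
        positivity
      · push Not at h0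
        obtain ⟨h0a, h0b⟩ := h0
        have h2 := bil (A α β k) (B β k) (B β k * c) n h0a h0b
          ((Icc 1 N ×ˢ Icc 1 N).filter (fun w : ℕ × ℕ =>
            A α β k * (w.1 * w.2) + B β k * (w.1 + w.2) + B β k * c = n)) (fun w hw => (mem_filter.1 hw).2)
        obtain ⟨M, hM⟩ : ∃ M : ℤ, M = A α β k * (n - B β k * c) + B β k ^ 2 := ⟨_, rfl⟩
        rw [← hM] at h2 h0b
        have hM1 : 1 ≤ M.natAbs := Int.natAbs_pos.2 h0b
        have hMx : ((M.natAbs : ℕ) : ℝ) ≤ x ^ (3 : ℕ) := by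
          have e0 : ((M.natAbs : ℕ) : ℝ) = |(M : ℝ)| := by
            rw [← Int.cast_natCast, Int.natCast_natAbs, Int.cast_abs]
          have e1 := hAb α β k hα hβ hk1 hkN
          obtain ⟨e2, e3⟩ := hBb β k hβ hk1 hkN
          have e4 : (n : ℝ) ≤ x * y ^ 2 := (by exact_mod_cast hnX : (n : ℝ) ≤ X).trans hXle
          have e5 : (0 : ℝ) ≤ n := Nat.cast_nonneg _
          have e6 : |(n : ℝ) - B β k * c| ≤ 2 * (x * y ^ 2) := by
            calc |(n : ℝ) - B β k * c| ≤ |(n : ℝ)| + |(B β k : ℝ) * c| := abs_sub _ _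
              _ = n + |(B β k : ℝ)| * |(c : ℝ)| := by rw [abs_of_nonneg e5, abs_mul]
              _ ≤ x * y ^ 2 + x * y ^ 2 := add_le_add e4 (e3.trans (mul_le_mul_of_nonneg_right hkb (hyp 2).le))
              _ = _ := by ring
          rw [e0, hM]
          push_cast
          calc |(A α β k : ℝ) * (n - B β k * c) + (B β k : ℝ) ^ 2| ≤
              |(A α β k : ℝ) * (n - B β k * c)| + |(B β k : ℝ) ^ 2| := abs_add_le _ _
            _ = |(A α β k : ℝ)| * |(n : ℝ) - B β k * c| + |(B β k : ℝ)| ^ 2 := by rw [abs_mul, abs_pow]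
            _ ≤ (2 * (x * y)) * (2 * (x * y ^ 2)) + (x * y ^ 2) ^ 2 := by
                apply add_le_add
                · apply mul_le_mul _ e6 (abs_nonneg _) (by positivity)
                  refine e1.trans ?_
                  exact mul_le_mul_of_nonneg_left (mul_le_mul_of_nonneg_right hkb hy0.le) (by norm_num)
                · exact pow_le_pow_left₀ (abs_nonneg _) (e2.trans (mul_le_mul_of_nonneg_right hkb (hyp 2).le)) 2
            _ = x ^ 2 * (4 * y ^ 3 + y ^ 4) := by ring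
            _ ≤ x ^ 2 * x := by
                apply mul_le_mul_of_nonneg_left _ (by positivity)
                calc 4 * y ^ 3 + y ^ 4 ≤ y * y ^ 3 + y ^ 4 := by gcongr; linarith
                  _ = 2 * y ^ 4 := by ring
                  _ ≤ y * y ^ 4 := by gcongr; linarith
                  _ = y ^ 5 := by ring
                  _ ≤ y ^ 100 := hypm 5 100 (by norm_num)
                  _ ≤ x := hyx
            _ = x ^ (3 : ℕ) := by ring
        have hτ : (M.natAbs.divisors.card : ℝ) ≤ y := by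
          calc (M.natAbs.divisors.card : ℝ) ≤ D * ((M.natAbs : ℕ) : ℝ) ^ (ρ / 600) := hD _ hM1
            _ ≤ D * (x ^ (3 : ℕ)) ^ (ρ / 600) := by
                apply mul_le_mul_of_nonneg_left _ hD0.le
                exact Real.rpow_le_rpow (Nat.cast_nonneg _) hMx (by positivity)
            _ = D * u := by
                rw [← Real.rpow_natCast, ← Real.rpow_mul hx0.le, hu]
                congr 2
                push_cast
                ring
            _ ≤ u * u := mul_le_mul_of_nonneg_right hDu hu0.le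
            _ = y := by rw [hy]; ring
        have h3 : (((Icc 1 N ×ˢ Icc 1 N).filter (fun w : ℕ × ℕ =>
            A α β k * (w.1 * w.2) + B β k * (w.1 + w.2) + B β k * c = n)).card : ℝ) ≤
            2 * (M.natAbs.divisors.card : ℝ) := by exact_mod_cast h2
        linarith
    have h2 : (T3.card : ℝ) ≤ ∑ t ∈ ((Icc 1 ⌊b / y ^ 98⌋₊ ×ˢ W) ×ˢ SX), ((V3 t).card : ℝ) := by
      rw [hT3]
      exact_mod_cast card_biUnion_le.trans (sum_le_sum fun _ _ => card_image_le)
    refine (h2.trans (sum_le_sum h1)).trans ?_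
    rw [sum_const, nsmul_eq_mul, card_product, card_product, Nat.card_Icc, Nat.add_sub_cancel]
    push_cast
    have h3 : (⌊b / y ^ 98⌋₊ : ℝ) ≤ b / y ^ 98 := Nat.floor_le (by positivity)
    calc (⌊b / y ^ 98⌋₊ : ℝ) * (W.card : ℝ) * (SX.card : ℝ) * (2 * y) ≤
          (b / y ^ 98) * (9 * y) * (a * y ^ 3) * (2 * y) := by
          apply mul_le_mul_of_nonneg_right _ (by positivity)
          apply mul_le_mul _ hSXc (Nat.cast_nonneg _) (by positivity)
          exact mul_le_mul h3 hWc (Nat.cast_nonneg _) (by positivity)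
      _ = (a * b) * (18 * y ^ 5) / y ^ 98 := by ring
      _ ≤ x / y := by
          rw [hab, div_le_div_iff₀ (hyp 98) hy0]
          have h4 : 18 * y ^ 5 * y ≤ y ^ 98 := by
            calc 18 * y ^ 5 * y ≤ (y * y) * y ^ 5 * y := by gcongr; nlinarith
              _ = y ^ 8 := by ring
              _ ≤ y ^ 98 := hypm 8 98 (by norm_num)
          calc x * (18 * y ^ 5) * y = x * (18 * y ^ 5 * y) := by ring
            _ ≤ x * y ^ 98 := mul_le_mul_of_nonneg_left h4 hx0.le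
  have hsub : (Icc 1 N).filter (fun m => LargePair (θ + ρ) m ∧ ∃ α β : ℤ, |(α : ℝ)| ≤ u ∧
      |(β : ℝ)| ≤ u ∧ x ^ (1 - ρ / 200) ≤ ((α * m + β * f m : ℤ) : ℝ) ∧ (α * m + β * f m).toNat ∈ S) ⊆
      ((T0 ∪ T1) ∪ T2) ∪ T3 := by
    intro m hm
    rw [mem_filter, mem_Icc] at hm
    obtain ⟨⟨hm1, hmN⟩, ⟨p, v, hp, hv, hpvm, hpvb⟩, α, β, hα, hβ, hlow, hgS⟩ := hm
    rw [mem_union, mem_union, mem_union]
    by_cases h0 : (m : ℝ) < x / y
    · left; left; left
      rw [hT0, mem_filter, mem_Icc]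
      exact ⟨⟨hm1, hmN⟩, h0⟩
    by_cases h1 : ∃ t : ℕ, z < t ∧ t ^ 2 ∣ m
    · left; left; right
      rw [hT1, mem_filter, mem_Icc]
      exact ⟨⟨hm1, hmN⟩, h1⟩
    push Not at h0 h1
    have hm0 : (0 : ℝ) < m := by exact_mod_cast hm1
    have hmx : (m : ℝ) ≤ x := by rw [hx]; exact_mod_cast hmN
    have hpv : a * y ^ 98 ≤ (p : ℝ) * v := by
      refine le_trans ?_ hpvb
      have e1 : y ^ (θ + ρ) ≤ y ^ 2 := by
        rw [← Real.rpow_natCast y 2]
        exact Real.rpow_le_rpow_of_exponent_le hy1 (by push_cast; linarith)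
      have e2 : 0 < y ^ (θ + ρ) := by positivity
      calc a * y ^ 98 = a * y ^ 100 / y ^ 2 := by
            rw [eq_div_iff (hyp 2).ne']
            ring
        _ ≤ a * y ^ 100 / y ^ (θ + ρ) := div_le_div_of_nonneg_left (by positivity) e2 e1
        _ = (x / y) ^ (θ + ρ) := by
            rw [Real.div_rpow hx0.le hy0.le, Real.rpow_add hx0 θ ρ, ← ha, ← hy100]
        _ ≤ (m : ℝ) ^ (θ + ρ) := Real.rpow_le_rpow (by positivity) h0 (by linarith)
    have hprime : ∀ q : ℕ, q.Prime → y ≤ q → (f q : ℤ) = q + c := by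
      intro q hq hyq
      apply hP q _ hq
      have : (P : ℝ) ≤ q := by linarith
      exact_mod_cast this
    obtain ⟨g, hg⟩ : ∃ g : ℤ, g = α * m + β * f m := ⟨_, rfl⟩
    rw [← hg] at hlow hgS
    rw [hxu] at hlow
    have hgx : (g : ℝ) ≤ x * y ^ 2 := by
      have e1 := hAb α β m hα hβ hm1 hmN
      have e2 : (g : ℝ) = ((A α β m : ℤ) : ℝ) := by rw [hg, hA]
      rw [e2]
      calc ((A α β m : ℤ) : ℝ) ≤ |((A α β m : ℤ) : ℝ)| := le_abs_self _
        _ ≤ 2 * (m * y) := e1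
        _ ≤ y * (x * y) := by gcongr; linarith
        _ = x * y ^ 2 := by ring
    have hxu0 : 0 < x / u := by positivity
    have hg0 : 0 < g := by
      have : (0 : ℝ) < g := by linarith
      exact_mod_cast this
    have hgn : (g.toNat : ℤ) = g := Int.toNat_of_nonneg hg0.le
    have hgX : g.toNat ≤ X := by
      rw [hX]
      apply Nat.le_floor
      have : ((g.toNat : ℕ) : ℝ) = g := by exact_mod_cast hgn
      rw [this]
      exact hgx
    have hglow : x / y ≤ g := le_trans (div_le_div_of_nonneg_left hx0.le hu0 huy) hlow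
    have h2078 : y ^ 20 < y ^ 78 := pow_lt_pow_right₀ (by linarith) (by norm_num)
    -- one prime
    have one : ∀ q : ℕ, q.Prime → q ∣ m → a * y ^ 78 ≤ q → m ∈ T2 := by
      intro q hq hqm hqb
      have hyq : y ^ 78 ≤ q := le_trans (le_mul_of_one_le_left (hyp 78).le ha1) hqb
      have hzq : z < q := by
        have : (z : ℝ) < q := by linarith
        exact_mod_cast this
      have hyq1 : y ≤ q := by
        refine le_trans ?_ hyq
        calc y = y ^ 1 := (pow_one y).symm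
          _ ≤ y ^ 78 := hypm 1 78 (by norm_num)
      obtain ⟨e1, e2⟩ := split hq hqm (h1 q hzq)
      obtain ⟨k, hk⟩ : ∃ k, k = m / q := ⟨_, rfl⟩
      rw [← hk] at e1 e2
      have hk1 : 1 ≤ k := by
        rcases Nat.eq_zero_or_pos k with h | h
        · rw [h, zero_mul] at e1; omega
        · exact h
      have hk0 : (0 : ℝ) < k := by exact_mod_cast hk1
      have hq0 : (0 : ℝ) < q := by exact_mod_cast hq.pos
      have hkq : (k : ℝ) * q = m := by
        rw [e1]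
        push_cast
        ring
      have hfm : (f m : ℤ) = f k * (q + c) := by
        rw [e1, hf.mul k q e2]
        push_cast
        rw [hprime q hq hyq1]
      have hmz : (m : ℤ) = k * q := by
        rw [e1]
        push_cast
        ring
      have hgk : g = A α β k * q + B β k := by
        rw [hg, hfm, hA, hB, hmz]
        ring
      have hkb : (k : ℝ) ≤ b / y ^ 78 := by
        rw [le_div_iff₀ (hyp 78)]
        apply le_of_mul_le_mul_left _ ha0
        calc a * ((k : ℝ) * y ^ 78) = (k : ℝ) * (a * y ^ 78) := by ring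
          _ ≤ (k : ℝ) * q := mul_le_mul_of_nonneg_left hqb hk0.le
          _ ≤ a * b := by rw [hkq, hab]; exact hmx
      have hkN : k ≤ N := by
        have : k ≤ m := by rw [e1]; exact Nat.le_mul_of_pos_right _ hq.pos
        omega
      have hqN : q ≤ N := by
        have : q ≤ m := Nat.le_of_dvd (by omega) hqm
        omega
      have hA0 : A α β k ≠ 0 := by
        intro h3
        rw [h3, zero_mul, zero_add] at hgk
        have e3 := (hBb β k hβ hk1 hkN).1
        have e4 : (g : ℝ) ≤ k * y ^ 2 := by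
          rw [hgk]
          exact (le_abs_self _).trans e3
        have e5 : (k : ℝ) * y ^ 2 * y < x := by
          calc (k : ℝ) * y ^ 2 * y ≤ (b / y ^ 78) * y ^ 2 * y := by gcongr
            _ = b * (y ^ 3 / y ^ 78) := by ring
            _ < b * 1 := by
                apply mul_lt_mul_of_pos_left _ hb0
                rw [div_lt_one (hyp 78)]
                exact pow_lt_pow_right₀ (by linarith) (by norm_num)
            _ ≤ x := by rw [mul_one]; exact hbx
        have e6 : x ≤ g * y := by rwa [div_le_iff₀ hy0] at hglow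
        have e7 : (g : ℝ) * y ≤ k * y ^ 2 * y := mul_le_mul_of_nonneg_right e4 hy0.le
        linarith
      rw [hT2, mem_biUnion]
      refine ⟨(k, α, β), ?_, ?_⟩
      · rw [mem_product, mem_Icc, hWmem]
        exact ⟨⟨hk1, Nat.le_floor hkb⟩, hα, hβ⟩
      · rw [mem_image]
        refine ⟨q, ?_, e1.symm⟩
        rw [hV2]
        simp only
        rw [if_neg hA0, mem_filter, mem_Icc, ← hgk]
        exact ⟨⟨hq.one_le, hqN⟩, hg0, hgX, hgS⟩
    rcases le_or_gt v z with hvz | hvz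
    · left; right
      refine one p hp (dvd_trans (Dvd.intro _ rfl) hpvm) ?_
      have hv20 : (v : ℝ) ≤ y ^ 20 := le_trans (by exact_mod_cast hvz) hzy
      apply le_of_mul_le_mul_right _ (hyp 20)
      calc a * y ^ 78 * y ^ 20 = a * y ^ 98 := by ring
        _ ≤ (p : ℝ) * v := hpv
        _ ≤ (p : ℝ) * y ^ 20 := mul_le_mul_of_nonneg_left hv20 (Nat.cast_nonneg _)
    obtain ⟨hvp, hne⟩ : v.Prime ∧ v ≠ p := hv.resolve_left (by omega)
    rcases le_or_gt p z with hpz | hpz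
    · left; right
      refine one v hvp (dvd_trans (Dvd.intro_left _ rfl) hpvm) ?_
      have hv20 : (p : ℝ) ≤ y ^ 20 := le_trans (by exact_mod_cast hpz) hzy
      apply le_of_mul_le_mul_right _ (hyp 20)
      calc a * y ^ 78 * y ^ 20 = a * y ^ 98 := by ring
        _ ≤ (p : ℝ) * v := hpv
        _ = (v : ℝ) * p := mul_comm _ _
        _ ≤ (v : ℝ) * y ^ 20 := mul_le_mul_of_nonneg_left hv20 (Nat.cast_nonneg _)
    · right
      obtain ⟨k, hk⟩ := hpvm
      have hk1 : 1 ≤ k := by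
        rcases Nat.eq_zero_or_pos k with h | h
        · rw [h, mul_zero] at hk; omega
        · exact h
      have hk0 : (0 : ℝ) < k := by exact_mod_cast hk1
      have hp0 : (0 : ℝ) < p := by exact_mod_cast hp.pos
      have hv0 : (0 : ℝ) < v := by exact_mod_cast hvp.pos
      have hpk : ¬ p ∣ k := by
        rintro ⟨t, ht⟩
        exact h1 p hpz ⟨v * t, by rw [hk, ht]; ring⟩
      have hvk : ¬ v ∣ k := by
        rintro ⟨t, ht⟩
        exact h1 v hvz ⟨p * t, by rw [hk, ht]; ring⟩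
      have c1 : Nat.Coprime k v := (hvp.coprime_iff_not_dvd.2 hvk).symm
      have c2 : Nat.Coprime (k * v) p := by
        apply Nat.Coprime.symm
        rw [hp.coprime_iff_not_dvd]
        intro h
        rcases hp.dvd_mul.1 h with h | h
        · exact hpk h
        · exact hne ((Nat.prime_dvd_prime_iff_eq hp hvp).1 h).symm
      have hmk : m = k * v * p := by rw [hk]; ring
      have hzp' : (z : ℝ) + 1 ≤ p := by exact_mod_cast hpz
      have hzv' : (z : ℝ) + 1 ≤ v := by exact_mod_cast hvz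
      have hfm : (f m : ℤ) = f k * (v + c) * (p + c) := by
        rw [hmk, hf.mul _ _ c2, hf.mul _ _ c1]
        push_cast
        rw [hprime v hvp (by linarith), hprime p hp (by linarith)]
      have hmz : (m : ℤ) = k * v * p := by
        rw [hmk]
        push_cast
        ring
      have hmr : (k : ℝ) * v * p = m := by
        rw [hmk]
        push_cast
        ring
      have hgk : g = A α β k * (v * p) + B β k * (v + p) + B β k * c := by
        rw [hg, hfm, hA, hB, hmz]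
        ring
      have hkb : (k : ℝ) ≤ b / y ^ 98 := by
        rw [le_div_iff₀ (hyp 98)]
        apply le_of_mul_le_mul_left _ ha0
        calc a * ((k : ℝ) * y ^ 98) = (k : ℝ) * (a * y ^ 98) := by ring
          _ ≤ (k : ℝ) * ((p : ℝ) * v) := mul_le_mul_of_nonneg_left hpv hk0.le
          _ = (k : ℝ) * v * p := by ring
          _ ≤ a * b := by rw [hmr, hab]; exact hmx
      have hkN : k ≤ N := by
        have : k ≤ m := by rw [hk]; exact Nat.le_mul_of_pos_left _ (Nat.mul_pos hp.pos hvp.pos)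
        omega
      have hpN : p ≤ N := by
        have : p ≤ m := Nat.le_of_dvd (by omega) ⟨v * k, by rw [hk]; ring⟩
        omega
      have hvN : v ≤ N := by
        have : v ≤ m := Nat.le_of_dvd (by omega) ⟨p * k, by rw [hk]; ring⟩
        omega
      have hkv : (k : ℝ) * v ≤ x / y ^ 20 := by
        rw [le_div_iff₀ (hyp 20)]
        calc (k : ℝ) * v * y ^ 20 ≤ k * v * p := by gcongr; linarith
          _ ≤ x := by rw [hmr]; exact hmx
      have hkp : (k : ℝ) * p ≤ x / y ^ 20 := by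
        rw [le_div_iff₀ (hyp 20)]
        calc (k : ℝ) * p * y ^ 20 ≤ k * p * v := by gcongr; linarith
          _ = k * v * p := by ring
          _ ≤ x := by rw [hmr]; exact hmx
      obtain ⟨e2, e3⟩ := hBb β k hβ hk1 hkN
      have h18 : (x / y ^ 20) * y ^ 2 = x / y ^ 18 := by
        rw [div_mul_eq_mul_div, div_eq_div_iff (hyp 20).ne' (hyp 18).ne']
        ring
      have s1 : |((B β k : ℤ) : ℝ)| * v ≤ x / y ^ 18 := by
        rw [← h18]
        calc |((B β k : ℤ) : ℝ)| * v ≤ (k * y ^ 2) * v := mul_le_mul_of_nonneg_right e2 hv0.le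
          _ = (k * v) * y ^ 2 := by ring
          _ ≤ (x / y ^ 20) * y ^ 2 := mul_le_mul_of_nonneg_right hkv (hyp 2).le
      have s2 : |((B β k : ℤ) : ℝ)| * p ≤ x / y ^ 18 := by
        rw [← h18]
        calc |((B β k : ℤ) : ℝ)| * p ≤ (k * y ^ 2) * p := mul_le_mul_of_nonneg_right e2 hp0.le
          _ = (k * p) * y ^ 2 := by ring
          _ ≤ (x / y ^ 20) * y ^ 2 := mul_le_mul_of_nonneg_right hkp (hyp 2).le
      have s3 : |((B β k : ℤ) : ℝ)| * |(c : ℝ)| ≤ x / y ^ 18 := by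
        rw [← h18]
        refine e3.trans ?_
        apply mul_le_mul_of_nonneg_right _ (hyp 2).le
        refine le_trans ?_ hkv
        have : (1 : ℝ) ≤ v := by exact_mod_cast hvp.one_le
        nlinarith
      have hbig : 3 * (x / y ^ 18) < x / y := by
        have e4 : x / y = (x / y ^ 18) * y ^ 17 := by
          rw [div_mul_eq_mul_div, div_eq_div_iff hy0.ne' (hyp 18).ne']
          ring
        rw [e4, mul_comm]
        apply mul_lt_mul_of_pos_left _ (by positivity)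
        calc (3 : ℝ) < y := by linarith
          _ = y ^ 1 := (pow_one y).symm
          _ ≤ y ^ 17 := hypm 1 17 (by norm_num)
      have b1 : ((B β k : ℤ) : ℝ) * v ≤ x / y ^ 18 :=
        le_trans (mul_le_mul_of_nonneg_right (le_abs_self _) hv0.le) s1
      have b2 : ((B β k : ℤ) : ℝ) * p ≤ x / y ^ 18 :=
        le_trans (mul_le_mul_of_nonneg_right (le_abs_self _) hp0.le) s2
      have b3 : ((B β k : ℤ) : ℝ) * c ≤ x / y ^ 18 := by
        refine le_trans (le_abs_self _) ?_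
        rw [abs_mul]
        exact s3
      have hx18 : 0 < x / y ^ 18 := by positivity
      have hA0 : A α β k ≠ 0 := by
        intro h3
        rw [h3, zero_mul, zero_add] at hgk
        have e4 : (g : ℝ) = (B β k : ℤ) * v + (B β k : ℤ) * p + (B β k : ℤ) * c := by
          rw [hgk]
          push_cast
          ring
        linarith
      have hM0 : A α β k * (g - B β k * c) + B β k ^ 2 ≠ 0 := by
        intro h3
        have h4 : (A α β k * v + B β k) * (A α β k * p + B β k) = 0 := by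
          rw [← h3, hgk]
          ring
        rcases mul_eq_zero.1 h4 with h5 | h5
        · have h6 : g = B β k * v + B β k * c := by
            rw [hgk]
            linear_combination (p : ℤ) * h5
          have e4 : (g : ℝ) = (B β k : ℤ) * v + (B β k : ℤ) * c := by
            rw [h6]
            push_cast
            ring
          linarith
        · have h6 : g = B β k * p + B β k * c := by
            rw [hgk]
            linear_combination (v : ℤ) * h5
          have e4 : (g : ℝ) = (B β k : ℤ) * p + (B β k : ℤ) * c := by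
            rw [h6]
            push_cast
            ring
          linarith
      rw [hT3, mem_biUnion]
      refine ⟨((k, α, β), g.toNat), ?_, ?_⟩
      · rw [mem_product, mem_product, mem_Icc, hWmem, hSX, mem_filter, mem_Icc]
        refine ⟨⟨⟨hk1, Nat.le_floor hkb⟩, hα, hβ⟩, ⟨?_, hgX⟩, hgS⟩
        omega
      · rw [mem_image]
        refine ⟨(v, p), ?_, hmk.symm⟩
        rw [hV3]
        simp only
        rw [hgn, if_neg (by push Not; exact ⟨hA0, hM0⟩), mem_filter, mem_product, mem_Icc, mem_Icc]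
        exact ⟨⟨⟨hvp.one_le, hvN⟩, hp.one_le, hpN⟩, hgk.symm⟩
  have hfin := card_le_card hsub
  have h1 : ((((T0 ∪ T1) ∪ T2) ∪ T3).card : ℝ) ≤ T0.card + T1.card + T2.card + T3.card := by
    have a1 := card_union_le ((T0 ∪ T1) ∪ T2) T3
    have a2 := card_union_le (T0 ∪ T1) T2
    have a3 := card_union_le T0 T1
    exact_mod_cast (by omega : (((T0 ∪ T1) ∪ T2) ∪ T3).card ≤ T0.card + T1.card + T2.card + T3.card)
  have h2 : (4 : ℝ) * (x / y) ≤ x / u := by
    have e1 : x / u = (x / y) * u := by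
      rw [hy]
      field_simp
    rw [e1, mul_comm]
    exact mul_le_mul_of_nonneg_left hu4 (by positivity)
  calc _ ≤ ((((T0 ∪ T1) ∪ T2) ∪ T3).card : ℝ) := by exact_mod_cast hfin
    _ ≤ 4 * (x / y) := by linarith
    _ ≤ x / u := h2
    _ = x ^ (1 - ρ / 200) := hxu.symm

end Pool.Agent.U365.POW
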