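import Pool.Agent.U365.POW.C

set_option autoImplicit false

/-! Short names for the conclusions, and the case of sets of natural numbers. -/

namespace Pool.Agent.U365.POW

open Finset Filter Topology Pool.Agent.U365.AQG Pool.Agent.N733.TG

open Classical in
/-- The property `Q` holds for the values of similar functions as the aliquot sum. (1) Let `f` be a positive multiplicative
function with `f m ≤ m (1 + log m)^C` and `f p = p + c` for the large primes `p`. There is `δ > 0` such that for all large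
`N`, for all `m ≤ N` but at most `N^(1-δ)`: if `m` has a divisor `≥ m^τ` which is a prime or the product of two different
primes, then `g = α m + β f(m)` has the property `Q` for ALL integers `α, β` with `|α|, |β| ≤ N^δ` and `g ≥ N^(1-δ)`. (2) For
almost all `m`: if `m` has such a divisor, then `s(m)` and `m - φ(m)` have the property `Q`. -/
def Values (τ : ℝ) (Q : ℕ → Prop) : Prop :=
  (∀ f : ℕ → ℕ, ∀ c : ℤ, Moderate f c → ∃ δ : ℝ, 0 < δ ∧ ∃ N₀ : ℕ, ∀ N : ℕ, N₀ ≤ N →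
      (((Icc 1 N).filter (fun m => ¬ (LargePair τ m → ∀ α β : ℤ, |(α : ℝ)| ≤ (N : ℝ) ^ δ →
        |(β : ℝ)| ≤ (N : ℝ) ^ δ → (N : ℝ) ^ (1 - δ) ≤ ((α * m + β * f m : ℤ) : ℝ) →
        Q (α * m + β * f m).toNat))).card : ℝ) ≤ (N : ℝ) ^ (1 - δ)) ∧
    AlmostAll (fun m => LargePair τ m → Q (aliquot m) ∧ Q (m - Nat.totient m))

open Classical in
/-- The set of the `m` such that `s(m)` and `m - φ(m)` both have the property `Q` has lower density at least `θ`. -/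
def Dens (θ : ℝ) (Q : ℕ → Prop) : Prop :=
  ∀ δ : ℝ, δ < θ → ∃ N₀ : ℕ, ∀ N : ℕ, N₀ ≤ N → δ * N ≤
      (((Icc 1 N).filter (fun m => Q (aliquot m) ∧ Q (m - Nat.totient m))).card : ℝ)

theorem values_mono {τ : ℝ} {Q Q' : ℕ → Prop} (h : Values τ Q) (hQ : ∀ n, Q n → Q' n) : Values τ Q' := by
  obtain ⟨h1, h2⟩ := h
  refine ⟨fun f c hf => ?_, almostAll_and h2 h2 0 (fun m _ a _ hL => ⟨hQ _ (a hL).1, hQ _ (a hL).2⟩)⟩
  obtain ⟨δ, hδ, N₀, hN₀⟩ := h1 f c hf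
  refine ⟨δ, hδ, N₀, fun N hN => ?_⟩
  refine le_trans (Nat.cast_le.2 (card_mono' (fun m hm => ?_))) (hN₀ N hN)
  exact fun hc => hm (fun hL α β a b c => hQ _ (hc hL α β a b c))

theorem dens_mono {θ θ' : ℝ} {Q Q' : ℕ → Prop} (h : Dens θ Q) (hθ : θ' ≤ θ) (hQ : ∀ n, Q n → Q' n) : Dens θ' Q' := by
  intro δ hδ
  obtain ⟨N₀, hN₀⟩ := h δ (lt_of_lt_of_le hδ hθ)
  refine ⟨N₀, fun N hN => (hN₀ N hN).trans ?_⟩
  exact Nat.cast_le.2 (card_mono' (fun m hm => ⟨hQ _ hm.1, hQ _ hm.2⟩))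

theorem values_of {T : Type*} (Adm Good : T → Prop) (h : T → ℝ) {G : ℕ → ℝ} {d : ℝ}
    (hG : Expanding G d) {s κ : ℝ} (hs : 0 ≤ s) (hκ : 0 ≤ κ) (h1 : d * s + κ < 1)
    (hS : ∀ ε : ℝ, 0 < ε → ∃ C : ℝ, ∀ X : ℝ, 1 ≤ X →
      {t | (Adm t ∧ ¬ Good t) ∧ h t ≤ X}.Finite ∧ ({t | (Adm t ∧ ¬ Good t) ∧ h t ≤ X}.ncard : ℝ) ≤ C * X ^ (s + ε)) :
    (∀ ρ : ℝ, 0 < ρ → Values (d * s + κ + ρ) (NearAll Adm Good h G κ)) ∧
      Dens (1 - (d * s + κ)) (NearAll Adm Good h G κ) :=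
  main Adm Good h hG hs hκ h1 hS

open Classical in
/-- sets of natural numbers -/
theorem values_nat (P : Set ℕ) {G : ℕ → ℝ} {d : ℝ}
    (hG : Expanding G d) {s κ : ℝ} (hs : 0 ≤ s) (hκ : 0 ≤ κ) (h1 : d * s + κ < 1)
    (hP : ∀ ε : ℝ, 0 < ε → ∃ C : ℝ, ∀ X : ℕ, 1 ≤ X →
      (((Ioc 0 X).filter (fun t => t ∈ P)).card : ℝ) ≤ C * (X : ℝ) ^ (s + ε)) :
    (∀ ρ : ℝ, 0 < ρ → Values (d * s + κ + ρ) (fun g => ∀ n : ℕ, |(n : ℝ) - G g| ≤ (g : ℝ) ^ κ → 1 ≤ n ∧ n ∉ P)) ∧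
      Dens (1 - (d * s + κ)) (fun g => ∀ n : ℕ, |(n : ℝ) - G g| ≤ (g : ℝ) ^ κ → 1 ≤ n ∧ n ∉ P) := by
  obtain ⟨a, b⟩ := values_of (fun _ : ℕ => True) (fun n => 1 ≤ n ∧ n ∉ P) (fun n => (n : ℝ)) hG hs hκ h1 (by
    intro ε hε
    obtain ⟨C, hC⟩ := hP ε hε
    refine ⟨|C| + 1, fun X hX => ?_⟩
    have hX1 : 1 ≤ ⌊X⌋₊ := Nat.le_floor (by exact_mod_cast hX)
    have hsub : {t : ℕ | (True ∧ ¬ (1 ≤ t ∧ t ∉ P)) ∧ (t : ℝ) ≤ X} ⊆
        (((Ioc 0 ⌊X⌋₊).filter (fun t => t ∈ P) ∪ {0} : Finset ℕ) : Set ℕ) := by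
      rintro t ⟨⟨-, ht⟩, htX⟩
      rw [mem_coe, mem_union, mem_filter, mem_Ioc, mem_singleton]
      rcases Nat.eq_zero_or_pos t with h0 | h0
      · right; exact h0
      · left
        refine ⟨⟨h0, Nat.le_floor htX⟩, ?_⟩
        by_contra h
        exact ht ⟨h0, h⟩
    refine ⟨(finite_toSet _).subset hsub, ?_⟩
    have h2 := Set.ncard_le_ncard hsub (finite_toSet _)
    rw [Set.ncard_coe_finset] at h2
    have h3 : ((Ioc 0 ⌊X⌋₊).filter (fun t => t ∈ P) ∪ {0} : Finset ℕ).card ≤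
        ((Ioc 0 ⌊X⌋₊).filter (fun t => t ∈ P)).card + 1 := (card_union_le _ _).trans (by simp)
    have h4 : (({t : ℕ | (True ∧ ¬ (1 ≤ t ∧ t ∉ P)) ∧ (t : ℝ) ≤ X}.ncard : ℕ) : ℝ) ≤
        (((Ioc 0 ⌊X⌋₊).filter (fun t => t ∈ P)).card : ℝ) + 1 := by exact_mod_cast h2.trans h3
    have h5 : (1 : ℝ) ≤ X ^ (s + ε) := Real.one_le_rpow hX (by linarith)
    have h6 : ((⌊X⌋₊ : ℕ) : ℝ) ^ (s + ε) ≤ X ^ (s + ε) :=
      Real.rpow_le_rpow (Nat.cast_nonneg _) (Nat.floor_le (by linarith)) (by linarith)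
    calc _ ≤ (((Ioc 0 ⌊X⌋₊).filter (fun t => t ∈ P)).card : ℝ) + 1 := h4
      _ ≤ C * ((⌊X⌋₊ : ℕ) : ℝ) ^ (s + ε) + 1 := by linarith [hC _ hX1]
      _ ≤ |C| * X ^ (s + ε) + 1 * X ^ (s + ε) := by
        have h7 : C * ((⌊X⌋₊ : ℕ) : ℝ) ^ (s + ε) ≤ |C| * X ^ (s + ε) :=
          (mul_le_mul_of_nonneg_right (le_abs_self _) (by positivity)).trans
            (mul_le_mul_of_nonneg_left h6 (abs_nonneg _))
        linarith
      _ = (|C| + 1) * X ^ (s + ε) := by ring)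
  exact ⟨fun ρ hρ => values_mono (a ρ hρ) (fun g h n hn => h n trivial hn),
    dens_mono b le_rfl (fun g h n hn => h n trivial hn)⟩

end Pool.Agent.U365.POW
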