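import Pool.Agent.U365.POW.D

set_option autoImplicit false

/-! Two convenient forms. -/

namespace Pool.Agent.U365.POW

open Finset Filter Topology Pool.Agent.U365.AQG Pool.Agent.N733.TG

theorem values_good_nat (Adm Good : ℕ → Prop) {G : ℕ → ℝ} {d : ℝ}
    (hG : Expanding G d) {s κ : ℝ} (hs : 0 ≤ s) (hκ : 0 ≤ κ) (h1 : d * s + κ < 1)
    (hP : ∀ ε : ℝ, 0 < ε → ∃ C : ℝ, ∀ X : ℕ, 1 ≤ X →
      ({t : ℕ | 1 ≤ t ∧ t ≤ X ∧ Adm t ∧ ¬ Good t}.ncard : ℝ) ≤ C * (X : ℝ) ^ (s + ε)) :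
    (∀ ρ : ℝ, 0 < ρ → Values (d * s + κ + ρ)
      (fun g => ∀ n : ℕ, 1 ≤ n → Adm n → |(n : ℝ) - G g| ≤ (g : ℝ) ^ κ → Good n)) ∧
      Dens (1 - (d * s + κ)) (fun g => ∀ n : ℕ, 1 ≤ n → Adm n → |(n : ℝ) - G g| ≤ (g : ℝ) ^ κ → Good n) := by
  classical
  obtain ⟨a, b⟩ := values_nat {t | Adm t ∧ ¬ Good t} hG hs hκ h1 (fun ε hε => by
    obtain ⟨C, hC⟩ := hP ε hε
    refine ⟨C, fun X hX => le_trans (le_of_eq ?_) (hC X hX)⟩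
    congr 1
    rw [← Set.ncard_coe_finset]
    congr 1
    ext t
    simp only [coe_filter, mem_Ioc, Set.mem_ofPred_eq]
    constructor
    · rintro ⟨⟨a1, a2⟩, a3⟩
      exact ⟨a1, a2, a3⟩
    · rintro ⟨a1, a2, a3⟩
      exact ⟨⟨a1, a2⟩, a3⟩)
  have hm : ∀ g : ℕ, (∀ n : ℕ, |(n : ℝ) - G g| ≤ (g : ℝ) ^ κ → 1 ≤ n ∧ n ∉ {t | Adm t ∧ ¬ Good t}) →
      ∀ n : ℕ, 1 ≤ n → Adm n → |(n : ℝ) - G g| ≤ (g : ℝ) ^ κ → Good n := by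
    intro g hg n _ hn hw
    by_contra hno
    exact (hg n hw).2 ⟨hn, hno⟩
  exact ⟨fun ρ hρ => values_mono (a ρ hρ) hm, dens_mono b le_rfl hm⟩

theorem values_set {T : Type*} (S : Set T) (h : T → ℝ) {G : ℕ → ℝ} {d : ℝ}
    (hG : Expanding G d) {s κ : ℝ} (hs : 0 ≤ s) (hκ : 0 ≤ κ) (h1 : d * s + κ < 1)
    (hS : ∀ ε : ℝ, 0 < ε → ∃ C : ℝ, ∀ X : ℝ, 1 ≤ X →
      {t | t ∈ S ∧ h t ≤ X}.Finite ∧ ({t | t ∈ S ∧ h t ≤ X}.ncard : ℝ) ≤ C * X ^ (s + ε)) :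
    (∀ ρ : ℝ, 0 < ρ → Values (d * s + κ + ρ) (fun g => ∀ t : T, |h t - G g| ≤ (g : ℝ) ^ κ → t ∉ S)) ∧
      Dens (1 - (d * s + κ)) (fun g => ∀ t : T, |h t - G g| ≤ (g : ℝ) ^ κ → t ∉ S) := by
  obtain ⟨a, b⟩ := values_of (fun t : T => t ∈ S) (fun _ => False) h hG hs hκ h1 (fun ε hε => by
      obtain ⟨C, hC⟩ := hS ε hε
      refine ⟨C, fun X hX => ?_⟩
      have he : {t : T | (t ∈ S ∧ ¬ False) ∧ h t ≤ X} = {t : T | t ∈ S ∧ h t ≤ X} := by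
        ext t
        simp
      rw [he]
      exact hC X hX)
  exact ⟨fun ρ hρ => values_mono (a ρ hρ) (fun g hg t hw ht => hg t ht hw),
    dens_mono b le_rfl (fun g hg t hw ht => hg t ht hw)⟩

end Pool.Agent.U365.POW
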