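import Pool.Agent.U365.POW.E
import Pool.Agent.N733.TG.F

set_option autoImplicit false

/-! Tools for the second method (congruences modulo `f(D)`, and short intervals). -/

namespace Pool.Agent.U365.POW

open Finset Filter Topology Pool.Agent.U365.AQG Pool.Agent.N733.TG

/-! ### products -/

lemma one_add_pow_sub (x : ℝ) (hx0 : 0 ≤ x) (hx1 : x ≤ 1) (k : ℕ) : (1 + x) ^ k - 1 ≤ 2 ^ k * x := by
  induction k with
  | zero => simp [hx0]
  | succ k ih =>
    have h1 : (1 + x) ^ k ≤ 2 ^ k := pow_le_pow_left₀ (by linarith) (by linarith) k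
    have h2 : 0 ≤ (1 + x) ^ k := by positivity
    calc (1 + x) ^ (k + 1) - 1 = ((1 + x) ^ k - 1) + x * (1 + x) ^ k := by ring
      _ ≤ 2 ^ k * x + x * 2 ^ k := add_le_add ih (mul_le_mul_of_nonneg_left h1 hx0)
      _ = 2 ^ (k + 1) * x := by ring

lemma prod_close (s : Finset ℕ) (c q x : ℝ) (hq : 0 < q) (hs : ∀ p ∈ s, q ≤ p) (hx : |c| ≤ x * q) (hx0 : 0 ≤ x) :
    |∏ p ∈ s, ((p : ℝ) + c) - ∏ p ∈ s, (p : ℝ)| ≤ (∏ p ∈ s, (p : ℝ)) * ((1 + x) ^ s.card - 1) ∧
      |∏ p ∈ s, ((p : ℝ) + c)| ≤ (∏ p ∈ s, (p : ℝ)) * (1 + x) ^ s.card := by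
  induction s using Finset.induction_on with
  | empty => simp
  | insert a s ha ih =>
    obtain ⟨h1, h2⟩ := ih (fun p hp => hs p (mem_insert_of_mem hp))
    have haq := hs a (mem_insert_self _ _)
    have ha0 : (0 : ℝ) < a := lt_of_lt_of_le hq haq
    have hca : |c| ≤ x * a := hx.trans (mul_le_mul_of_nonneg_left haq hx0)
    have hP : (0 : ℝ) ≤ ∏ p ∈ s, (p : ℝ) := prod_nonneg (fun p _ => Nat.cast_nonneg p)
    obtain ⟨P, hPd⟩ : ∃ P : ℝ, P = ∏ p ∈ s, (p : ℝ) := ⟨_, rfl⟩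
    obtain ⟨F, hFd⟩ : ∃ F : ℝ, F = ∏ p ∈ s, ((p : ℝ) + c) := ⟨_, rfl⟩
    rw [← hPd] at h1 h2 hP
    rw [← hFd] at h1 h2
    rw [prod_insert ha, prod_insert ha, card_insert_of_notMem ha, ← hPd, ← hFd]
    have hpow : 0 ≤ (1 + x) ^ s.card := by positivity
    constructor
    · calc |((a : ℝ) + c) * F - a * P| = |a * (F - P) + c * F| := by ring_nf
        _ ≤ |a * (F - P)| + |c * F| := abs_add_le _ _
        _ = a * |F - P| + |c| * |F| := by rw [abs_mul, abs_mul, abs_of_pos ha0]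
        _ ≤ a * (P * ((1 + x) ^ s.card - 1)) + (x * a) * (P * (1 + x) ^ s.card) := by
            apply add_le_add (mul_le_mul_of_nonneg_left h1 ha0.le)
            exact mul_le_mul hca h2 (abs_nonneg _) (by positivity)
        _ = a * P * ((1 + x) ^ (s.card + 1) - 1) := by ring
    · calc |((a : ℝ) + c) * F| = |(a : ℝ) + c| * |F| := abs_mul _ _
        _ ≤ (a + x * a) * (P * (1 + x) ^ s.card) := by
            apply mul_le_mul _ h2 (abs_nonneg _) (by positivity)
            calc |(a : ℝ) + c| ≤ |(a : ℝ)| + |c| := abs_add_le _ _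
              _ ≤ a + x * a := by rw [abs_of_pos ha0]; linarith
        _ = a * P * (1 + x) ^ (s.card + 1) := by ring

lemma Moderate.one {f : ℕ → ℕ} {c : ℤ} (hf : Moderate f c) : f 1 = 1 := by
  have h1 := hf.mul 1 1 (Nat.coprime_one_right 1)
  have h2 := hf.pos 1 le_rfl
  rw [mul_one] at h1
  nlinarith

lemma Moderate.prod {f : ℕ → ℕ} {c : ℤ} (hf : Moderate f c) (s : Finset ℕ) (hs : ∀ p ∈ s, p.Prime) :
    f (∏ p ∈ s, p) = ∏ p ∈ s, f p := by
  induction s using Finset.induction_on with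
  | empty => simp [Moderate.one hf]
  | insert a s ha ih =>
    rw [prod_insert ha, prod_insert ha, hf.mul, ih (fun p hp => hs p (mem_insert_of_mem hp))]
    apply Nat.Coprime.prod_right
    intro p hp
    rw [Nat.coprime_primes (hs a (mem_insert_self _ _)) (hs p (mem_insert_of_mem hp))]
    rintro rfl
    exact ha hp

lemma Moderate.sqf {f : ℕ → ℕ} {c : ℤ} (hf : Moderate f c) {u : ℕ} (hu : Squarefree u) :
    f u = ∏ p ∈ u.primeFactors, f p := by
  conv_lhs => rw [← Nat.prod_primeFactors_of_squarefree hu]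
  exact Moderate.prod hf _ (fun p hp => Nat.prime_of_mem_primeFactors hp)

/-- the value at a squarefree number with prime factors `≥ q` is close to the number -/
lemma value_close {f : ℕ → ℕ} {c : ℤ} (hf : Moderate f c) {P : ℕ} (hP : ∀ p : ℕ, P ≤ p → p.Prime → (f p : ℤ) = p + c)
    {q J D : ℕ} (hq1 : 1 ≤ q) (hPq : P ≤ q) (hc : |(c : ℝ)| ≤ q) (hD : Squarefree D)
    (h2 : ∀ p : ℕ, p.Prime → p ∣ D → q ≤ p) (h3 : D.primeFactors.card ≤ J) :
    |(f D : ℝ) - D| ≤ D * (2 ^ J * |(c : ℝ)| / q) := by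
  have hq0 : (0 : ℝ) < q := by exact_mod_cast hq1
  have e1 : (f D : ℝ) = ∏ p ∈ D.primeFactors, ((p : ℝ) + c) := by
    rw [Moderate.sqf hf hD, Nat.cast_prod]
    apply prod_congr rfl
    intro p hp
    have hp' := Nat.prime_of_mem_primeFactors hp
    have e2 := hP p (hPq.trans (h2 p hp' (Nat.dvd_of_mem_primeFactors hp))) hp'
    exact_mod_cast e2
  have e2 : (D : ℝ) = ∏ p ∈ D.primeFactors, (p : ℝ) := by
    rw [← Nat.cast_prod, Nat.prod_primeFactors_of_squarefree hD]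
  have h4 := (prod_close D.primeFactors (c : ℝ) q (|(c : ℝ)| / q) hq0 (fun p hp => by
    exact_mod_cast h2 p (Nat.prime_of_mem_primeFactors hp) (Nat.dvd_of_mem_primeFactors hp))
    (by rw [div_mul_cancel₀ _ hq0.ne']) (by positivity)).1
  rw [← e1, ← e2] at h4
  refine h4.trans ?_
  apply mul_le_mul_of_nonneg_left _ (Nat.cast_nonneg _)
  have hx1 : |(c : ℝ)| / q ≤ 1 := by rwa [div_le_one hq0]
  have hx0 : 0 ≤ |(c : ℝ)| / q := by positivity
  refine (one_add_pow_sub _ hx0 hx1 _).trans ?_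
  rw [mul_div_assoc]
  apply mul_le_mul_of_nonneg_right _ hx0
  exact pow_le_pow_right₀ (by norm_num) h3

/-! ### congruences in short intervals -/

lemma cong_count (V : Finset ℕ) (μ : ℤ) (M G : ℕ) (len : ℝ) (hM : 1 ≤ M) (hG : Int.gcd μ M ≤ G) (hlen : 0 ≤ len)
    (hV : ∀ x ∈ V, ∀ y ∈ V, ((x : ℝ) - y ≤ len) ∧ (M : ℤ) ∣ μ * x - μ * y) :
    (V.card : ℝ) ≤ len * G / M + 1 := by
  rcases V.eq_empty_or_nonempty with h0 | hne
  · rw [h0, card_empty, Nat.cast_zero]
    positivity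
  obtain ⟨x0, hx0, hmin⟩ := V.exists_min_image (fun x => x) hne
  obtain ⟨d, hd⟩ : ∃ d : ℕ, d = Int.gcd μ M := ⟨_, rfl⟩
  have hd1 : 1 ≤ d := by
    rw [hd]
    exact Int.gcd_pos_of_ne_zero_right _ (by exact_mod_cast (by omega : M ≠ 0))
  have hdM : d ∣ M := by
    rw [hd]
    exact_mod_cast Int.gcd_dvd_right μ (M : ℤ)
  obtain ⟨M', hM'⟩ := hdM
  have hM'1 : 1 ≤ M' := by
    rcases Nat.eq_zero_or_pos M' with h | h
    · rw [h, mul_zero] at hM'
      omega
    · exact h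
  have hkey : ∀ x ∈ V, M' ∣ x - x0 := by
    intro x hx
    have h1 := (hV x hx x0 hx0).2
    rw [← mul_sub] at h1
    have hxx : x0 ≤ x := hmin x hx
    have h2 : ((M' : ℕ) : ℤ) ∣ (x : ℤ) - x0 := by
      obtain ⟨μ', hμ'⟩ : (d : ℤ) ∣ μ := by rw [hd]; exact Int.gcd_dvd_left μ (M : ℤ)
      have hd0 : (d : ℤ) ≠ 0 := by exact_mod_cast (by omega : d ≠ 0)
      have h3 : (M' : ℤ) ∣ μ' * ((x : ℤ) - x0) := by
        rw [hM', hμ'] at h1
        push_cast at h1
        rw [mul_assoc] at h1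
        exact Int.dvd_of_mul_dvd_mul_left hd0 h1
      have h4 : IsCoprime (M' : ℤ) μ' := by
        rw [Int.isCoprime_iff_gcd_eq_one]
        have h5 : Int.gcd ((d : ℤ) * μ') ((d : ℤ) * M') = d := by
          have : ((d : ℤ) * M') = (M : ℤ) := by rw [hM']; push_cast; ring
          rw [this, ← hμ', ← hd]
        rw [Int.gcd_mul_left, Int.natAbs_natCast] at h5
        have h6 : d * Int.gcd μ' M' = d * 1 := by rw [mul_one]; exact h5
        have h7 := Nat.eq_of_mul_eq_mul_left (by omega) h6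
        rw [Int.gcd_comm]
        exact h7
      exact h4.dvd_of_dvd_mul_left h3
    have h3 : ((M' : ℕ) : ℤ) ∣ ((x - x0 : ℕ) : ℤ) := by
      rw [Nat.cast_sub hxx]
      exact h2
    exact_mod_cast h3
  have hc := Pool.Agent.U365.TAU.classcount (V.image (fun x => x - x0)) M' hM'1 0 len hlen (by
    intro n hn
    rw [mem_image] at hn
    obtain ⟨x, hx, rfl⟩ := hn
    have hxx : x0 ≤ x := hmin x hx
    refine ⟨?_, ?_⟩
    · rw [Nat.cast_sub hxx]
      exact (hV x hx x0 hx0).1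
    · rw [Int.modEq_zero_iff_dvd]
      exact_mod_cast hkey x hx)
  rw [card_image_of_injOn (by
    intro x hx y hy h
    have h1 : x0 ≤ x := hmin x hx
    have h2 : x0 ≤ y := hmin y hy
    simp only at h
    omega)] at hc
  refine hc.trans ?_
  have hM0 : (0 : ℝ) < M := by exact_mod_cast hM
  have hM'0 : (0 : ℝ) < M' := by exact_mod_cast hM'1
  have h6 : (M : ℝ) ≤ G * M' := by
    have : M ≤ G * M' := by
      rw [hM']
      exact Nat.mul_le_mul_right _ (by rw [hd]; exact hG)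
    exact_mod_cast this
  have h7 : len / M' ≤ len * G / M := by
    rw [div_le_div_iff₀ hM'0 hM0]
    calc len * M ≤ len * (G * M') := mul_le_mul_of_nonneg_left h6 hlen
      _ = len * G * M' := by ring
  linarith

/-! ### the parts of an integer -/

lemma rp_dvd {z m : ℕ} (hm : m ≠ 0) : rp z m ∣ m := ⟨sp z m, by rw [mul_comm]; exact (sp_mul_rp z m hm).symm⟩

lemma sp_dvd {z m : ℕ} (hm : m ≠ 0) : sp z m ∣ m := ⟨rp z m, (sp_mul_rp z m hm).symm⟩

/-- the smooth part of a divisor -/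
lemma sp_le_of_dvd {z e m : ℕ} (he : e ≠ 0) (hm : m ≠ 0) (h : e ∣ m) : sp z e ≤ sp z m := by
  apply Nat.le_of_dvd (sp_pos z m)
  have h1 : sp z e ∣ sp z m * rp z m := by
    rw [sp_mul_rp z m hm]
    exact (sp_dvd he).trans h
  apply Nat.Coprime.dvd_of_dvd_mul_right _ h1
  by_contra hcon
  obtain ⟨p, hp, h2, h3⟩ := Nat.Prime.not_coprime_iff_dvd.1 hcon
  have a := lt_of_dvd_rp hp h3
  have b := le_of_dvd_sp hp h2
  omega

lemma rp_top {m N : ℕ} (hm : m ≤ N) : rp N m = 1 := by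
  unfold rp
  apply prod_eq_one
  intro p hp
  have := Nat.le_of_mem_primeFactors hp
  rw [if_pos (by omega)]

lemma rp_step {m q : ℕ} (hq : 1 ≤ q) : rp (q - 1) m = rp q m * (if q ∈ m.primeFactors then q ^ m.factorization q else 1) := by
  unfold rp
  have h1 : ∀ p ∈ m.primeFactors, (if p ≤ q - 1 then 1 else p ^ m.factorization p) =
      (if p ≤ q then 1 else p ^ m.factorization p) * (if p = q then q ^ m.factorization q else 1) := by
    intro p _
    rcases lt_trichotomy p q with h | h | h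
    · rw [if_pos (by omega), if_pos (by omega), if_neg (by omega)]
    · subst h
      rw [if_neg (by omega), if_pos le_rfl, if_pos rfl, one_mul]
    · rw [if_neg (by omega), if_neg (by omega), if_neg (by omega), mul_one]
  rw [prod_congr rfl h1, prod_mul_distrib]
  congr 1
  rw [Finset.prod_ite_eq']

/-- the cut -/
lemma exists_cut {z m N : ℕ} {T : ℝ} (hT : 1 ≤ T) (hmN : m ≤ N) (hm : 1 ≤ m) (hbig : T < rp z m)
    (hsq : ∀ p : ℕ, p.Prime → z < p → ¬ p ^ 2 ∣ m) :
    ∃ q : ℕ, q.Prime ∧ z < q ∧ q ∣ m ∧ (rp q m : ℝ) ≤ T ∧ T < rp (q - 1) m ∧ rp (q - 1) m = rp q m * q := by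
  classical
  have hex : ∃ q : ℕ, z ≤ q ∧ (rp q m : ℝ) ≤ T := by
    refine ⟨max z N, le_max_left _ _, ?_⟩
    rw [rp_top (hmN.trans (le_max_right _ _)), Nat.cast_one]
    exact hT
  obtain ⟨q, hq⟩ : ∃ q : ℕ, q = Nat.find hex := ⟨_, rfl⟩
  obtain ⟨h1, h2⟩ := Nat.find_spec hex
  rw [← hq] at h1 h2
  have hzq : z < q := by
    rcases h1.lt_or_eq with h | h
    · exact h
    · rw [← h] at h2
      linarith
  have h3 : T < rp (q - 1) m := by
    by_contra hcon
    push Not at hcon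
    have := Nat.find_min' hex (m := q - 1) ⟨by omega, hcon⟩
    omega
  have h4 := rp_step (m := m) (q := q) (by omega)
  have h5 : q ∈ m.primeFactors := by
    by_contra hcon
    rw [if_neg hcon, mul_one] at h4
    rw [h4] at h3
    linarith
  have hqp := Nat.prime_of_mem_primeFactors h5
  have hqm := Nat.dvd_of_mem_primeFactors h5
  rw [if_pos h5] at h4
  have h6 : m.factorization q = 1 := by
    have a1 : 1 ≤ m.factorization q := (hqp.dvd_iff_one_le_factorization (by omega)).1 hqm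
    have a2 : ¬ 2 ≤ m.factorization q := fun h => hsq q hqp hzq ((hqp.pow_dvd_iff_le_factorization (by omega)).2 h)
    omega
  rw [h6, pow_one] at h4
  exact ⟨q, hqp, hzq, hqm, h2, h3, h4⟩

end Pool.Agent.U365.POW
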