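import Pool.Agent.U365.POW.G

set_option autoImplicit false

/-! The exceptional integers of the second method are few. -/

namespace Pool.Agent.U365.POW

open Finset Filter Topology Pool.Agent.U365.AQG Pool.Agent.N733.TG

/-- the exceptional integers -/
def Exc (c : ℤ) (z : ℕ) (u : ℝ) (m : ℕ) : Prop :=
  u < (sp z m : ℝ) ∨ (∃ p : ℕ, p.Prime ∧ z < p ∧ p ^ 2 ∣ m) ∨
    ∃ p q : ℕ, p.Prime ∧ q.Prime ∧ z < p ∧ z < q ∧ p * q ∣ m ∧ (p : ℤ) ∣ q + c

open Classical in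
lemma few_pairs (c : ℤ) (N z : ℕ) (hN : 1 ≤ N) (hz : 1 ≤ z) (hcz : 2 * c.natAbs ≤ z) :
    (((Icc 1 N).filter (fun m => ∃ p q : ℕ, p.Prime ∧ q.Prime ∧ z < p ∧ z < q ∧ p * q ∣ m ∧ (p : ℤ) ∣ q + c)).card : ℝ) ≤
      2 * N * (1 + Real.log N) / z := by
  have hsub : (Icc 1 N).filter (fun m => ∃ p q : ℕ, p.Prime ∧ q.Prime ∧ z < p ∧ z < q ∧ p * q ∣ m ∧ (p : ℤ) ∣ q + c) ⊆
      (Ioc z N).biUnion (fun p => (Icc 1 N).biUnion (fun t =>
        (Ioc 0 N).filter (fun m => p * ((p : ℤ) * t - c).toNat ∣ m))) := by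
    intro m hm
    rw [mem_filter, mem_Icc] at hm
    obtain ⟨⟨hm1, hmN⟩, p, q, hp, hq, hzp, hzq, hpq, hd⟩ := hm
    obtain ⟨t, ht⟩ := hd
    have hpm := Nat.le_of_dvd (by omega) ((Dvd.intro _ rfl).trans hpq)
    have hqm := Nat.le_of_dvd (by omega) ((Dvd.intro_left _ rfl).trans hpq)
    have hp0 : (0 : ℤ) < p := by exact_mod_cast hp.pos
    have ht1 : 1 ≤ t := by
      by_contra hcon
      have h1 : (p : ℤ) * t ≤ 0 := by nlinarith
      omega
    have htN : t ≤ N := by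
      by_contra hcon
      have h1 : (N : ℤ) + 1 ≤ t := by omega
      have h2 : (p : ℤ) * (N + 1) ≤ p * t := mul_le_mul_of_nonneg_left h1 hp0.le
      have h3 : (2 : ℤ) ≤ p := by exact_mod_cast hp.two_le
      have h4 : (2 : ℤ) * N ≤ p * N := mul_le_mul_of_nonneg_right h3 (by positivity)
      have h5 : (p : ℤ) * (N + 1) = p * N + p := by ring
      omega
    rw [mem_biUnion]
    refine ⟨p, mem_Ioc.2 ⟨hzp, by omega⟩, ?_⟩
    rw [mem_biUnion]
    refine ⟨t.toNat, ?_, ?_⟩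
    · rw [mem_Icc]
      omega
    · rw [mem_filter, mem_Ioc]
      refine ⟨⟨by omega, hmN⟩, ?_⟩
      have h1 : ((t.toNat : ℕ) : ℤ) = t := Int.toNat_of_nonneg (by omega)
      have h2 : (p : ℤ) * t - c = q := by linarith
      rw [h1, h2, Int.toNat_natCast]
      exact hpq
  have hterm : ∀ p ∈ Ioc z N, ∀ t ∈ Icc 1 N,
      (((Ioc 0 N).filter (fun m => p * ((p : ℤ) * t - c).toNat ∣ m)).card : ℝ) ≤ 2 * N * ((((p : ℕ) : ℝ) ^ 2)⁻¹ * (t : ℝ)⁻¹) := by
    intro p hp t ht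
    rw [mem_Ioc] at hp
    rw [mem_Icc] at ht
    have hp0 : (0 : ℝ) < p := by exact_mod_cast (by omega : 0 < p)
    have ht0 : (0 : ℝ) < t := by exact_mod_cast ht.1
    rw [Nat.Ioc_filter_dvd_card_eq_div]
    refine (Nat.cast_div_le (α := ℝ)).trans ?_
    have h1 : (p : ℤ) ≤ (p : ℤ) * t := by nlinarith [ht.1, hp.1]
    have h2 : 2 * |c| ≤ (p : ℤ) * t := by
      rw [Int.abs_eq_natAbs]
      omega
    have h3 : ((((p : ℤ) * t - c).toNat : ℕ) : ℤ) = (p : ℤ) * t - c := by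
      apply Int.toNat_of_nonneg
      have := le_abs_self c
      omega
    have h4 : ((((p : ℤ) * t - c).toNat : ℕ) : ℝ) = (p : ℝ) * t - c := by exact_mod_cast h3
    have h5 : (p : ℝ) * t / 2 ≤ (p : ℝ) * t - c := by
      have h6 : 2 * |(c : ℝ)| ≤ (p : ℝ) * t := by exact_mod_cast h2
      have := le_abs_self (c : ℝ)
      linarith
    have h6 : (p : ℝ) * ((p : ℝ) * t / 2) ≤ ((p * ((p : ℤ) * t - c).toNat : ℕ) : ℝ) := by
      rw [Nat.cast_mul, h4]
      exact mul_le_mul_of_nonneg_left h5 hp0.le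
    calc (N : ℝ) / ((p * ((p : ℤ) * t - c).toNat : ℕ) : ℝ) ≤ N / ((p : ℝ) * ((p : ℝ) * t / 2)) := by
          apply div_le_div_of_nonneg_left (Nat.cast_nonneg _) (by positivity) h6
      _ = 2 * N * (((p : ℝ) ^ 2)⁻¹ * (t : ℝ)⁻¹) := by
          field_simp
  have hharm : ∑ t ∈ Icc 1 N, (t : ℝ)⁻¹ ≤ 1 + Real.log N := by
    have h1 := harmonic_le_one_add_log N
    rw [harmonic_eq_sum_Icc] at h1
    push_cast at h1
    exact h1
  have hsq : ∑ p ∈ Ioc z N, (((p : ℕ) : ℝ) ^ 2)⁻¹ ≤ (z : ℝ)⁻¹ := by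
    rcases le_or_gt z N with h | h
    · have := sum_Ioc_inv_sq_le_sub (α := ℝ) (k := z) (n := N) (by omega) h
      have h2 : (0 : ℝ) ≤ (N : ℝ)⁻¹ := by positivity
      linarith
    · rw [Ioc_eq_empty (by omega), sum_empty]
      positivity
  have hL0 : 0 ≤ 1 + Real.log N := by
    have := Real.log_nonneg (show (1 : ℝ) ≤ N by exact_mod_cast hN)
    linarith
  calc (((Icc 1 N).filter (fun m => ∃ p q : ℕ, p.Prime ∧ q.Prime ∧ z < p ∧ z < q ∧ p * q ∣ m ∧ (p : ℤ) ∣ q + c)).card : ℝ)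
      ≤ ∑ p ∈ Ioc z N, ∑ t ∈ Icc 1 N, (((Ioc 0 N).filter (fun m => p * ((p : ℤ) * t - c).toNat ∣ m)).card : ℝ) := by
        have h1 := (card_le_card hsub).trans (card_biUnion_le.trans (sum_le_sum (fun p _ => card_biUnion_le)))
        exact_mod_cast h1
    _ ≤ ∑ p ∈ Ioc z N, ∑ t ∈ Icc 1 N, 2 * N * ((((p : ℕ) : ℝ) ^ 2)⁻¹ * (t : ℝ)⁻¹) :=
        sum_le_sum (fun p hp => sum_le_sum (fun t ht => hterm p hp t ht))
    _ = 2 * N * ((∑ p ∈ Ioc z N, (((p : ℕ) : ℝ) ^ 2)⁻¹) * ∑ t ∈ Icc 1 N, (t : ℝ)⁻¹) := by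
        rw [sum_mul_sum, mul_sum]
        apply sum_congr rfl
        intro p _
        rw [mul_sum]
    _ ≤ 2 * N * ((z : ℝ)⁻¹ * (1 + Real.log N)) := by
        apply mul_le_mul_of_nonneg_left _ (by positivity)
        exact mul_le_mul hsq hharm (sum_nonneg (fun t _ => by positivity)) (by positivity)
    _ = 2 * N * (1 + Real.log N) / z := by
        rw [div_eq_mul_inv]
        ring

/-- growth -/
lemma big_exp (D : ℝ) (k : ℕ) (b : ℝ) (hb : 0 < b) : ∃ N₀ : ℕ, ∀ N : ℕ, N₀ ≤ N →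
    D * (√(Real.log N)) ^ k ≤ Real.exp (b * √(Real.log N)) := by
  have h1 := isLittleO_pow_exp_pos_mul_atTop k hb
  have h2 := h1.bound (show (0 : ℝ) < 1 / (|D| + 1) by positivity)
  have h3 : Tendsto (fun N : ℕ => √(Real.log N)) atTop atTop :=
    Real.tendsto_sqrt_atTop.comp (Real.tendsto_log_atTop.comp (tendsto_natCast_atTop_atTop (R := ℝ)))
  have h4 := h3.eventually h2
  rw [eventually_atTop] at h4
  obtain ⟨N₀, hN₀⟩ := h4
  refine ⟨N₀, fun N hN => ?_⟩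
  have h5 := hN₀ N hN
  rw [Real.norm_of_nonneg (by positivity), Real.norm_of_nonneg (by positivity)] at h5
  have h6 : (|D| + 1) * (√(Real.log N)) ^ k ≤ Real.exp (b * √(Real.log N)) := by
    calc (|D| + 1) * (√(Real.log N)) ^ k ≤ (|D| + 1) * (1 / (|D| + 1) * Real.exp (b * √(Real.log N))) :=
          mul_le_mul_of_nonneg_left h5 (by positivity)
      _ = Real.exp (b * √(Real.log N)) := by field_simp
  have h7 : D * (√(Real.log N)) ^ k ≤ (|D| + 1) * (√(Real.log N)) ^ k := by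
    apply mul_le_mul_of_nonneg_right _ (by positivity)
    linarith [le_abs_self D]
  linarith

open Classical in
lemma few_exc (c : ℤ) (δ : ℝ) (hδ : 0 < δ) (A : ℕ) : ∃ N₀ : ℕ, ∀ N : ℕ, N₀ ≤ N →
    (((Icc 1 N).filter (fun m => Exc c ⌈Real.exp (√(Real.log N))⌉₊ ((N : ℝ) ^ δ) m)).card : ℝ) ≤ N / Real.log N ^ A := by
  obtain ⟨C, hC, hlarge⟩ := few_large'
  obtain ⟨C', hC'⟩ : ∃ C', C' = 3 * (C * 2 * Real.exp (4 * Real.exp 1 * (1 + C))) := ⟨_, rfl⟩
  obtain ⟨N1, hN1⟩ := big_exp C' (2 * A + 1) (δ / 2) (by positivity)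
  obtain ⟨N2, hN2⟩ := big_exp 12 (2 * A + 2) 1 one_pos
  obtain ⟨N3, hN3⟩ := big_exp (2 * c.natAbs + 1) 0 1 one_pos
  have hs : Tendsto (fun N : ℕ => √(Real.log N)) atTop atTop :=
    Real.tendsto_sqrt_atTop.comp (Real.tendsto_log_atTop.comp (tendsto_natCast_atTop_atTop (R := ℝ)))
  obtain ⟨N4, hN4⟩ := eventually_atTop.1 (hs.eventually_ge_atTop (4 : ℝ))
  refine ⟨N1 + N2 + N3 + N4 + 3, fun N hN => ?_⟩
  have g1 := hN1 N (by omega)
  have g2 := hN2 N (by omega)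
  have g3 := hN3 N (by omega)
  have g4 := hN4 N (by omega)
  obtain ⟨w, hw⟩ : ∃ w, w = √(Real.log N) := ⟨_, rfl⟩
  obtain ⟨L, hL⟩ : ∃ L, L = Real.log N := ⟨_, rfl⟩
  rw [← hw] at g1 g2 g3 g4 ⊢
  have hN3' : (3 : ℝ) ≤ N := by exact_mod_cast (by omega : 3 ≤ N)
  have hN0 : (0 : ℝ) < N := by linarith
  have hL0 : 0 ≤ L := by rw [hL]; exact Real.log_nonneg (by linarith)
  have hwL : w ^ 2 = L := by rw [hw, hL]; exact Real.sq_sqrt (by rw [← hL]; exact hL0)
  have hL16 : 16 ≤ L := by rw [← hwL]; nlinarith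
  rw [← hL]
  obtain ⟨z, hz⟩ : ∃ z : ℕ, z = ⌈Real.exp w⌉₊ := ⟨_, rfl⟩
  rw [← hz]
  have hzl : Real.exp w ≤ z := by rw [hz]; exact Nat.le_ceil _
  have hzu : (z : ℝ) ≤ Real.exp (2 * w) := by
    have h1 : (z : ℝ) < Real.exp w + 1 := by rw [hz]; exact Nat.ceil_lt_add_one (Real.exp_pos _).le
    have h2 : Real.exp w + 1 ≤ Real.exp w * Real.exp w := by
      have : 2 ≤ Real.exp w := by
        have := Real.add_one_le_exp w
        linarith
      nlinarith
    have h3 : Real.exp w * Real.exp w = Real.exp (2 * w) := by rw [← Real.exp_add]; ring_nf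
    linarith
  have hz2 : 2 ≤ z := by
    have : (2 : ℝ) ≤ z := by
      have := Real.add_one_le_exp w
      linarith
    exact_mod_cast this
  have hz0 : (0 : ℝ) < z := by exact_mod_cast (by omega : 0 < z)
  have hlz1 : w ≤ Real.log z := by
    rw [Real.le_log_iff_exp_le hz0]
    exact hzl
  have hlz2 : Real.log z ≤ 2 * w := by
    rw [Real.log_le_iff_le_exp hz0]
    exact hzu
  have hlz0 : 0 < Real.log z := by linarith
  have hcz : 2 * c.natAbs ≤ z := by
    have h1 : (2 * c.natAbs + 1 : ℝ) ≤ z := by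
      rw [pow_zero, mul_one, one_mul] at g3
      exact g3.trans hzl
    have h2 : ((2 * c.natAbs : ℕ) : ℝ) ≤ z := by push_cast; linarith
    exact_mod_cast h2
  -- the three parts
  have a1 : (((Icc 1 N).filter (fun m => (N : ℝ) ^ δ < (sp z m : ℝ))).card : ℝ) ≤ N / (3 * L ^ A) := by
    have hu0 : 0 < (N : ℝ) ^ δ := by positivity
    refine (hlarge (1 / Real.log z) z N ((N : ℝ) ^ δ) (by positivity) (by
      rw [div_le_div_iff₀ hlz0 (by norm_num)]
      linarith) hz2 hu0).trans ?_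
    have e1 : (z : ℝ) ^ (1 / Real.log z) = Real.exp 1 := by
      rw [Real.rpow_def_of_pos hz0]
      congr 1
      field_simp
    have e2 : ((N : ℝ) ^ δ) ^ (-(1 / Real.log z)) ≤ Real.exp (-(δ / 2 * w)) := by
      rw [← Real.rpow_mul hN0.le, Real.rpow_def_of_pos hN0]
      apply Real.exp_le_exp.2
      rw [← hL, ← hwL]
      have h5 : 1 / (2 * w) ≤ 1 / Real.log z := one_div_le_one_div_of_le hlz0 hlz2
      have h6 : w ^ 2 * δ * (1 / (2 * w)) ≤ w ^ 2 * δ * (1 / Real.log z) :=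
        mul_le_mul_of_nonneg_left h5 (by positivity)
      have h7 : w ^ 2 * δ * (1 / (2 * w)) = δ / 2 * w := by
        have : w ≠ 0 := by linarith
        field_simp
      linarith
    have e3 : 4 * (1 / Real.log z) * (z : ℝ) ^ (1 / Real.log z) * (Real.log z + C) ≤ 4 * Real.exp 1 * (1 + C) := by
      rw [e1]
      have h5 : (1 / Real.log z) * (Real.log z + C) = 1 + C / Real.log z := by field_simp
      have h6 : C / Real.log z ≤ C := by
        rw [div_le_iff₀ hlz0]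
        nlinarith
      calc 4 * (1 / Real.log z) * Real.exp 1 * (Real.log z + C) = 4 * Real.exp 1 * ((1 / Real.log z) * (Real.log z + C)) := by
            ring
        _ ≤ 4 * Real.exp 1 * (1 + C) := by
            apply mul_le_mul_of_nonneg_left _ (by positivity)
            rw [h5]
            linarith
    have e4 : C * Real.log z * Real.exp (4 * (1 / Real.log z) * (z : ℝ) ^ (1 / Real.log z) * (Real.log z + C)) ≤
        C * (2 * w) * Real.exp (4 * Real.exp 1 * (1 + C)) := by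
      apply mul_le_mul _ (Real.exp_le_exp.2 e3) (Real.exp_pos _).le (by positivity)
      exact mul_le_mul_of_nonneg_left hlz2 hC.le
    have hLA : 0 < L ^ A := by positivity
    calc (N : ℝ) * ((N : ℝ) ^ δ) ^ (-(1 / Real.log z)) *
          (C * Real.log z * Real.exp (4 * (1 / Real.log z) * (z : ℝ) ^ (1 / Real.log z) * (Real.log z + C)))
        ≤ (N * Real.exp (-(δ / 2 * w))) * (C * (2 * w) * Real.exp (4 * Real.exp 1 * (1 + C))) := by
          apply mul_le_mul (mul_le_mul_of_nonneg_left e2 hN0.le) e4 (by positivity) (by positivity)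
      _ = N / (3 * L ^ A) * (C' * w ^ (2 * A + 1) * Real.exp (-(δ / 2 * w))) := by
          rw [hC', ← hwL]
          have : w ≠ 0 := by linarith
          field_simp
          ring
      _ ≤ N / (3 * L ^ A) * 1 := by
          apply mul_le_mul_of_nonneg_left _ (by positivity)
          rw [Real.exp_neg, ← div_eq_mul_inv, div_le_one (Real.exp_pos _)]
          exact g1
      _ = N / (3 * L ^ A) := mul_one _
  have hexp : 12 * w ^ (2 * A + 2) ≤ z := by
    rw [one_mul] at g2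
    exact g2.trans hzl
  have hLw : L ^ A * w ^ 2 = w ^ (2 * A + 2) := by rw [← hwL]; ring
  have a2 : (((Icc 1 N).filter (fun m => ∃ p : ℕ, p.Prime ∧ z < p ∧ p ^ 2 ∣ m)).card : ℝ) ≤ N / (3 * L ^ A) := by
    refine (few_square N z (by omega)).trans ?_
    apply div_le_div_of_nonneg_left hN0.le (by positivity)
    have h5 : (1 : ℝ) ≤ w ^ 2 := by nlinarith
    have h6 : 0 < L ^ A := by positivity
    nlinarith
  have a3 : (((Icc 1 N).filter (fun m => ∃ p q : ℕ, p.Prime ∧ q.Prime ∧ z < p ∧ z < q ∧ p * q ∣ m ∧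
      (p : ℤ) ∣ q + c)).card : ℝ) ≤ N / (3 * L ^ A) := by
    refine (few_pairs c N z (by omega) (by omega) hcz).trans ?_
    rw [← hL, div_le_div_iff₀ hz0 (by positivity)]
    have h6 : 0 < L ^ A := by positivity
    have h7 : 2 * (1 + L) * (3 * L ^ A) ≤ 12 * (L ^ A * w ^ 2) := by
      rw [hwL]
      nlinarith
    calc 2 * N * (1 + L) * (3 * L ^ A) = N * (2 * (1 + L) * (3 * L ^ A)) := by ring
      _ ≤ N * (12 * (L ^ A * w ^ 2)) := mul_le_mul_of_nonneg_left h7 hN0.le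
      _ ≤ N * z := by
          apply mul_le_mul_of_nonneg_left _ hN0.le
          rw [hLw]
          exact hexp
  have hsub : (Icc 1 N).filter (fun m => Exc c z ((N : ℝ) ^ δ) m) ⊆
      ((Icc 1 N).filter (fun m => (N : ℝ) ^ δ < (sp z m : ℝ)) ∪
      (Icc 1 N).filter (fun m => ∃ p : ℕ, p.Prime ∧ z < p ∧ p ^ 2 ∣ m)) ∪
      (Icc 1 N).filter (fun m => ∃ p q : ℕ, p.Prime ∧ q.Prime ∧ z < p ∧ z < q ∧ p * q ∣ m ∧ (p : ℤ) ∣ q + c) := by
    intro m hm
    rw [mem_filter] at hm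
    rw [mem_union, mem_union, mem_filter, mem_filter, mem_filter]
    rcases hm.2 with h | h | h
    · exact Or.inl (Or.inl ⟨hm.1, h⟩)
    · exact Or.inl (Or.inr ⟨hm.1, h⟩)
    · exact Or.inr ⟨hm.1, h⟩
  have hc' := (card_le_card hsub).trans ((card_union_le _ _).trans (Nat.add_le_add_right (card_union_le _ _) _))
  have hc'' : (((Icc 1 N).filter (fun m => Exc c z ((N : ℝ) ^ δ) m)).card : ℝ) ≤
      (((Icc 1 N).filter (fun m => (N : ℝ) ^ δ < (sp z m : ℝ))).card : ℝ) +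
      ((Icc 1 N).filter (fun m => ∃ p : ℕ, p.Prime ∧ z < p ∧ p ^ 2 ∣ m)).card +
      ((Icc 1 N).filter (fun m => ∃ p q : ℕ, p.Prime ∧ q.Prime ∧ z < p ∧ z < q ∧ p * q ∣ m ∧ (p : ℤ) ∣ q + c)).card := by
    exact_mod_cast hc'
  have hfin : N / (3 * L ^ A) + N / (3 * L ^ A) + N / (3 * L ^ A) = N / L ^ A := by
    have : L ^ A ≠ 0 := by positivity
    field_simp
    ring
  linarith

end Pool.Agent.U365.POW
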