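import Pool.Agent.U365.POW.H1

set_option autoImplicit false

/-! The facts for large `N`, and the rough divisors of the unexceptional integers. -/

namespace Pool.Agent.U365.POW

open Finset Filter Topology Pool.Agent.U365.AQG Pool.Agent.N733.TG

/-- the inequalities for large `N` -/
structure Big (C P : ℕ) (c : ℤ) (K : ℝ) (N z J : ℕ) (u : ℝ) : Prop where
  u4 : 4 ≤ u
  gr : (1 + Real.log N) ^ C ≤ u
  lg : 1 + Real.log N ≤ u
  Pz : P ≤ z
  cz : |(c : ℝ)| + 1 ≤ z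
  Jz : 2 * (2 ^ J * |(c : ℝ)|) ≤ z
  Ju : 2 ^ J * |(c : ℝ)| ≤ u
  Ku : |K| ≤ u
  Nz : N < (z + 1) ^ (J + 1)
  N3 : 3 ≤ N
  zu : (z : ℝ) ≤ u

lemma setup (C P : ℕ) (c : ℤ) (K δ : ℝ) (hδ : 0 < δ) : ∃ N₀ : ℕ, ∀ N : ℕ, N₀ ≤ N →
    Big C P c K N ⌈Real.exp (√(Real.log N))⌉₊ ⌊√(Real.log N)⌋₊ ((N : ℝ) ^ δ) := by
  obtain ⟨N1, hN1⟩ := big_exp (2 * |(c : ℝ)|) 0 (3 / 10) (by norm_num)
  obtain ⟨N2, hN2⟩ := big_exp (|(c : ℝ)| + 1 + P) 0 1 one_pos
  obtain ⟨x1, hx1⟩ := eventually_atTop.1 (Pool.Agent.R460.GS.real_log (C + C + 2) (s := δ) hδ (|K| + (2 / δ) ^ 2 + 16))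
  obtain ⟨n1, hn1⟩ := exists_nat_ge x1
  refine ⟨N1 + N2 + n1 + 3, fun N hN => ?_⟩
  have g1 := hN1 N (by omega)
  have g2 := hN2 N (by omega)
  obtain ⟨g3, g4⟩ := hx1 N (hn1.trans (by exact_mod_cast (by omega : n1 ≤ N)))
  obtain ⟨w, hw⟩ : ∃ w, w = √(Real.log N) := ⟨_, rfl⟩
  obtain ⟨L, hL⟩ : ∃ L, L = Real.log N := ⟨_, rfl⟩
  have hN3 : (3 : ℝ) ≤ N := by exact_mod_cast (by omega : 3 ≤ N)
  have hN0 : (0 : ℝ) < N := by linarith
  have hK0 := abs_nonneg K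
  have hδ16 : 0 < (2 / δ) ^ 2 := by positivity
  rw [← hL] at g3 g4
  have hL16 : 16 ≤ L := by linarith
  have hKL : |K| ≤ L := by linarith
  have hL0 : 0 ≤ L := by linarith
  have hwL : w ^ 2 = L := by rw [hw, hL]; exact Real.sq_sqrt (by rw [← hL]; exact hL0)
  have hw0 : 0 ≤ w := by rw [hw]; exact Real.sqrt_nonneg _
  have hw4 : 4 ≤ w := by nlinarith
  have hδw : 2 ≤ δ * w := by
    have h1 : (2 / δ) ^ 2 ≤ w ^ 2 := by rw [hwL]; linarith
    have h2 : 2 / δ ≤ w := by nlinarith [h1, hw0, div_pos (zero_lt_two' ℝ) hδ]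
    rw [div_le_iff₀ hδ] at h2
    linarith
  rw [← hw] at g1 g2 ⊢
  rw [pow_zero, mul_one] at g1 g2
  rw [one_mul] at g2
  obtain ⟨z, hz⟩ : ∃ z : ℕ, z = ⌈Real.exp w⌉₊ := ⟨_, rfl⟩
  obtain ⟨J, hJ⟩ : ∃ J : ℕ, J = ⌊w⌋₊ := ⟨_, rfl⟩
  rw [← hz, ← hJ]
  have hzl : Real.exp w ≤ z := by rw [hz]; exact Nat.le_ceil _
  have hJw : (J : ℝ) ≤ w := by rw [hJ]; exact Nat.floor_le hw0
  have hJw' : w < J + 1 := by rw [hJ]; exact Nat.lt_floor_add_one w
  have h2J : (2 : ℝ) ^ J ≤ Real.exp (7 / 10 * w) := by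
    have e1 : (2 : ℝ) ≤ Real.exp (7 / 10) := by
      have h1 := Real.log_two_lt_d9
      have h2 : Real.log 2 ≤ 7 / 10 := by linarith
      rwa [Real.log_le_iff_le_exp (by norm_num)] at h2
    calc (2 : ℝ) ^ J ≤ (Real.exp (7 / 10)) ^ J := pow_le_pow_left₀ (by norm_num) e1 J
      _ = Real.exp (J * (7 / 10)) := by rw [← Real.exp_nat_mul]
      _ ≤ Real.exp (7 / 10 * w) := Real.exp_le_exp.2 (by linarith)
  have hJz : 2 * (2 ^ J * |(c : ℝ)|) ≤ Real.exp w := by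
    calc 2 * (2 ^ J * |(c : ℝ)|) = 2 ^ J * (2 * |(c : ℝ)|) := by ring
      _ ≤ Real.exp (7 / 10 * w) * Real.exp (3 / 10 * w) := mul_le_mul h2J g1 (by positivity) (Real.exp_pos _).le
      _ = Real.exp w := by rw [← Real.exp_add]; ring_nf
  have hu : (N : ℝ) ^ δ = Real.exp (δ * L) := by
    rw [Real.rpow_def_of_pos hN0, ← hL, mul_comm]
  have hLu : L ^ (C + C + 2) ≤ (N : ℝ) ^ δ := g4
  have hL1 : 1 ≤ L := by linarith
  have hpow : ∀ k : ℕ, k ≤ C + C + 2 → L ^ k ≤ (N : ℝ) ^ δ := fun k hk => (pow_le_pow_right₀ hL1 hk).trans hLu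
  have hLu1 : L ^ 2 ≤ (N : ℝ) ^ δ := hpow 2 (by omega)
  have hzu : (z : ℝ) ≤ (N : ℝ) ^ δ := by
    have h1 : (z : ℝ) < Real.exp w + 1 := by rw [hz]; exact Nat.ceil_lt_add_one (Real.exp_pos _).le
    have h2 : Real.exp w + 1 ≤ Real.exp (2 * w) := by
      have e1 : 2 ≤ Real.exp w := by
        have := Real.add_one_le_exp w
        linarith
      have e2 : Real.exp w * Real.exp w = Real.exp (2 * w) := by rw [← Real.exp_add]; ring_nf
      nlinarith
    have h3 : Real.exp (2 * w) ≤ (N : ℝ) ^ δ := by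
      rw [hu, ← hwL]
      apply Real.exp_le_exp.2
      nlinarith
    linarith
  exact {
    u4 := by nlinarith
    gr := by
      calc (1 + Real.log N) ^ C ≤ (L ^ 2) ^ C := by
            apply pow_le_pow_left₀ (by rw [← hL]; linarith)
            rw [← hL]
            nlinarith
        _ = L ^ (C + C) := by rw [← pow_mul]; ring_nf
        _ ≤ _ := hpow _ (by omega)
    lg := by rw [← hL]; nlinarith
    Pz := by
      have : (P : ℝ) ≤ z := by linarith [abs_nonneg (c : ℝ)]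
      exact_mod_cast this
    cz := by
      have : (0 : ℝ) ≤ P := Nat.cast_nonneg _
      linarith
    Jz := by linarith
    Ju := by
      have : 0 ≤ 2 ^ J * |(c : ℝ)| := by positivity
      linarith
    Ku := by nlinarith
    Nz := by
      have h1 : (N : ℝ) < (((z + 1) ^ (J + 1) : ℕ) : ℝ) := by
        push_cast
        calc (N : ℝ) = Real.exp L := by rw [hL, Real.exp_log hN0]
          _ = Real.exp (w * w) := by rw [← hwL]; ring_nf
          _ ≤ Real.exp (((J + 1 : ℕ) : ℝ) * w) := by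
              apply Real.exp_le_exp.2
              push_cast
              exact mul_le_mul_of_nonneg_right hJw'.le hw0
          _ = (Real.exp w) ^ (J + 1) := by rw [← Real.exp_nat_mul]
          _ < ((z : ℝ) + 1) ^ (J + 1) := by
              apply pow_lt_pow_left₀ (by linarith) (Real.exp_pos _).le (by omega)
      exact_mod_cast h1
    N3 := by omega
    zu := hzu }

end Pool.Agent.U365.POW
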