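import Pool.Agent.U365.POW.H2

set_option autoImplicit false

/-! The divisors of the unexceptional integers without small prime factors. -/

namespace Pool.Agent.U365.POW

open Finset Filter Topology Pool.Agent.U365.AQG Pool.Agent.N733.TG

/-- the data -/
structure Ctx (f : ℕ → ℕ) (c : ℤ) (C P : ℕ) (K : ℝ) (N z J : ℕ) (u : ℝ) : Prop where
  hf : Moderate f c
  hc : c ≠ 0
  hgr : ∀ m : ℕ, 1 ≤ m → (f m : ℝ) ≤ m * (1 + Real.log m) ^ C
  hP : ∀ p : ℕ, P ≤ p → p.Prime → (f p : ℤ) = p + c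
  big : Big C P c K N z J u

lemma rough_facts {f : ℕ → ℕ} {c : ℤ} {C P : ℕ} {K : ℝ} {N z J : ℕ} {u : ℝ} (H : Ctx f c C P K N z J u)
    {m D q : ℕ} (hm1 : 1 ≤ m) (hmN : m ≤ N) (hE : ¬ Exc c z u m) (hD : D ∣ m) (hq : z < q)
    (hDq : ∀ p : ℕ, p.Prime → p ∣ D → q ≤ p) :
    |(f D : ℝ) - D| ≤ D * (u / q) ∧ (D : ℝ) ≤ 2 * f D ∧ Nat.Coprime D (f D) := by
  obtain ⟨u4, gr, lg, Pz, cz, Jz, Ju, Ku, Nz, N3, zu⟩ := H.big
  unfold Exc at hE
  push Not at hE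
  obtain ⟨-, hE2, hE3⟩ := hE
  have hD1 : 1 ≤ D := Nat.pos_of_dvd_of_pos hD hm1
  have hDN : D ≤ N := (Nat.le_of_dvd hm1 hD).trans hmN
  have hsq : Squarefree D := by
    rw [Nat.squarefree_iff_prime_squarefree]
    intro x hx hxx
    have h1 := hDq x hx ((Dvd.intro _ rfl).trans hxx)
    apply hE2 x hx (by omega)
    rw [pow_two]
    exact hxx.trans hD
  have hcard : D.primeFactors.card ≤ J := by
    by_contra hcon
    push Not at hcon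
    have h1 : (z + 1) ^ D.primeFactors.card ≤ ∏ p ∈ D.primeFactors, p := by
      rw [← prod_const]
      apply prod_le_prod (fun _ _ => Nat.zero_le _)
      intro p hp
      have := hDq p (Nat.prime_of_mem_primeFactors hp) (Nat.dvd_of_mem_primeFactors hp)
      omega
    rw [Nat.prod_primeFactors_of_squarefree hsq] at h1
    have h2 : (z + 1) ^ (J + 1) ≤ (z + 1) ^ D.primeFactors.card := Nat.pow_le_pow_right (by omega) hcon
    omega
  have hzq : (z : ℝ) ≤ q := by exact_mod_cast hq.le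
  have hcz' : |(c : ℝ)| ≤ q := by linarith
  have hq0 : (0 : ℝ) < q := by exact_mod_cast (by omega : 0 < q)
  have hvc := value_close H.hf H.hP (q := q) (J := J) (D := D) (by omega) (by omega) hcz' hsq hDq hcard
  have hD0 : (0 : ℝ) ≤ D := Nat.cast_nonneg _
  refine ⟨hvc.trans (mul_le_mul_of_nonneg_left (div_le_div_of_nonneg_right Ju hq0.le) hD0), ?_, ?_⟩
  · have h1 : 2 ^ J * |(c : ℝ)| / q ≤ 1 / 2 := by
      rw [div_le_div_iff₀ hq0 (by norm_num)]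
      linarith
    have h2 := hvc.trans (mul_le_mul_of_nonneg_left h1 hD0)
    have h3 := (abs_le.1 h2).1
    linarith
  · by_contra hcon
    obtain ⟨p, hp, hpD, hpf⟩ := Nat.Prime.not_coprime_iff_dvd.1 hcon
    rw [Moderate.sqf H.hf hsq, hp.prime.dvd_finsetProd_iff] at hpf
    obtain ⟨r, hr, hpr⟩ := hpf
    have hr' := Nat.prime_of_mem_primeFactors hr
    have hrD := Nat.dvd_of_mem_primeFactors hr
    have h1 := hDq p hp hpD
    have h2 := hDq r hr' hrD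
    have h3 := H.hP r (by omega) hr'
    have h4 : (p : ℤ) ∣ r + c := by
      rw [← h3]
      exact_mod_cast hpr
    rcases eq_or_ne p r with h | h
    · rw [h] at h4
      have h5 : (r : ℤ) ∣ c := (Int.dvd_add_right (dvd_refl _)).1 h4
      have h6 := Int.le_of_dvd (abs_pos.2 H.hc) ((dvd_abs _ _).2 h5)
      have h7 : (r : ℝ) ≤ |(c : ℝ)| := by exact_mod_cast h6
      have h8 : (z : ℝ) ≤ r := by exact_mod_cast (by omega : z ≤ r)
      linarith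
    · apply hE3 p r hp hr' (by omega) (by omega) _ h4
      refine (Nat.Coprime.mul_dvd_of_dvd_of_dvd ?_ hpD hrD).trans hD
      rwa [Nat.coprime_primes hp hr']

lemma sum_inv_sq (X Y : ℝ) (hX : 1 ≤ X) : ∑ D ∈ Ioc ⌊X⌋₊ ⌊Y⌋₊, (((D : ℕ) : ℝ) ^ 2)⁻¹ ≤ 2 / X := by
  have hX0 : 0 < X := by linarith
  have h1 : 1 ≤ ⌊X⌋₊ := Nat.le_floor (by exact_mod_cast hX)
  have h2 : X / 2 ≤ (⌊X⌋₊ : ℝ) := by
    have a := Nat.lt_floor_add_one X
    have b : (1 : ℝ) ≤ (⌊X⌋₊ : ℝ) := by exact_mod_cast h1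
    linarith
  rcases le_or_gt ⌊X⌋₊ ⌊Y⌋₊ with h | h
  · have := sum_Ioc_inv_sq_le_sub (α := ℝ) (k := ⌊X⌋₊) (n := ⌊Y⌋₊) (by omega) h
    have h3 : (0 : ℝ) ≤ ((⌊Y⌋₊ : ℕ) : ℝ)⁻¹ := by positivity
    have h4 : ((⌊X⌋₊ : ℕ) : ℝ)⁻¹ ≤ (X / 2)⁻¹ := inv_anti₀ (by positivity) h2
    have h5 : (X / 2)⁻¹ = 2 / X := by rw [inv_div]
    linarith
  · rw [Ioc_eq_empty (by omega), sum_empty]
    positivity

open Classical in
lemma fiber_div {f : ℕ → ℕ} {c : ℤ} {C P : ℕ} {K : ℝ} {N z J : ℕ} {u : ℝ} (H : Ctx f c C P K N z J u)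
    {α β n : ℤ} (hα : α ≠ 0) (hαu : |(α : ℝ)| ≤ u) (X Y : ℝ) (hX : 1 ≤ X) (hY : 0 ≤ Y) :
    (((Icc 1 N).filter (fun m => ¬ Exc c z u m ∧ α * m + β * f m = n ∧
      ∃ y : ℕ, z ≤ y ∧ X < (rp y m : ℝ) ∧ (rp y m : ℝ) ≤ Y)).card : ℝ) ≤ 4 * u * N / X + Y := by
  have u4 := H.big.u4
  have hN0 : (0 : ℝ) ≤ N := Nat.cast_nonneg _
  obtain ⟨W, hW⟩ : ∃ W : ℕ → Finset ℕ, W = fun D => (Icc 1 N).filter (fun m => ¬ Exc c z u m ∧
    α * m + β * f m = n ∧ ∃ y : ℕ, z ≤ y ∧ rp y m = D) := ⟨_, rfl⟩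
  have hsub : (Icc 1 N).filter (fun m => ¬ Exc c z u m ∧ α * m + β * f m = n ∧
      ∃ y : ℕ, z ≤ y ∧ X < (rp y m : ℝ) ∧ (rp y m : ℝ) ≤ Y) ⊆ (Ioc ⌊X⌋₊ ⌊Y⌋₊).biUnion W := by
    intro m hm
    rw [mem_filter] at hm
    obtain ⟨hmI, h1, h2, y, h3, h4, h5⟩ := hm
    rw [mem_biUnion]
    refine ⟨rp y m, mem_Ioc.2 ⟨?_, Nat.le_floor h5⟩, ?_⟩
    · exact (Nat.floor_lt (by linarith)).2 h4
    · rw [hW, mem_filter]
      exact ⟨hmI, h1, h2, y, h3, rfl⟩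
  have hterm : ∀ D ∈ Ioc ⌊X⌋₊ ⌊Y⌋₊, ((W D).card : ℝ) ≤ 2 * u * N * (((D : ℕ) : ℝ) ^ 2)⁻¹ + 1 := by
    intro D hD
    rw [mem_Ioc] at hD
    have hD1 : 1 ≤ D := by omega
    have hD0 : (0 : ℝ) < D := by exact_mod_cast hD1
    rcases (W D).eq_empty_or_nonempty with h0 | ⟨m0, hm0⟩
    · rw [h0, card_empty, Nat.cast_zero]
      positivity
    have hmem : ∀ m ∈ W D, (1 ≤ m ∧ m ≤ N) ∧ ¬ Exc c z u m ∧ α * m + β * f m = n ∧ ∃ y : ℕ, z ≤ y ∧ rp y m = D := by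
      intro m hm
      rw [hW, mem_filter, mem_Icc] at hm
      exact hm
    have hfac : ∀ m ∈ W D, D ∣ m ∧ f D ∣ f m := by
      intro m hm
      obtain ⟨⟨a1, a2⟩, -, -, y, -, a5⟩ := hmem m hm
      have e1 := sp_mul_rp y m (by omega)
      rw [a5] at e1
      refine ⟨⟨sp y m, by rw [mul_comm]; exact e1.symm⟩, ?_⟩
      have e2 := H.hf.mul (sp y m) D (by rw [← a5]; exact coprime_sp_rp y m)
      rw [e1] at e2
      rw [e2]
      exact Dvd.intro_left _ rfl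
    obtain ⟨⟨b1, b2⟩, b3, -, y0, b4, b5⟩ := hmem m0 hm0
    obtain ⟨-, r2, r3⟩ := rough_facts H (q := z + 1) b1 b2 b3 (hfac m0 hm0).1 (by omega) (by
      intro p hp hpD
      rw [← b5] at hpD
      have := lt_of_dvd_rp hp hpD
      omega)
    have hfD : 1 ≤ f D := H.hf.pos D hD1
    have hcc := cong_count ((W D).image (fun m => m / D)) (α * D) (f D) ⌊u⌋₊ ((N : ℝ) / D) hfD (by
      rw [Int.gcd, Int.natAbs_mul, Int.natAbs_natCast, Int.natAbs_natCast, Nat.Coprime.gcd_mul_right_cancel _ r3]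
      have h1 : 0 < α.natAbs := Int.natAbs_pos.2 hα
      refine (Nat.gcd_le_left _ h1).trans (Nat.le_floor ?_)
      rwa [Nat.cast_natAbs, Int.cast_abs]) (by positivity) (by
      intro x hx y hy
      rw [mem_image] at hx hy
      obtain ⟨m, hm, rfl⟩ := hx
      obtain ⟨m', hm', rfl⟩ := hy
      obtain ⟨⟨a1, a2⟩, -, a4, -⟩ := hmem m hm
      obtain ⟨⟨a1', a2'⟩, -, a4', -⟩ := hmem m' hm'
      obtain ⟨⟨e, he⟩, g, hg⟩ := hfac m hm
      obtain ⟨⟨e', he'⟩, g', hg'⟩ := hfac m' hm'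
      have hd : m / D = e := by rw [he]; exact Nat.mul_div_cancel_left e hD1
      have hd' : m' / D = e' := by rw [he']; exact Nat.mul_div_cancel_left e' hD1
      rw [hd, hd']
      constructor
      · rw [le_div_iff₀ hD0]
        have h1 : (e : ℝ) * D ≤ N := by
          have : ((D * e : ℕ) : ℝ) ≤ N := by exact_mod_cast (he ▸ a2)
          push_cast at this
          linarith
        have h2 : 0 ≤ (e' : ℝ) * D := by positivity
        linarith [sub_mul (e : ℝ) e' D]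
      · refine ⟨β * (g' - g), ?_⟩
        have k1 : (α : ℤ) * ((D * e : ℕ) : ℤ) + β * ((f D * g : ℕ) : ℤ) = n := by rw [← he, ← hg]; exact a4
        have k2 : (α : ℤ) * ((D * e' : ℕ) : ℤ) + β * ((f D * g' : ℕ) : ℤ) = n := by rw [← he', ← hg']; exact a4'
        push_cast at k1 k2
        linear_combination k1 - k2)
    rw [card_image_of_injOn (by
      intro m hm m' hm' h
      simp only at h
      obtain ⟨e, he⟩ := (hfac m hm).1
      obtain ⟨e', he'⟩ := (hfac m' hm').1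
      rw [he, he', Nat.mul_div_cancel_left e hD1, Nat.mul_div_cancel_left e' hD1] at h
      rw [he, he', h])] at hcc
    refine hcc.trans ?_
    have hf0 : (0 : ℝ) < f D := by exact_mod_cast hfD
    have h5 : ((⌊u⌋₊ : ℕ) : ℝ) ≤ u := Nat.floor_le (by linarith)
    have h6 : (N : ℝ) / D * (⌊u⌋₊ : ℕ) / f D ≤ 2 * u * N * (((D : ℕ) : ℝ) ^ 2)⁻¹ := by
      have h7 : (f D : ℝ)⁻¹ ≤ 2 * (D : ℝ)⁻¹ := by
        rw [show 2 * (D : ℝ)⁻¹ = ((D : ℝ) / 2)⁻¹ by rw [inv_div, div_eq_mul_inv]]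
        exact inv_anti₀ (by positivity) (by linarith)
      calc (N : ℝ) / D * (⌊u⌋₊ : ℕ) / f D = (N / D * (⌊u⌋₊ : ℕ)) * (f D : ℝ)⁻¹ := by rw [div_eq_mul_inv _ (f D : ℝ)]
        _ ≤ (N / D * u) * (2 * (D : ℝ)⁻¹) := by
            apply mul_le_mul (mul_le_mul_of_nonneg_left h5 (by positivity)) h7 (by positivity) (by positivity)
        _ = 2 * u * N * (((D : ℕ) : ℝ) ^ 2)⁻¹ := by
            field_simp
    linarith
  calc _ ≤ ∑ D ∈ Ioc ⌊X⌋₊ ⌊Y⌋₊, ((W D).card : ℝ) := by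
        have h1 := (card_le_card hsub).trans card_biUnion_le
        exact_mod_cast h1
    _ ≤ ∑ D ∈ Ioc ⌊X⌋₊ ⌊Y⌋₊, (2 * u * N * (((D : ℕ) : ℝ) ^ 2)⁻¹ + 1) := sum_le_sum hterm
    _ = 2 * u * N * ∑ D ∈ Ioc ⌊X⌋₊ ⌊Y⌋₊, (((D : ℕ) : ℝ) ^ 2)⁻¹ + (Ioc ⌊X⌋₊ ⌊Y⌋₊).card := by
        rw [sum_add_distrib, ← mul_sum, sum_const, nsmul_eq_mul, mul_one]
    _ ≤ 2 * u * N * (2 / X) + Y := by
        apply add_le_add (mul_le_mul_of_nonneg_left (sum_inv_sq X Y hX) (by positivity))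
        rw [Nat.card_Ioc]
        calc ((⌊Y⌋₊ - ⌊X⌋₊ : ℕ) : ℝ) ≤ ((⌊Y⌋₊ : ℕ) : ℝ) := by exact_mod_cast Nat.sub_le _ _
          _ ≤ Y := Nat.floor_le hY
    _ = 4 * u * N / X + Y := by ring

end Pool.Agent.U365.POW
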