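import Pool.Agent.U365.POW.H3

set_option autoImplicit false

/-! The fibres with a divisor just above a large size. -/

namespace Pool.Agent.U365.POW

open Finset Filter Topology Pool.Agent.U365.AQG Pool.Agent.N733.TG

open Classical in
lemma fiber_cut {f : ℕ → ℕ} {c : ℤ} {C P : ℕ} {K : ℝ} {N z J : ℕ} {u : ℝ} (H : Ctx f c C P K N z J u)
    {α β n : ℤ} (hα : α ≠ 0) (hαu : |(α : ℝ)| ≤ u) (hβu : |(β : ℝ)| ≤ u) (hn : (N : ℝ) / u ≤ n)
    (Y : ℝ) (hY : 1 ≤ Y) (hYN : 2 * u ^ 8 * Y ^ 2 ≤ N) :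
    (((Icc 1 N).filter (fun m => ¬ Exc c z u m ∧ α * m + β * f m = n ∧
      ∃ q : ℕ, q.Prime ∧ z < q ∧ (sp (q - 1) m : ℝ) ≤ Y ∧ (N : ℝ) ≤ Y * u ^ 4 * (sp (q - 1) m * q))).card : ℝ) ≤
      u ^ 14 * Y := by
  have u4 := H.big.u4
  have hu0 : 0 < u := by linarith
  have hu1 : 1 ≤ u := by linarith
  have hN3 := H.big.N3
  have hN0 : (0 : ℝ) < N := by exact_mod_cast (by omega : 0 < N)
  have hY0 : 0 < Y := by linarith
  have hYN1 : Y ≤ N := by
    have h1 : (1 : ℝ) ≤ u ^ 8 := one_le_pow₀ hu1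
    have h2 : Y ≤ Y ^ 2 := by nlinarith
    nlinarith [sq_nonneg Y]
  obtain ⟨W, hW⟩ : ∃ W : ℕ → Finset ℕ, W = fun R => (Icc 1 N).filter (fun m => ¬ Exc c z u m ∧
    α * m + β * f m = n ∧ ∃ q : ℕ, q.Prime ∧ z < q ∧ sp (q - 1) m = R ∧ (N : ℝ) ≤ Y * u ^ 4 * (R * q)) := ⟨_, rfl⟩
  have hsub : (Icc 1 N).filter (fun m => ¬ Exc c z u m ∧ α * m + β * f m = n ∧
      ∃ q : ℕ, q.Prime ∧ z < q ∧ (sp (q - 1) m : ℝ) ≤ Y ∧ (N : ℝ) ≤ Y * u ^ 4 * (sp (q - 1) m * q)) ⊆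
      (Icc 1 ⌊Y⌋₊).biUnion W := by
    intro m hm
    rw [mem_filter] at hm
    obtain ⟨hmI, h1, h2, q, h3, h4, h5, h6⟩ := hm
    rw [mem_biUnion]
    refine ⟨sp (q - 1) m, mem_Icc.2 ⟨sp_pos _ _, Nat.le_floor h5⟩, ?_⟩
    rw [hW, mem_filter]
    exact ⟨hmI, h1, h2, q, h3, h4, rfl, h6⟩
  have hterm : ∀ R ∈ Icc 1 ⌊Y⌋₊, ((W R).card : ℝ) ≤ 8 * u ^ 11 * Y * (R : ℝ)⁻¹ + 1 := by
    intro R hR
    rw [mem_Icc] at hR
    have hR1 := hR.1
    have hR0 : (0 : ℝ) < R := by exact_mod_cast hR1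
    have hRY : (R : ℝ) ≤ Y := (Nat.le_floor_iff hY0.le).1 hR.2
    have hRN : (R : ℝ) ≤ N := hRY.trans hYN1
    rcases (W R).eq_empty_or_nonempty with h0 | ⟨m0, hm0⟩
    · rw [h0, card_empty, Nat.cast_zero]
      positivity
    have hmem : ∀ m ∈ W R, (1 ≤ m ∧ m ≤ N) ∧ ¬ Exc c z u m ∧ α * m + β * f m = n ∧
        ∃ q : ℕ, q.Prime ∧ z < q ∧ sp (q - 1) m = R ∧ (N : ℝ) ≤ Y * u ^ 4 * (R * q) := by
      intro m hm
      rw [hW, mem_filter, mem_Icc] at hm
      exact hm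
    -- the factorisation
    have hfac : ∀ m ∈ W R, ∃ D q : ℕ, m = R * D ∧ f m = f R * f D ∧ z < q ∧ 1 ≤ D ∧
        (N : ℝ) ≤ Y * u ^ 4 * (R * q) ∧ (∀ p : ℕ, p.Prime → p ∣ D → q ≤ p) := by
      intro m hm
      obtain ⟨⟨a1, a2⟩, -, -, q, a4, a5, a6, a7⟩ := hmem m hm
      have e1 := sp_mul_rp (q - 1) m (by omega)
      have e2 := H.hf.mul (sp (q - 1) m) (rp (q - 1) m) (coprime_sp_rp _ _)
      rw [e1] at e2
      rw [a6] at e1 e2
      refine ⟨rp (q - 1) m, q, e1.symm, e2, a5, rp_pos _ _, a7, fun p hp hpD => ?_⟩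
      have := lt_of_dvd_rp hp hpD
      omega
    -- the growth of `f R`
    have hfR : (f R : ℝ) ≤ R * u := by
      refine (H.hgr R hR1).trans (mul_le_mul_of_nonneg_left ?_ hR0.le)
      refine le_trans ?_ H.big.gr
      apply pow_le_pow_left₀
      · have := Real.log_nonneg (show (1 : ℝ) ≤ R by exact_mod_cast hR1)
        linarith
      · have := Real.log_le_log hR0 hRN
        linarith
    have hfR0 : (0 : ℝ) ≤ f R := Nat.cast_nonneg _
    obtain ⟨A, hA⟩ : ∃ A : ℝ, A = α * R + β * f R := ⟨_, rfl⟩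
    obtain ⟨E, hE⟩ : ∃ E : ℝ, E = u ^ 7 * Y * R := ⟨_, rfl⟩
    have hclose : ∀ D q : ℕ, R * D ∈ W R → f (R * D) = f R * f D → z < q → 1 ≤ D → (N : ℝ) ≤ Y * u ^ 4 * (R * q) →
        (∀ p : ℕ, p.Prime → p ∣ D → q ≤ p) → |(n : ℝ) - A * D| ≤ E := by
      intro D q hm hfm hzq hD1 hNq hDq
      obtain ⟨⟨a1, a2⟩, a3, a4, -⟩ := hmem _ hm
      obtain ⟨r1, -, -⟩ := rough_facts H a1 a2 a3 (Dvd.intro_left _ rfl) hzq hDq
      have hD0 : (0 : ℝ) < D := by exact_mod_cast hD1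
      have hq0 : (0 : ℝ) < q := by exact_mod_cast (by omega : 0 < q)
      have e1 : (n : ℝ) - A * D = β * f R * (f D - D) := by
        have a5 : (α : ℝ) * (((R * D : ℕ) : ℝ)) + β * ((f (R * D) : ℕ) : ℝ) = n := by exact_mod_cast a4
        rw [hfm] at a5
        push_cast at a5
        rw [hA, ← a5]
        ring
      have hRD : (R : ℝ) * D ≤ N := by exact_mod_cast a2
      rw [e1, abs_mul, abs_mul, abs_of_nonneg hfR0]
      calc |(β : ℝ)| * f R * |(f D : ℝ) - D| ≤ u * (R * u) * (D * (u / q)) := by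
            apply mul_le_mul _ r1 (abs_nonneg _) (by positivity)
            exact mul_le_mul hβu hfR hfR0 hu0.le
        _ = u ^ 3 * (R * D) / q := by
            field_simp
        _ ≤ u ^ 3 * N / q := by
            apply div_le_div_of_nonneg_right _ hq0.le
            exact mul_le_mul_of_nonneg_left hRD (by positivity)
        _ ≤ u ^ 3 * (Y * u ^ 4 * (R * q)) / q := by
            apply div_le_div_of_nonneg_right _ hq0.le
            exact mul_le_mul_of_nonneg_left hNq (by positivity)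
        _ = E := by
            rw [hE]
            field_simp
    have hE2 : E ≤ N / (2 * u) := by
      rw [hE, le_div_iff₀ (by positivity)]
      calc u ^ 7 * Y * R * (2 * u) = 2 * u ^ 8 * Y * R := by ring
        _ ≤ 2 * u ^ 8 * Y * Y := mul_le_mul_of_nonneg_left hRY (by positivity)
        _ = 2 * u ^ 8 * Y ^ 2 := by ring
        _ ≤ N := hYN
    have hE0 : 0 ≤ E := by rw [hE]; positivity
    -- the size of A
    have hAlow : (R : ℝ) / (2 * u) ≤ A := by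
      obtain ⟨D, q, e1, e2, e3, e4, e5, e6⟩ := hfac m0 hm0
      have hm0' : R * D ∈ W R := e1 ▸ hm0
      have h1 := hclose D q hm0' (e1 ▸ e2) e3 e4 e5 e6
      obtain ⟨⟨a1, a2⟩, -⟩ := hmem _ hm0'
      have hD0 : (0 : ℝ) < D := by exact_mod_cast e4
      have hRD : (R : ℝ) * D ≤ N := by exact_mod_cast a2
      have h2 := (abs_le.1 h1).2
      have h3 : (N : ℝ) / (2 * u) ≤ A * D := by
        have h4 : (N : ℝ) / u = N / (2 * u) + N / (2 * u) := by
          field_simp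
          ring
        linarith
      rw [div_le_iff₀ (by positivity)] at h3 ⊢
      -- R D ≤ N ≤ A D 2u
      have h5 : (R : ℝ) * D ≤ A * (2 * u) * D := by linarith [mul_right_comm A (D : ℝ) (2 * u)]
      exact le_of_mul_le_mul_right h5 hD0
    have hA0 : 0 < A := lt_of_lt_of_le (by positivity) hAlow
    -- the modulus
    obtain ⟨⟨b1, b2⟩, b3, -⟩ := hmem m0 hm0
    obtain ⟨D0, q0, d1, -, -, d2, -, -⟩ := hfac m0 hm0
    have hRm0 : R ∣ m0 := ⟨D0, d1⟩
    have hrR : rp z R ∣ R := rp_dvd (by omega)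
    obtain ⟨-, r2, r3⟩ := rough_facts H (q := z + 1) b1 b2 b3 (hrR.trans hRm0) (by omega) (by
      intro p hp hpD
      have := lt_of_dvd_rp hp hpD
      omega)
    have hspz : (sp z R : ℝ) ≤ u := by
      have h1 := sp_le_of_dvd (z := z) (by omega) (by omega : m0 ≠ 0) hRm0
      have h2 : (sp z m0 : ℝ) ≤ u := by
        unfold Exc at b3
        push Not at b3
        exact b3.1
      exact (Nat.cast_le.2 h1).trans h2
    obtain ⟨M, hM⟩ : ∃ M, M = f (rp z R) := ⟨_, rfl⟩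
    rw [← hM] at r2 r3
    have hM1 : 1 ≤ M := by rw [hM]; exact H.hf.pos _ (rp_pos _ _)
    have hM0 : (0 : ℝ) < M := by exact_mod_cast hM1
    have hfRM : M ∣ f R := by
      have e2 := H.hf.mul (sp z R) (rp z R) (coprime_sp_rp _ _)
      rw [sp_mul_rp z R (by omega)] at e2
      rw [hM, e2]
      exact Dvd.intro_left _ rfl
    have hsr : (sp z R : ℝ) * rp z R = R := by exact_mod_cast sp_mul_rp z R (by omega)
    have hMlow : (R : ℝ) ≤ 2 * u * M := by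
      rw [← hsr]
      calc (sp z R : ℝ) * rp z R ≤ u * (2 * M) := mul_le_mul hspz r2 (Nat.cast_nonneg _) hu0.le
        _ = 2 * u * M := by ring
    have hcc := cong_count ((W R).image (fun m => m / R)) (α * R) M ⌊u ^ 2⌋₊ (4 * u ^ 8 * Y) hM1 (by
      rw [Int.gcd, Int.natAbs_mul, Int.natAbs_natCast, Int.natAbs_natCast]
      have h1 : α.natAbs * R = α.natAbs * sp z R * rp z R := by
        rw [mul_assoc, sp_mul_rp z R (by omega)]
      rw [h1, Nat.Coprime.gcd_mul_right_cancel _ r3]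
      have h2 : 0 < α.natAbs := Int.natAbs_pos.2 hα
      refine (Nat.gcd_le_left _ (Nat.mul_pos h2 (sp_pos _ _))).trans (Nat.le_floor ?_)
      push_cast
      rw [Nat.cast_natAbs, Int.cast_abs, pow_two]
      exact mul_le_mul hαu hspz (Nat.cast_nonneg _) hu0.le) (by positivity) (by
      intro x hx y hy
      rw [mem_image] at hx hy
      obtain ⟨m, hm, rfl⟩ := hx
      obtain ⟨m', hm', rfl⟩ := hy
      obtain ⟨D, q, e1, e2, e3, e4, e5, e6⟩ := hfac m hm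
      obtain ⟨D', q', e1', e2', e3', e4', e5', e6'⟩ := hfac m' hm'
      have hd : m / R = D := by rw [e1]; exact Nat.mul_div_cancel_left D hR1
      have hd' : m' / R = D' := by rw [e1']; exact Nat.mul_div_cancel_left D' hR1
      rw [hd, hd']
      have h1 := hclose D q (e1 ▸ hm) (e1 ▸ e2) e3 e4 e5 e6
      have h2 := hclose D' q' (e1' ▸ hm') (e1' ▸ e2') e3' e4' e5' e6'
      constructor
      · have h3 := (abs_le.1 h1).1
        have h4 := (abs_le.1 h2).2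
        have h5 : A * ((D : ℝ) - D') ≤ 2 * E := by linarith [mul_sub A (D : ℝ) D']
        have h6 : (D : ℝ) - D' ≤ 2 * E / A := by
          rw [le_div_iff₀ hA0]
          linarith
        refine h6.trans ?_
        rw [div_le_iff₀ hA0]
        calc 2 * E = 4 * u ^ 8 * Y * (R / (2 * u)) := by
              rw [hE]
              field_simp
              ring
          _ ≤ 4 * u ^ 8 * Y * A := mul_le_mul_of_nonneg_left hAlow (by positivity)
      · obtain ⟨w, hw⟩ := hfRM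
        refine ⟨β * w * (f D' - f D), ?_⟩
        have k1 := (hmem m hm).2.2.1
        have k2 := (hmem m' hm').2.2.1
        rw [e2, e1, hw] at k1
        rw [e2', e1', hw] at k2
        push_cast at k1 k2
        linear_combination k1 - k2)
    rw [card_image_of_injOn (by
      intro m hm m' hm' h
      simp only at h
      obtain ⟨D, q, e1, -⟩ := hfac m hm
      obtain ⟨D', q', e1', -⟩ := hfac m' hm'
      rw [e1, e1', Nat.mul_div_cancel_left D hR1, Nat.mul_div_cancel_left D' hR1] at h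
      rw [e1, e1', h])] at hcc
    refine hcc.trans ?_
    have h5 : ((⌊u ^ 2⌋₊ : ℕ) : ℝ) ≤ u ^ 2 := Nat.floor_le (by positivity)
    have h6 : (4 * u ^ 8 * Y) * (⌊u ^ 2⌋₊ : ℕ) / M ≤ 8 * u ^ 11 * Y * (R : ℝ)⁻¹ := by
      have h7 : (M : ℝ)⁻¹ ≤ 2 * u * (R : ℝ)⁻¹ := by
        rw [show 2 * u * (R : ℝ)⁻¹ = ((R : ℝ) / (2 * u))⁻¹ by rw [inv_div, div_eq_mul_inv]]
        apply inv_anti₀ (by positivity)
        rw [div_le_iff₀ (by positivity)]
        linarith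
      calc (4 * u ^ 8 * Y) * (⌊u ^ 2⌋₊ : ℕ) / M = (4 * u ^ 8 * Y) * (⌊u ^ 2⌋₊ : ℕ) * (M : ℝ)⁻¹ := by
            rw [div_eq_mul_inv _ (M : ℝ)]
        _ ≤ (4 * u ^ 8 * Y) * u ^ 2 * (2 * u * (R : ℝ)⁻¹) := by
            apply mul_le_mul (mul_le_mul_of_nonneg_left h5 (by positivity)) h7 (by positivity) (by positivity)
        _ = 8 * u ^ 11 * Y * (R : ℝ)⁻¹ := by ring
    linarith
  have hfl : ((⌊Y⌋₊ : ℕ) : ℝ) ≤ Y := Nat.floor_le hY0.le
  have hharm : ∑ R ∈ Icc 1 ⌊Y⌋₊, (R : ℝ)⁻¹ ≤ u := by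
    have h1 := harmonic_le_one_add_log ⌊Y⌋₊
    rw [harmonic_eq_sum_Icc] at h1
    push_cast at h1
    have h2 : (1 : ℝ) ≤ ((⌊Y⌋₊ : ℕ) : ℝ) := by exact_mod_cast Nat.le_floor (by exact_mod_cast hY)
    have h3 := Real.log_le_log (by linarith) (hfl.trans hYN1)
    have := H.big.lg
    linarith
  calc _ ≤ ∑ R ∈ Icc 1 ⌊Y⌋₊, ((W R).card : ℝ) := by
        have h1 := (card_le_card hsub).trans card_biUnion_le
        exact_mod_cast h1
    _ ≤ ∑ R ∈ Icc 1 ⌊Y⌋₊, (8 * u ^ 11 * Y * (R : ℝ)⁻¹ + 1) := sum_le_sum hterm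
    _ = 8 * u ^ 11 * Y * ∑ R ∈ Icc 1 ⌊Y⌋₊, (R : ℝ)⁻¹ + (⌊Y⌋₊ : ℕ) := by
        rw [sum_add_distrib, ← mul_sum, sum_const, nsmul_eq_mul, mul_one, Nat.card_Icc, Nat.add_sub_cancel]
    _ ≤ 8 * u ^ 11 * Y * u + Y := add_le_add (mul_le_mul_of_nonneg_left hharm (by positivity)) hfl
    _ ≤ u ^ 14 * Y := by
        have h1 : (1 : ℝ) ≤ u ^ 12 := one_le_pow₀ hu1
        have h2 : (16 : ℝ) ≤ u ^ 2 := by nlinarith
        have h3 : 8 * u ^ 11 * Y * u + Y ≤ 9 * u ^ 12 * Y := by nlinarith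
        have h4 : 9 * u ^ 12 * Y ≤ u ^ 2 * (u ^ 12 * Y) := by
          have : 0 ≤ u ^ 12 * Y := by positivity
          nlinarith
        calc _ ≤ 9 * u ^ 12 * Y := h3
          _ ≤ u ^ 2 * (u ^ 12 * Y) := h4
          _ = u ^ 14 * Y := by ring

end Pool.Agent.U365.POW
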