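import Pool.Agent.U365.POW.H4

set_option autoImplicit false

/-! Sets with fewer than `X^(1/2-ε)` elements up to `X` are avoided by the values at almost all integers. -/

namespace Pool.Agent.U365.POW

open Finset Filter Topology Pool.Agent.U365.AQG Pool.Agent.N733.TG

/-- every unexceptional integer belongs to one of the two fibres -/
lemma cases_cut {f : ℕ → ℕ} {c : ℤ} {C P : ℕ} {K : ℝ} {N z J : ℕ} {u : ℝ} (H : Ctx f c C P K N z J u)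
    {α β : ℤ} {m : ℕ} (hm1 : 1 ≤ m) (hmN : m ≤ N) (hE : ¬ Exc c z u m) (hαu : |(α : ℝ)| ≤ u) (hβu : |(β : ℝ)| ≤ u)
    (hn : (N : ℝ) / u ≤ ((α * m + β * f m : ℤ) : ℝ)) {T : ℝ} (hT : 1 ≤ T) (hTN : 2 * u ^ 4 * T < N) :
    ((α * m + β * f m : ℤ) : ℝ) ≤ 2 * u ^ 2 * N ∧
    ((∃ y : ℕ, z ≤ y ∧ T < (rp y m : ℝ) ∧ (rp y m : ℝ) ≤ N / T) ∨
      ∃ q : ℕ, q.Prime ∧ z < q ∧ (sp (q - 1) m : ℝ) ≤ T ∧ (N : ℝ) ≤ T * u ^ 4 * (sp (q - 1) m * q)) := by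
  have u4 := H.big.u4
  have hu0 : 0 < u := by linarith
  have hu1 : 1 ≤ u := by linarith
  have hm0 : (0 : ℝ) < m := by exact_mod_cast hm1
  have hmN' : (m : ℝ) ≤ N := by exact_mod_cast hmN
  have hN0 : (0 : ℝ) < N := by linarith
  have hT0 : 0 < T := by linarith
  have hfm : (f m : ℝ) ≤ m * u := by
    refine (H.hgr m hm1).trans (mul_le_mul_of_nonneg_left ?_ hm0.le)
    refine le_trans ?_ H.big.gr
    apply pow_le_pow_left₀
    · have := Real.log_nonneg (show (1 : ℝ) ≤ m by exact_mod_cast hm1)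
      linarith
    · have := Real.log_le_log hm0 hmN'
      linarith
  have hval : ((α * m + β * f m : ℤ) : ℝ) ≤ 2 * u ^ 2 * m := by
    push_cast
    have h1 : (α : ℝ) * m ≤ u * m := mul_le_mul_of_nonneg_right ((le_abs_self _).trans hαu) hm0.le
    have h2 : (β : ℝ) * f m ≤ u * (m * u) :=
      calc (β : ℝ) * f m ≤ u * f m := mul_le_mul_of_nonneg_right ((le_abs_self _).trans hβu) (Nat.cast_nonneg _)
        _ ≤ u * (m * u) := mul_le_mul_of_nonneg_left hfm hu0.le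
    have h3 : u * m ≤ u ^ 2 * m := by
      apply mul_le_mul_of_nonneg_right _ hm0.le
      nlinarith
    nlinarith
  have hmlow : (N : ℝ) ≤ 2 * u ^ 3 * m := by
    have h1 := hn.trans hval
    rw [div_le_iff₀ hu0] at h1
    calc (N : ℝ) ≤ 2 * u ^ 2 * m * u := h1
      _ = 2 * u ^ 3 * m := by ring
  refine ⟨hval.trans (mul_le_mul_of_nonneg_left hmN' (by positivity)), ?_⟩
  unfold Exc at hE
  push Not at hE
  obtain ⟨hE1, hE2, -⟩ := hE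
  have hsr : (sp z m : ℝ) * rp z m = m := by exact_mod_cast sp_mul_rp z m (by omega)
  have hbig : T < rp z m := by
    have h1 : (m : ℝ) ≤ u * rp z m := by
      rw [← hsr]
      exact mul_le_mul_of_nonneg_right hE1 (Nat.cast_nonneg _)
    have h2 : 2 * u ^ 4 * T < 2 * u ^ 4 * rp z m := by
      calc 2 * u ^ 4 * T < N := hTN
        _ ≤ 2 * u ^ 3 * m := hmlow
        _ ≤ 2 * u ^ 3 * (u * rp z m) := mul_le_mul_of_nonneg_left h1 (by positivity)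
        _ = 2 * u ^ 4 * rp z m := by ring
    exact lt_of_mul_lt_mul_left h2 (by positivity)
  obtain ⟨q, hq, hzq, hqm, g1, g2, g3⟩ := exists_cut hT hmN hm1 hbig (fun p hp hzp => hE2 p hp hzp)
  rcases le_or_gt ((rp (q - 1) m : ℕ) : ℝ) (N / T) with h | h
  · exact Or.inl ⟨q - 1, by omega, g2, h⟩
  · right
    refine ⟨q, hq, hzq, ?_, ?_⟩
    · have h1 : (sp (q - 1) m : ℝ) * rp (q - 1) m = m := by exact_mod_cast sp_mul_rp (q - 1) m (by omega)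
      rw [div_lt_iff₀ hT0] at h
      have h2 : (0 : ℝ) < rp (q - 1) m := by exact_mod_cast rp_pos _ _
      have h3 : (sp (q - 1) m : ℝ) * rp (q - 1) m ≤ T * rp (q - 1) m := by linarith
      exact le_of_mul_le_mul_right h3 h2
    · have h1 : (sp (q - 1) m : ℝ) * (rp q m * q) = m := by
        have := sp_mul_rp (q - 1) m (by omega)
        rw [g3] at this
        exact_mod_cast this
      have hq0 : (0 : ℝ) < q := by exact_mod_cast hq.pos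
      have hs0 : (0 : ℝ) < sp (q - 1) m := by exact_mod_cast sp_pos _ _
      calc (N : ℝ) ≤ 2 * u ^ 3 * m := hmlow
        _ = 2 * u ^ 3 * ((sp (q - 1) m * q) * rp q m) := by rw [← h1]; ring
        _ ≤ 2 * u ^ 3 * ((sp (q - 1) m * q) * T) := by
            apply mul_le_mul_of_nonneg_left _ (by positivity)
            exact mul_le_mul_of_nonneg_left g1 (by positivity)
        _ ≤ u ^ 4 * ((sp (q - 1) m * q) * T) := by
            apply mul_le_mul_of_nonneg_right _ (by positivity)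
            nlinarith [pow_pos hu0 3]
        _ = T * u ^ 4 * (sp (q - 1) m * q) := by ring

open Classical in
theorem avoid_all {f : ℕ → ℕ} {c : ℤ} (hf : Moderate f c) (hc : c ≠ 0) {θ ρ : ℝ} (hθ0 : 0 ≤ θ) (hρ0 : 0 < ρ)
    (hρ : θ + 2 * ρ ≤ 1 / 2) (K : ℝ) (A : ℕ) : ∃ N₀ : ℕ, ∀ N : ℕ, N₀ ≤ N → ∀ S : Set ℕ,
      (∀ X : ℕ, 1 ≤ X → (((Icc 1 X).filter (fun t => t ∈ S)).card : ℝ) ≤ K * (X : ℝ) ^ θ) →
      (((Icc 1 N).filter (fun m => ∃ α β : ℤ, α ≠ 0 ∧ |(α : ℝ)| ≤ (N : ℝ) ^ (ρ / 100) ∧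
        |(β : ℝ)| ≤ (N : ℝ) ^ (ρ / 100) ∧ (N : ℝ) ^ (1 - ρ / 100) ≤ ((α * m + β * f m : ℤ) : ℝ) ∧
        (α * m + β * f m).toNat ∈ S)).card : ℝ) ≤ N / Real.log N ^ A := by
  obtain ⟨P, hP⟩ := hf.prime
  obtain ⟨C, hC⟩ := hf.growth
  obtain ⟨N1, hN1⟩ := few_exc c (ρ / 100) (by positivity) (A + 1)
  obtain ⟨N2, hN2⟩ := setup C P c K (ρ / 100) (by positivity)
  obtain ⟨x3, hx3⟩ := eventually_atTop.1 (Pool.Agent.R460.GS.real_log (A + 1) (s := ρ / 2) (by positivity) 2)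
  obtain ⟨n3, hn3⟩ := exists_nat_ge x3
  refine ⟨N1 + N2 + n3, fun N hN S hS => ?_⟩
  have hexc := hN1 N (by omega)
  have hbig := hN2 N (by omega)
  obtain ⟨hL2, hLp⟩ := hx3 N (hn3.trans (by exact_mod_cast (by omega : n3 ≤ N)))
  obtain ⟨z, hz⟩ : ∃ z : ℕ, z = ⌈Real.exp (√(Real.log N))⌉₊ := ⟨_, rfl⟩
  obtain ⟨J, hJ⟩ : ∃ J : ℕ, J = ⌊√(Real.log N)⌋₊ := ⟨_, rfl⟩
  obtain ⟨u, hu⟩ : ∃ u : ℝ, u = (N : ℝ) ^ (ρ / 100) := ⟨_, rfl⟩
  rw [← hz, ← hu] at hexc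
  rw [← hz, ← hu, ← hJ] at hbig
  have H : Ctx f c C P K N z J u := ⟨hf, hc, hC, hP, hbig⟩
  have u4 := hbig.u4
  have hu0 : 0 < u := by linarith
  have hu1 : 1 ≤ u := by linarith
  have hN3 := hbig.N3
  have hN1' : (1 : ℝ) ≤ N := by exact_mod_cast (by omega : 1 ≤ N)
  have hN0 : (0 : ℝ) < N := by linarith
  obtain ⟨T, hT⟩ : ∃ T : ℝ, T = (N : ℝ) ^ (θ + ρ) := ⟨_, rfl⟩
  have hT1 : 1 ≤ T := by rw [hT]; exact Real.one_le_rpow hN1' (by linarith)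
  have hT0 : 0 < T := by linarith
  have hupow : ∀ k : ℕ, u ^ k = (N : ℝ) ^ (k * (ρ / 100)) := fun k => by
    rw [hu, ← Real.rpow_natCast, ← Real.rpow_mul hN0.le, mul_comm]
  have hmono : ∀ a b : ℝ, a ≤ b → (N : ℝ) ^ a ≤ (N : ℝ) ^ b := fun a b h => Real.rpow_le_rpow_of_exponent_le hN1' h
  have hYN : 2 * u ^ 8 * T ^ 2 ≤ N := by
    calc 2 * u ^ 8 * T ^ 2 ≤ u ^ 9 * T ^ 2 := by
          apply mul_le_mul_of_nonneg_right _ (by positivity)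
          nlinarith [pow_pos hu0 8]
      _ = (N : ℝ) ^ (((9 : ℕ) : ℝ) * (ρ / 100) + (θ + ρ) * 2) := by
          rw [hupow, Real.rpow_add hN0, hT, ← Real.rpow_natCast ((N : ℝ) ^ (θ + ρ)), ← Real.rpow_mul hN0.le]
          push_cast
          rfl
      _ ≤ (N : ℝ) ^ (1 : ℝ) := hmono _ _ (by push_cast; linarith)
      _ = N := Real.rpow_one _
  have hTN : 2 * u ^ 4 * T < N := by
    have h1 : 2 * u ^ 4 * T < 2 * u ^ 8 * T := by
      apply mul_lt_mul_of_pos_right _ hT0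
      have h2 : (1 : ℝ) < u ^ 4 := one_lt_pow₀ (by linarith) (by norm_num)
      have h3 : 0 < u ^ 4 := by positivity
      nlinarith
    have h2 : 2 * u ^ 8 * T ≤ 2 * u ^ 8 * T ^ 2 := by
      apply mul_le_mul_of_nonneg_left _ (by positivity)
      nlinarith
    linarith
  have hNu : (N : ℝ) ^ (1 - ρ / 100) = N / u := by
    rw [Real.rpow_sub hN0, Real.rpow_one, hu]
  obtain ⟨S', hS'⟩ : ∃ S' : Finset ℕ, S' = (Icc 1 ⌊2 * u ^ 2 * (N : ℝ)⌋₊).filter (fun t => t ∈ S) := ⟨_, rfl⟩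
  obtain ⟨I, hI⟩ : ∃ I : Finset ℤ, I = Icc (-((⌊u⌋₊ : ℕ) : ℤ)) ((⌊u⌋₊ : ℕ) : ℤ) := ⟨_, rfl⟩
  obtain ⟨F, hF⟩ : ∃ F : (ℤ × ℤ) × ℕ → Finset ℕ, F = fun t =>
    if t.1.1 ≠ 0 ∧ |(t.1.1 : ℝ)| ≤ u ∧ |(t.1.2 : ℝ)| ≤ u ∧ (N : ℝ) / u ≤ ((t.2 : ℤ) : ℝ) then
      ((Icc 1 N).filter (fun m => ¬ Exc c z u m ∧ t.1.1 * m + t.1.2 * f m = (t.2 : ℤ) ∧
        ∃ y : ℕ, z ≤ y ∧ T < (rp y m : ℝ) ∧ (rp y m : ℝ) ≤ N / T)) ∪
      ((Icc 1 N).filter (fun m => ¬ Exc c z u m ∧ t.1.1 * m + t.1.2 * f m = (t.2 : ℤ) ∧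
        ∃ q : ℕ, q.Prime ∧ z < q ∧ (sp (q - 1) m : ℝ) ≤ T ∧ (N : ℝ) ≤ T * u ^ 4 * (sp (q - 1) m * q))) else ∅ := ⟨_, rfl⟩
  have hFc : ∀ t, ((F t).card : ℝ) ≤ 4 * u * N / T + N / T + u ^ 14 * T := by
    intro t
    rw [hF]
    simp only
    split_ifs with h
    · obtain ⟨h1, h2, h3, h4⟩ := h
      have a1 := fiber_div H (n := (t.2 : ℤ)) (β := t.1.2) h1 h2 T (N / T) hT1 (by positivity)
      have a2 := fiber_cut H (n := (t.2 : ℤ)) h1 h2 h3 h4 T hT1 hYN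
      have a3 : (((((Icc 1 N).filter (fun m => ¬ Exc c z u m ∧ t.1.1 * m + t.1.2 * f m = (t.2 : ℤ) ∧
        ∃ y : ℕ, z ≤ y ∧ T < (rp y m : ℝ) ∧ (rp y m : ℝ) ≤ N / T)) ∪
      ((Icc 1 N).filter (fun m => ¬ Exc c z u m ∧ t.1.1 * m + t.1.2 * f m = (t.2 : ℤ) ∧
        ∃ q : ℕ, q.Prime ∧ z < q ∧ (sp (q - 1) m : ℝ) ≤ T ∧ (N : ℝ) ≤ T * u ^ 4 * (sp (q - 1) m * q)))).card : ℕ) : ℝ) ≤
        ((((Icc 1 N).filter (fun m => ¬ Exc c z u m ∧ t.1.1 * m + t.1.2 * f m = (t.2 : ℤ) ∧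
        ∃ y : ℕ, z ≤ y ∧ T < (rp y m : ℝ) ∧ (rp y m : ℝ) ≤ N / T)).card : ℕ) : ℝ) +
        ((((Icc 1 N).filter (fun m => ¬ Exc c z u m ∧ t.1.1 * m + t.1.2 * f m = (t.2 : ℤ) ∧
        ∃ q : ℕ, q.Prime ∧ z < q ∧ (sp (q - 1) m : ℝ) ≤ T ∧ (N : ℝ) ≤ T * u ^ 4 * (sp (q - 1) m * q))).card : ℕ) : ℝ) := by
        exact_mod_cast card_union_le _ _
      linarith
    · rw [card_empty, Nat.cast_zero]
      positivity
  have hsub : (Icc 1 N).filter (fun m => ∃ α β : ℤ, α ≠ 0 ∧ |(α : ℝ)| ≤ (N : ℝ) ^ (ρ / 100) ∧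
        |(β : ℝ)| ≤ (N : ℝ) ^ (ρ / 100) ∧ (N : ℝ) ^ (1 - ρ / 100) ≤ ((α * m + β * f m : ℤ) : ℝ) ∧
        (α * m + β * f m).toNat ∈ S) ⊆ ((Icc 1 N).filter (fun m => Exc c z u m)) ∪ ((I ×ˢ I) ×ˢ S').biUnion F := by
    intro m hm
    rw [mem_filter] at hm
    obtain ⟨hmI, α, β, g1, g2, g3, g4, g5⟩ := hm
    rw [hNu] at g4
    rw [← hu] at g2 g3
    rw [mem_union, mem_filter]
    by_cases hE : Exc c z u m
    · exact Or.inl ⟨hmI, hE⟩
    right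
    have hm2 := mem_Icc.1 hmI
    obtain ⟨k1, k2⟩ := cases_cut H hm2.1 hm2.2 hE g2 g3 g4 hT1 hTN
    have hpos : (0 : ℝ) < ((α * m + β * f m : ℤ) : ℝ) := lt_of_lt_of_le (by positivity) g4
    have hpos' : 0 < α * m + β * f m := by exact_mod_cast hpos
    obtain ⟨n, hn⟩ : ∃ n : ℕ, n = (α * m + β * f m).toNat := ⟨_, rfl⟩
    have hnv : α * m + β * f m = (n : ℤ) := by rw [hn, Int.toNat_of_nonneg hpos'.le]
    rw [hnv] at g4 k1 hpos'
    rw [← hn] at g5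
    have hIm : ∀ a : ℤ, |(a : ℝ)| ≤ u → a ∈ I := by
      intro a ha
      have h1 : a.natAbs ≤ ⌊u⌋₊ := by
        apply Nat.le_floor
        rwa [Nat.cast_natAbs, Int.cast_abs]
      rw [hI, mem_Icc]
      omega
    rw [mem_biUnion]
    refine ⟨((α, β), n), ?_, ?_⟩
    · rw [mem_product, mem_product]
      refine ⟨⟨hIm α g2, hIm β g3⟩, ?_⟩
      rw [hS', mem_filter, mem_Icc]
      refine ⟨⟨by omega, Nat.le_floor ?_⟩, g5⟩
      simpa using k1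
    · rw [hF]
      simp only
      rw [if_pos ⟨g1, g2, g3, g4⟩, mem_union, mem_filter, mem_filter]
      rcases k2 with h | h
      · exact Or.inl ⟨hmI, hE, hnv, h⟩
      · exact Or.inr ⟨hmI, hE, hnv, h⟩
  have hfl : ((⌊u⌋₊ : ℕ) : ℝ) ≤ u := Nat.floor_le hu0.le
  have hIc : (I.card : ℝ) ≤ 3 * u := by
    rw [hI, Int.card_Icc]
    have h1 : (((⌊u⌋₊ : ℕ) : ℤ) + 1 - (-((⌊u⌋₊ : ℕ) : ℤ))).toNat = 2 * ⌊u⌋₊ + 1 := by omega
    rw [h1]
    push_cast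
    linarith
  have hX1 : 1 ≤ ⌊2 * u ^ 2 * (N : ℝ)⌋₊ := by
    apply Nat.le_floor
    push_cast
    have : (1 : ℝ) ≤ u ^ 2 := one_le_pow₀ hu1
    nlinarith
  have hSc : (S'.card : ℝ) ≤ u ^ 4 * (N : ℝ) ^ θ := by
    rw [hS']
    refine (hS _ hX1).trans ?_
    have h1 : ((⌊2 * u ^ 2 * (N : ℝ)⌋₊ : ℕ) : ℝ) ≤ u ^ 3 * N := by
      refine (Nat.floor_le (by positivity)).trans ?_
      apply mul_le_mul_of_nonneg_right _ hN0.le
      nlinarith [pow_pos hu0 2]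
    calc K * ((⌊2 * u ^ 2 * (N : ℝ)⌋₊ : ℕ) : ℝ) ^ θ ≤ |K| * ((⌊2 * u ^ 2 * (N : ℝ)⌋₊ : ℕ) : ℝ) ^ θ :=
          mul_le_mul_of_nonneg_right (le_abs_self _) (by positivity)
      _ ≤ u * (u ^ 3 * N) ^ θ := by
          apply mul_le_mul hbig.Ku (Real.rpow_le_rpow (Nat.cast_nonneg _) h1 hθ0) (by positivity) hu0.le
      _ = u * ((u ^ 3) ^ θ * (N : ℝ) ^ θ) := by rw [Real.mul_rpow (by positivity) hN0.le]
      _ ≤ u * ((u ^ 3) ^ (1 : ℝ) * (N : ℝ) ^ θ) := by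
          apply mul_le_mul_of_nonneg_left _ hu0.le
          apply mul_le_mul_of_nonneg_right _ (by positivity)
          exact Real.rpow_le_rpow_of_exponent_le (one_le_pow₀ hu1) (by linarith)
      _ = u ^ 4 * (N : ℝ) ^ θ := by rw [Real.rpow_one]; ring
  have hmain : ((((I ×ˢ I) ×ˢ S').biUnion F).card : ℝ) ≤ (N : ℝ) ^ (1 - ρ / 2) := by
    calc ((((I ×ˢ I) ×ˢ S').biUnion F).card : ℝ) ≤ ∑ t ∈ (I ×ˢ I) ×ˢ S', ((F t).card : ℝ) := by
          exact_mod_cast card_biUnion_le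
      _ ≤ ∑ t ∈ (I ×ˢ I) ×ˢ S', (4 * u * N / T + N / T + u ^ 14 * T) := sum_le_sum (fun t _ => hFc t)
      _ = ((I.card : ℝ) * I.card * S'.card) * (4 * u * N / T + N / T + u ^ 14 * T) := by
          rw [sum_const, card_product, card_product, nsmul_eq_mul]
          push_cast
          ring
      _ ≤ ((3 * u) * (3 * u) * (u ^ 4 * (N : ℝ) ^ θ)) * (4 * u * N / T + N / T + u ^ 14 * T) := by
          apply mul_le_mul_of_nonneg_right _ (by positivity)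
          apply mul_le_mul _ hSc (Nat.cast_nonneg _) (by positivity)
          exact mul_le_mul hIc hIc (Nat.cast_nonneg _) (by positivity)
      _ ≤ (u ^ 8 * (N : ℝ) ^ θ) * (u ^ 3 * (N / T) + u ^ 14 * T) := by
          have h1 : (9 : ℝ) ≤ u ^ 2 := by nlinarith
          have h2 : (3 * u) * (3 * u) * (u ^ 4 * (N : ℝ) ^ θ) ≤ u ^ 8 * (N : ℝ) ^ θ := by
            have h3 : 0 ≤ u ^ 6 * (N : ℝ) ^ θ := by positivity
            calc (3 * u) * (3 * u) * (u ^ 4 * (N : ℝ) ^ θ) = 9 * (u ^ 6 * (N : ℝ) ^ θ) := by ring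
              _ ≤ u ^ 2 * (u ^ 6 * (N : ℝ) ^ θ) := mul_le_mul_of_nonneg_right h1 h3
              _ = u ^ 8 * (N : ℝ) ^ θ := by ring
          apply mul_le_mul h2 _ (by positivity) (by positivity)
          have h4 : 4 * u * N / T + N / T ≤ u ^ 3 * (N / T) := by
            have h5 : 0 ≤ (N : ℝ) / T := by positivity
            have h6 : 4 * u + 1 ≤ u ^ 3 := by nlinarith
            calc 4 * u * N / T + N / T = (4 * u + 1) * (N / T) := by ring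
              _ ≤ u ^ 3 * (N / T) := mul_le_mul_of_nonneg_right h6 h5
          linarith
      _ = u ^ 11 * ((N : ℝ) ^ θ * (N / T)) + u ^ 22 * ((N : ℝ) ^ θ * T) := by ring
      _ = (N : ℝ) ^ (((11 : ℕ) : ℝ) * (ρ / 100) + (1 - ρ)) + (N : ℝ) ^ (((22 : ℕ) : ℝ) * (ρ / 100) + (θ + (θ + ρ))) := by
          rw [hupow, hupow, Real.rpow_add hN0 _ (1 - ρ), Real.rpow_add hN0 _ (θ + (θ + ρ)), hT, Real.rpow_add hN0 θ (θ + ρ)]
          congr 1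
          congr 1
          rw [Real.rpow_sub hN0 1 ρ, Real.rpow_one, Real.rpow_add hN0]
          have h1 : (0 : ℝ) < (N : ℝ) ^ θ := by positivity
          have h2 : (0 : ℝ) < (N : ℝ) ^ ρ := by positivity
          field_simp
      _ ≤ (N : ℝ) ^ (1 - 3 * ρ / 4) + (N : ℝ) ^ (1 - 3 * ρ / 4) := by
          apply add_le_add
          · exact hmono _ _ (by push_cast; linarith)
          · exact hmono _ _ (by push_cast; linarith)
      _ ≤ u * (N : ℝ) ^ (1 - 3 * ρ / 4) := by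
          have : (0 : ℝ) < (N : ℝ) ^ (1 - 3 * ρ / 4) := by positivity
          nlinarith
      _ = (N : ℝ) ^ (ρ / 100 + (1 - 3 * ρ / 4)) := by rw [hu, ← Real.rpow_add hN0]
      _ ≤ (N : ℝ) ^ (1 - ρ / 2) := hmono _ _ (by linarith)
  have hL0 : 0 < Real.log N := by linarith
  have hLA : 0 < Real.log N ^ A := by positivity
  have h8 : (N : ℝ) / Real.log N ^ (A + 1) ≤ N / Real.log N ^ A / 2 := by
    rw [div_div]
    apply div_le_div_of_nonneg_left hN0.le (by positivity)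
    rw [pow_succ]
    exact mul_le_mul_of_nonneg_left hL2 hLA.le
  have h9 : (N : ℝ) ^ (1 - ρ / 2) ≤ N / Real.log N ^ A / 2 := by
    rw [Real.rpow_sub hN0, Real.rpow_one, div_div]
    apply div_le_div_of_nonneg_left hN0.le (by positivity)
    refine le_trans ?_ hLp
    rw [pow_succ]
    exact mul_le_mul_of_nonneg_left hL2 hLA.le
  have h10 := (card_le_card hsub).trans (card_union_le _ _)
  have h11 : (((Icc 1 N).filter (fun m => ∃ α β : ℤ, α ≠ 0 ∧ |(α : ℝ)| ≤ (N : ℝ) ^ (ρ / 100) ∧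
        |(β : ℝ)| ≤ (N : ℝ) ^ (ρ / 100) ∧ (N : ℝ) ^ (1 - ρ / 100) ≤ ((α * m + β * f m : ℤ) : ℝ) ∧
        (α * m + β * f m).toNat ∈ S)).card : ℝ) ≤ (((Icc 1 N).filter (fun m => Exc c z u m)).card : ℝ) +
        ((((I ×ˢ I) ×ˢ S').biUnion F).card : ℝ) := by exact_mod_cast h10
  linarith

end Pool.Agent.U365.POW
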