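import Pool.Agent.U365.POW.H5

set_option autoImplicit false

/-! Properties with few exceptions hold for the values at almost all integers. -/

namespace Pool.Agent.U365.POW

open Finset Filter Topology Pool.Agent.U365.AQG Pool.Agent.N733.TG

open Classical in
/-- The property `Q` holds for the values of similar functions as the aliquot sum at almost all integers. (1) Let `f` be a
positive multiplicative function with `f m ≤ m (1 + log m)^C` and `f p = p + c`, `c ≠ 0`, for the large primes `p`. There is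
`δ > 0` such that for every `A`, all large `N` and all `m ≤ N` but at most `N / (log N)^A`: `g = α m + β f(m)` has the
property `Q` for ALL integers `α, β` with `α ≠ 0`, `|α|, |β| ≤ N^δ` and `g ≥ N^(1-δ)`. (2) For almost all `m`, `s(m)` and
`m - φ(m)` have the property `Q`. -/
def AllValues (Q : ℕ → Prop) : Prop :=
  (∀ f : ℕ → ℕ, ∀ c : ℤ, Moderate f c → c ≠ 0 → ∃ δ : ℝ, 0 < δ ∧ ∀ A : ℕ, ∃ N₀ : ℕ, ∀ N : ℕ, N₀ ≤ N →
      (((Icc 1 N).filter (fun m : ℕ => ¬ (∀ α β : ℤ, α ≠ 0 → |(α : ℝ)| ≤ (N : ℝ) ^ δ →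
        |(β : ℝ)| ≤ (N : ℝ) ^ δ → (N : ℝ) ^ (1 - δ) ≤ ((α * m + β * f m : ℤ) : ℝ) →
        Q (α * m + β * f m).toNat))).card : ℝ) ≤ N / Real.log N ^ A) ∧
    AlmostAll (fun m => Q (aliquot m) ∧ Q (m - Nat.totient m))

theorem allValues_mono {Q Q' : ℕ → Prop} (h : AllValues Q) (hQ : ∀ n, Q n → Q' n) : AllValues Q' := by
  obtain ⟨h1, h2⟩ := h
  refine ⟨fun f c hf hc => ?_, almostAll_and h2 h2 0 (fun m _ a _ => ⟨hQ _ a.1, hQ _ a.2⟩)⟩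
  obtain ⟨δ, hδ, H⟩ := h1 f c hf hc
  refine ⟨δ, hδ, fun A => ?_⟩
  obtain ⟨N₀, hN₀⟩ := H A
  refine ⟨N₀, fun N hN => ?_⟩
  refine le_trans (Nat.cast_le.2 (card_mono' (fun m hm => ?_))) (hN₀ N hN)
  exact fun hc => hm (fun α β g a b c => hQ _ (hc α β g a b c))

open Classical in
theorem windows_all {T : Type*} (Adm Good : T → Prop) (h : T → ℝ) {f : ℕ → ℕ} {c : ℤ} (hf : Moderate f c) (hc : c ≠ 0)
    {G : ℕ → ℝ} {d : ℝ} (hG : Expanding G d) {s κ : ℝ} (hs : 0 ≤ s) (hκ : 0 ≤ κ) (h1 : d * s + κ < 1 / 2)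
    (hS : ∀ ε : ℝ, 0 < ε → ∃ C : ℝ, ∀ X : ℝ, 1 ≤ X →
      {t | (Adm t ∧ ¬ Good t) ∧ h t ≤ X}.Finite ∧ ({t | (Adm t ∧ ¬ Good t) ∧ h t ≤ X}.ncard : ℝ) ≤ C * X ^ (s + ε)) :
    ∃ δ : ℝ, 0 < δ ∧ ∀ A : ℕ, ∃ N₀ : ℕ, ∀ N : ℕ, N₀ ≤ N →
      (((Icc 1 N).filter (fun m : ℕ => ¬ (∀ α β : ℤ, α ≠ 0 → |(α : ℝ)| ≤ (N : ℝ) ^ δ →
        |(β : ℝ)| ≤ (N : ℝ) ^ δ → (N : ℝ) ^ (1 - δ) ≤ ((α * m + β * f m : ℤ) : ℝ) →
        NearAll Adm Good h G κ (α * m + β * f m).toNat))).card : ℝ) ≤ N / Real.log N ^ A := by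
  have hd := hG.one_le
  have hds : 0 ≤ d * s := by positivity
  obtain ⟨r, hr⟩ : ∃ r : ℝ, r = 1 / 2 - (d * s + κ) := ⟨_, rfl⟩
  have hr0 : 0 < r := by rw [hr]; linarith
  obtain ⟨ε, hε⟩ : ∃ ε, ε = r / (2 * d) := ⟨_, rfl⟩
  have hd0 : 0 < d := by linarith
  have hε0 : 0 < ε := by rw [hε]; positivity
  have hεd : d * ε = r / 2 := by
    rw [hε]
    field_simp
  obtain ⟨K, hK⟩ := nearG_count {t | Adm t ∧ ¬ Good t} h hG (s := s + ε) (κ := κ) (by linarith) hκ (by linarith) (hS ε hε0)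
  have he : d * (s + ε) + κ = d * s + κ + r / 2 := by
    rw [mul_add, hεd]
    ring
  rw [he] at hK
  refine ⟨r / 4 / 100, by positivity, fun A => ?_⟩
  obtain ⟨N₀, hN₀⟩ := avoid_all hf hc (θ := d * s + κ + r / 2) (ρ := r / 4) (by positivity) (by positivity)
    (by linarith) K A
  refine ⟨N₀, fun N hN => ?_⟩
  refine le_trans ?_ (hN₀ N hN (NearG {t | Adm t ∧ ¬ Good t} h G κ) hK)
  apply Nat.cast_le.2
  apply card_le_card
  intro m hm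
  rw [mem_filter] at hm ⊢
  obtain ⟨hm1, hm2⟩ := hm
  push Not at hm2
  obtain ⟨α, β, g1, g2, g3, g4, g5⟩ := hm2
  refine ⟨hm1, α, β, g1, g2, g3, g4, ?_⟩
  unfold NearAll at g5
  push Not at g5
  obtain ⟨t, ht1, ht2, ht3⟩ := g5
  exact ⟨t, ⟨ht1, ht3⟩, ht2⟩

open Classical in
/-- passing to `s(m)` and `m - φ(m)` -/
theorem aliquot_all (Q : ℕ → Prop)
    (H : ∀ f : ℕ → ℕ, ∀ c : ℤ, Moderate f c → c ≠ 0 → ∃ δ : ℝ, 0 < δ ∧ ∀ A : ℕ, ∃ N₀ : ℕ, ∀ N : ℕ, N₀ ≤ N →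
      (((Icc 1 N).filter (fun m : ℕ => ¬ (∀ α β : ℤ, α ≠ 0 → |(α : ℝ)| ≤ (N : ℝ) ^ δ →
        |(β : ℝ)| ≤ (N : ℝ) ^ δ → (N : ℝ) ^ (1 - δ) ≤ ((α * m + β * f m : ℤ) : ℝ) →
        Q (α * m + β * f m).toNat))).card : ℝ) ≤ N / Real.log N ^ A) :
    AlmostAll (fun m => Q (aliquot m) ∧ Q (m - Nat.totient m)) := by
  obtain ⟨δ₁, hδ₁, H₁⟩ := H _ _ moderate_sigma (by norm_num)
  obtain ⟨N₁, hN₁⟩ := H₁ 1
  obtain ⟨δ₂, hδ₂, H₂⟩ := H _ _ moderate_totient (by norm_num)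
  obtain ⟨N₂, hN₂⟩ := H₂ 1
  rw [almostAll_iff]
  intro ε hε
  have hsf := (almostAll_iff _).1 Pool.Agent.U365.TAU.small_factor (ε / 8) (by positivity)
  obtain ⟨N₃, hN₃⟩ := hsf
  obtain ⟨δ, hδ⟩ : ∃ δ, δ = min δ₁ δ₂ := ⟨_, rfl⟩
  have hδ0 : 0 < δ := by rw [hδ]; exact lt_min hδ₁ hδ₂
  have h1 : Tendsto (fun N : ℕ => Real.log N) atTop atTop :=
    Real.tendsto_log_atTop.comp (tendsto_natCast_atTop_atTop (R := ℝ))
  obtain ⟨N₄, hN₄⟩ := eventually_atTop.1 (h1.eventually_ge_atTop (8 / ε))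
  have h2 : ∀ᶠ x : ℝ in atTop, ‖Real.log x‖ ≤ (ε / 8) * ‖x ^ δ‖ :=
    (isLittleO_log_rpow_atTop hδ0).bound (by positivity)
  obtain ⟨x₅, hx₅⟩ := eventually_atTop.1 h2
  obtain ⟨N₅, hN₅⟩ := exists_nat_ge x₅
  refine ⟨N₁ + N₂ + N₃ + N₄ + N₅ + 3, fun N hN => ?_⟩
  have hN3 : (3 : ℝ) ≤ N := by exact_mod_cast (by omega : 3 ≤ N)
  have hN0 : (0 : ℝ) < N := by linarith
  have hN1' : (1 : ℝ) ≤ N := by linarith
  have e4 := hN₄ N (by omega)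
  have e5 := hx₅ N (hN₅.trans (by exact_mod_cast (by omega : N₅ ≤ N)))
  have hlog0 : 0 < Real.log N := Real.log_pos (by linarith)
  rw [Real.norm_of_nonneg hlog0.le, Real.norm_of_nonneg (by positivity)] at e5
  have b1 := hN₁ N (by omega)
  have b2 := hN₂ N (by omega)
  have b3 := hN₃ N (by omega)
  have hpow : (N : ℝ) / Real.log N ^ 1 ≤ ε / 8 * N := by
    rw [pow_one, div_le_iff₀ hlog0]
    have h6 : 8 ≤ Real.log N * ε := by rwa [div_le_iff₀ hε] at e4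
    nlinarith
  have hlow : ∀ δ', δ ≤ δ' → (N : ℝ) ^ (1 - δ') * Real.log N ≤ ε / 8 * N := by
    intro δ' hd'
    calc (N : ℝ) ^ (1 - δ') * Real.log N ≤ (N : ℝ) ^ (1 - δ) * (ε / 8 * (N : ℝ) ^ δ) := by
          apply mul_le_mul _ e5 hlog0.le (by positivity)
          exact Real.rpow_le_rpow_of_exponent_le hN1' (by linarith)
      _ = ε / 8 * ((N : ℝ) ^ (1 - δ) * (N : ℝ) ^ δ) := by ring
      _ = ε / 8 * N := by
          rw [← Real.rpow_add hN0, sub_add_cancel, Real.rpow_one]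
  have hone : ∀ δ' : ℝ, 0 < δ' → (1 : ℝ) ≤ (N : ℝ) ^ δ' := fun δ' hd' => Real.one_le_rpow hN1' hd'.le
  obtain ⟨A₁, hA₁⟩ : ∃ A₁ : Finset ℕ, A₁ = (Icc 1 N).filter (fun m : ℕ => ¬ (∀ α β : ℤ, α ≠ 0 → |(α : ℝ)| ≤ (N : ℝ) ^ δ₁ →
        |(β : ℝ)| ≤ (N : ℝ) ^ δ₁ → (N : ℝ) ^ (1 - δ₁) ≤ ((α * m + β * (∑ d ∈ m.divisors, d : ℕ) : ℤ) : ℝ) →
        Q (α * m + β * (∑ d ∈ m.divisors, d : ℕ)).toNat)) := ⟨_, rfl⟩
  obtain ⟨A₂, hA₂⟩ : ∃ A₂ : Finset ℕ, A₂ = (Icc 1 N).filter (fun m : ℕ => ¬ (∀ α β : ℤ, α ≠ 0 → |(α : ℝ)| ≤ (N : ℝ) ^ δ₂ →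
        |(β : ℝ)| ≤ (N : ℝ) ^ δ₂ → (N : ℝ) ^ (1 - δ₂) ≤ ((α * m + β * (Nat.totient m : ℕ) : ℤ) : ℝ) →
        Q (α * m + β * (Nat.totient m : ℕ)).toNat)) := ⟨_, rfl⟩
  obtain ⟨A₃, hA₃⟩ : ∃ A₃ : Finset ℕ, A₃ = (Icc 1 N).filter (fun m => ¬ ∃ p : ℕ, p.Prime ∧ p ∣ m ∧ (p : ℝ) ≤ Real.log m) :=
    ⟨_, rfl⟩
  have c1 : (A₁.card : ℝ) ≤ N / Real.log N ^ 1 := by rw [hA₁]; exact b1
  have c2 : (A₂.card : ℝ) ≤ N / Real.log N ^ 1 := by rw [hA₂]; exact b2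
  have c3 : (A₃.card : ℝ) ≤ ε / 8 * N := by
    rw [hA₃]
    exact le_trans (Nat.cast_le.2 (card_mono' (fun m hm => hm))) b3
  have hsub : (Icc 1 N).filter (fun m => ¬ (Q (aliquot m) ∧ Q (m - Nat.totient m))) ⊆
      ((A₁ ∪ A₂) ∪ A₃) ∪ Icc 1 ⌊ε / 8 * N⌋₊ := by
    rw [hA₁, hA₂, hA₃]
    intro m hm
    rw [mem_filter] at hm
    obtain ⟨hmI, hm2⟩ := hm
    obtain ⟨hm1, hmN⟩ := mem_Icc.1 hmI
    by_cases hA : m ∈ (Icc 1 N).filter (fun m => ¬ ∃ p : ℕ, p.Prime ∧ p ∣ m ∧ (p : ℝ) ≤ Real.log m)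
    · rw [mem_union, mem_union]
      exact Or.inl (Or.inr hA)
    by_cases hB : (m : ℝ) ≤ ε / 8 * N
    · rw [mem_union]
      right
      rw [mem_Icc]
      exact ⟨hm1, Nat.le_floor hB⟩
    push Not at hB
    rw [mem_filter, not_and, not_not] at hA
    obtain ⟨p, hp, hpm, hpl⟩ := hA hmI
    have hno := hm2
    obtain ⟨a1, a2⟩ := Pool.Agent.U365.TAU.aliquot_large hm1 hp hpm
    have hm0 : (0 : ℝ) < m := by exact_mod_cast hm1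
    have hpN : (p : ℝ) ≤ Real.log N := hpl.trans (Real.log_le_log hm0 (by exact_mod_cast hmN))
    have key : ∀ t : ℕ, m ≤ p * t → ∀ δ', δ ≤ δ' → (N : ℝ) ^ (1 - δ') ≤ t := by
      intro t ht δ' hd'
      have k1 : (m : ℝ) ≤ p * t := by exact_mod_cast ht
      have k2 : (p : ℝ) * t ≤ Real.log N * t := mul_le_mul_of_nonneg_right hpN (Nat.cast_nonneg _)
      have k3 := hlow δ' hd'
      have k4 : (N : ℝ) ^ (1 - δ') * Real.log N ≤ t * Real.log N := by linarith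
      exact le_of_mul_le_mul_right k4 hlog0
    have hal : aliquot m + m = ∑ d ∈ m.divisors, d := (Nat.sum_divisors_eq_sum_properDivisors_add_self).symm
    have e1 : (-1 * (m : ℤ) + 1 * ((∑ d ∈ m.divisors, d : ℕ) : ℤ)) = (aliquot m : ℤ) := by
      rw [← hal]
      push_cast
      ring
    have htm : Nat.totient m ≤ m := Nat.totient_le m
    have e2 : (1 * (m : ℤ) + -1 * (Nat.totient m : ℤ)) = ((m - Nat.totient m : ℕ) : ℤ) := by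
      rw [Nat.cast_sub htm]
      ring
    rw [mem_union, mem_union, mem_union, mem_filter, mem_filter]
    by_cases hQ : Q (aliquot m)
    · left; left; right
      refine ⟨hmI, fun h => hno ⟨hQ, ?_⟩⟩
      have := h 1 (-1) one_ne_zero (by simpa using hone δ₂ hδ₂) (by simpa using hone δ₂ hδ₂) (by
        rw [e2, Int.cast_natCast]
        exact key _ a2 δ₂ (by rw [hδ]; exact min_le_right _ _))
      rwa [e2, Int.toNat_natCast] at this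
    · left; left; left
      refine ⟨hmI, fun h => hQ ?_⟩
      have := h (-1) 1 (by norm_num) (by simpa using hone δ₁ hδ₁) (by simpa using hone δ₁ hδ₁) (by
        rw [e1, Int.cast_natCast]
        exact key _ a1 δ₁ (by rw [hδ]; exact min_le_left _ _))
      rwa [e1, Int.toNat_natCast] at this
  have hc := (card_le_card hsub).trans ((card_union_le _ _).trans (Nat.add_le_add_right ((card_union_le _ _).trans
    (Nat.add_le_add_right (card_union_le _ _) _)) _))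
  rw [Nat.card_Icc, Nat.add_sub_cancel] at hc
  have hfl : ((⌊ε / 8 * (N : ℝ)⌋₊ : ℕ) : ℝ) ≤ ε / 8 * N := Nat.floor_le (by positivity)
  have hc' : (((Icc 1 N).filter (fun m => ¬ (Q (aliquot m) ∧ Q (m - Nat.totient m)))).card : ℝ) ≤
      A₁.card + A₂.card + A₃.card + (⌊ε / 8 * (N : ℝ)⌋₊ : ℕ) := by exact_mod_cast hc
  have hpos : 0 < ε * N := by positivity
  refine le_trans (Nat.cast_le.2 (card_mono' (fun m hm => hm))) (hc'.trans ?_)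
  linarith

theorem allValues_of {T : Type*} (Adm Good : T → Prop) (h : T → ℝ) {G : ℕ → ℝ} {d : ℝ}
    (hG : Expanding G d) {s κ : ℝ} (hs : 0 ≤ s) (hκ : 0 ≤ κ) (h1 : d * s + κ < 1 / 2)
    (hS : ∀ ε : ℝ, 0 < ε → ∃ C : ℝ, ∀ X : ℝ, 1 ≤ X →
      {t | (Adm t ∧ ¬ Good t) ∧ h t ≤ X}.Finite ∧ ({t | (Adm t ∧ ¬ Good t) ∧ h t ≤ X}.ncard : ℝ) ≤ C * X ^ (s + ε)) :
    AllValues (NearAll Adm Good h G κ) :=
  ⟨fun _ _ hf hc => windows_all Adm Good h hf hc hG hs hκ h1 hS,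
    aliquot_all _ (fun _ _ hf hc => windows_all Adm Good h hf hc hG hs hκ h1 hS)⟩

end Pool.Agent.U365.POW
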