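import Pool.Agent.U365.POW.E
import Pool.Agent.U365.POW.I

set_option autoImplicit false

/-! Both methods together. -/

namespace Pool.Agent.U365.POW

open Finset Filter Topology Pool.Agent.U365.AQG Pool.Agent.N733.TG

/-- The property `Q` holds for the values of similar functions as the aliquot sum, with the exponent `e`. (1) If `e < 1/2`, it
holds for the values at almost all integers (`AllValues`). (2) For every `e` it holds for the values at almost all those integers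
`m` which have, for some `ρ > 0`, a divisor `≥ m ^ (e + ρ)` which is a prime or the product of two different primes (`Values`, with
a better bound for the number of the exceptions), and for `s(m)` and `m - φ(m)` on a set of lower density at least `1 - e`. -/
def Law (e : ℝ) (Q : ℕ → Prop) : Prop :=
  (e < 1 / 2 → AllValues Q) ∧ (∀ ρ : ℝ, 0 < ρ → Values (e + ρ) Q) ∧ Dens (1 - e) Q

theorem law_mono {e : ℝ} {Q Q' : ℕ → Prop} (h : Law e Q) (hQ : ∀ n, Q n → Q' n) : Law e Q' :=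
  ⟨fun he => allValues_mono (h.1 he) hQ, fun ρ hρ => values_mono (h.2.1 ρ hρ) hQ, dens_mono h.2.2 le_rfl hQ⟩

theorem law_of {T : Type*} (Adm Good : T → Prop) (h : T → ℝ) {G : ℕ → ℝ} {d : ℝ}
    (hG : Expanding G d) {s κ : ℝ} (hs : 0 ≤ s) (hκ : 0 ≤ κ) (h1 : d * s + κ < 1)
    (hS : ∀ ε : ℝ, 0 < ε → ∃ C : ℝ, ∀ X : ℝ, 1 ≤ X →
      {t | (Adm t ∧ ¬ Good t) ∧ h t ≤ X}.Finite ∧ ({t | (Adm t ∧ ¬ Good t) ∧ h t ≤ X}.ncard : ℝ) ≤ C * X ^ (s + ε)) :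
    Law (d * s + κ) (NearAll Adm Good h G κ) :=
  ⟨fun he => allValues_of Adm Good h hG hs hκ he hS, values_of Adm Good h hG hs hκ h1 hS⟩

open Classical in
/-- sets of natural numbers -/
theorem law_nat (P : Set ℕ) {G : ℕ → ℝ} {d : ℝ}
    (hG : Expanding G d) {s κ : ℝ} (hs : 0 ≤ s) (hκ : 0 ≤ κ) (h1 : d * s + κ < 1)
    (hP : ∀ ε : ℝ, 0 < ε → ∃ C : ℝ, ∀ X : ℕ, 1 ≤ X →
      (((Ioc 0 X).filter (fun t => t ∈ P)).card : ℝ) ≤ C * (X : ℝ) ^ (s + ε)) :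
    Law (d * s + κ) (fun g => ∀ n : ℕ, |(n : ℝ) - G g| ≤ (g : ℝ) ^ κ → 1 ≤ n ∧ n ∉ P) := by
  have a := law_of (fun _ : ℕ => True) (fun n => 1 ≤ n ∧ n ∉ P) (fun n => (n : ℝ)) hG hs hκ h1 (by
    intro ε hε
    obtain ⟨C, hC⟩ := hP ε hε
    refine ⟨|C| + 1, fun X hX => ?_⟩
    have hX1 : 1 ≤ ⌊X⌋₊ := Nat.le_floor (by exact_mod_cast hX)
    have hsub : {t : ℕ | (True ∧ ¬ (1 ≤ t ∧ t ∉ P)) ∧ (t : ℝ) ≤ X} ⊆
        (((Ioc 0 ⌊X⌋₊).filter (fun t => t ∈ P) ∪ {0} : Finset ℕ) : Set ℕ) := by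
      rintro t ⟨⟨-, ht⟩, htX⟩
      rw [mem_coe, mem_union, mem_filter, mem_Ioc, mem_singleton]
      rcases Nat.eq_zero_or_pos t with h0 | h0
      · right; exact h0
      · left
        refine ⟨⟨h0, Nat.le_floor htX⟩, ?_⟩
        by_contra h
        exact ht ⟨h0, h⟩
    refine ⟨(finite_toSet _).subset hsub, ?_⟩
    have h2 := Set.ncard_le_ncard hsub (finite_toSet _)
    rw [Set.ncard_coe_finset] at h2
    have h3 : ((Ioc 0 ⌊X⌋₊).filter (fun t => t ∈ P) ∪ {0} : Finset ℕ).card ≤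
        ((Ioc 0 ⌊X⌋₊).filter (fun t => t ∈ P)).card + 1 := (card_union_le _ _).trans (by simp)
    have h4 : (({t : ℕ | (True ∧ ¬ (1 ≤ t ∧ t ∉ P)) ∧ (t : ℝ) ≤ X}.ncard : ℕ) : ℝ) ≤
        (((Ioc 0 ⌊X⌋₊).filter (fun t => t ∈ P)).card : ℝ) + 1 := by exact_mod_cast h2.trans h3
    have h5 : (1 : ℝ) ≤ X ^ (s + ε) := Real.one_le_rpow hX (by linarith)
    have h6 : ((⌊X⌋₊ : ℕ) : ℝ) ^ (s + ε) ≤ X ^ (s + ε) :=
      Real.rpow_le_rpow (Nat.cast_nonneg _) (Nat.floor_le (by linarith)) (by linarith)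
    calc _ ≤ (((Ioc 0 ⌊X⌋₊).filter (fun t => t ∈ P)).card : ℝ) + 1 := h4
      _ ≤ C * ((⌊X⌋₊ : ℕ) : ℝ) ^ (s + ε) + 1 := by linarith [hC _ hX1]
      _ ≤ |C| * X ^ (s + ε) + 1 * X ^ (s + ε) := by
        have h7 : C * ((⌊X⌋₊ : ℕ) : ℝ) ^ (s + ε) ≤ |C| * X ^ (s + ε) :=
          (mul_le_mul_of_nonneg_right (le_abs_self _) (by positivity)).trans
            (mul_le_mul_of_nonneg_left h6 (abs_nonneg _))
        linarith
      _ = (|C| + 1) * X ^ (s + ε) := by ring)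
  exact law_mono a (fun g h n hn => h n trivial hn)

theorem law_good_nat (Adm Good : ℕ → Prop) {G : ℕ → ℝ} {d : ℝ}
    (hG : Expanding G d) {s κ : ℝ} (hs : 0 ≤ s) (hκ : 0 ≤ κ) (h1 : d * s + κ < 1)
    (hP : ∀ ε : ℝ, 0 < ε → ∃ C : ℝ, ∀ X : ℕ, 1 ≤ X →
      ({t : ℕ | 1 ≤ t ∧ t ≤ X ∧ Adm t ∧ ¬ Good t}.ncard : ℝ) ≤ C * (X : ℝ) ^ (s + ε)) :
    Law (d * s + κ) (fun g => ∀ n : ℕ, 1 ≤ n → Adm n → |(n : ℝ) - G g| ≤ (g : ℝ) ^ κ → Good n) := by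
  classical
  have a := law_nat {t | Adm t ∧ ¬ Good t} hG hs hκ h1 (fun ε hε => by
    obtain ⟨C, hC⟩ := hP ε hε
    refine ⟨C, fun X hX => le_trans (le_of_eq ?_) (hC X hX)⟩
    congr 1
    rw [← Set.ncard_coe_finset]
    congr 1
    ext t
    simp only [coe_filter, mem_Ioc, Set.mem_ofPred_eq]
    constructor
    · rintro ⟨⟨a1, a2⟩, a3⟩
      exact ⟨a1, a2, a3⟩
    · rintro ⟨a1, a2, a3⟩
      exact ⟨⟨a1, a2⟩, a3⟩)
  have hm : ∀ g : ℕ, (∀ n : ℕ, |(n : ℝ) - G g| ≤ (g : ℝ) ^ κ → 1 ≤ n ∧ n ∉ {t | Adm t ∧ ¬ Good t}) →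
      ∀ n : ℕ, 1 ≤ n → Adm n → |(n : ℝ) - G g| ≤ (g : ℝ) ^ κ → Good n := by
    intro g hg n _ hn hw
    by_contra hno
    exact (hg n hw).2 ⟨hn, hno⟩
  exact law_mono a hm

theorem law_set {T : Type*} (S : Set T) (h : T → ℝ) {G : ℕ → ℝ} {d : ℝ}
    (hG : Expanding G d) {s κ : ℝ} (hs : 0 ≤ s) (hκ : 0 ≤ κ) (h1 : d * s + κ < 1)
    (hS : ∀ ε : ℝ, 0 < ε → ∃ C : ℝ, ∀ X : ℝ, 1 ≤ X →
      {t | t ∈ S ∧ h t ≤ X}.Finite ∧ ({t | t ∈ S ∧ h t ≤ X}.ncard : ℝ) ≤ C * X ^ (s + ε)) :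
    Law (d * s + κ) (fun g => ∀ t : T, |h t - G g| ≤ (g : ℝ) ^ κ → t ∉ S) := by
  have a := law_of (fun t : T => t ∈ S) (fun _ => False) h hG hs hκ h1 (fun ε hε => by
      obtain ⟨C, hC⟩ := hS ε hε
      refine ⟨C, fun X hX => ?_⟩
      have he : {t : T | (t ∈ S ∧ ¬ False) ∧ h t ≤ X} = {t : T | t ∈ S ∧ h t ≤ X} := by
        ext t
        simp
      rw [he]
      exact hC X hX)
  exact law_mono a (fun g hg t hw ht => hg t ht hw)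

end Pool.Agent.U365.POW
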